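import Pool.Agent.Lib.MP_a1cc03_ag.AC.Defs
import Pool.Agent.Lib.MP_a1cc03_ag.AC.AlgDefs

/-! # The hypotheses of the hermitian first fundamental theorem -/

namespace Pool.Agent.ZC.AC

open ComplexConjugate

/-- `θ r` has integral trace and norm. -/
def Quad {R : Type} [CommRing R] (θ : R →+* ℂ) : Prop :=
  ∀ r : R, ∃ t d : ℤ, θ r + conj (θ r) = t ∧ θ r * conj (θ r) = d

/-- The invariance properties of the class `f M` of the cycle `[M; a]`. -/
structure Inv {R : Type} [CommRing R] {ι : Type} {e : ℕ} (θ : ι → R →+* ℂ) (κ : Fin e → ι)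
    {V U : Type*} [AddCommGroup V] [Module R V] [AddCommGroup U] (f : (Fin e → V) → U) : Prop where
  mq : MultiQuad f
  add : ∀ (M : Fin e → V) (c c' : Fin e), c ≠ c' → κ c = κ c' →
    f (Function.update M c (M c + M c')) = f M
  nul : ∀ (M : Fin e → V) (c : Fin e) (r : R) (u : V), θ (κ c) r = 0 →
    f (Function.update M c (M c + r • u)) = f M
  deg : ∀ (c : Fin e) (r : R), ∃ δ : ℕ, ∀ M : Fin e → V,
    f (Function.update M c (r • M c)) = δ • f M

end Pool.Agent.ZC.AC
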