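import Pool.Agent.Lib.MP_a1cc03_ag.LC.QDefs
import Pool.Agent.Lib.MP_a1cc03_ag.QH.Defs

/-!
# Cycles generated by translates of abelian subvarieties (MP_a1cc03_ag): definitions

`X` is the product of the Weierstrass curves `E (j k)`, `k < n` (so `j` says which curve is the `k`-th
factor). `R` is a commutative ring which acts on every curve `E i` by endomorphisms, `r` acting like the
complex number `θ i r` (`IsEndRing`): for example `R = ℤ`, or a ring which has the rings of complex
multiplications of the curves as quotients. For `κ : Fin e → ι`, a matrix `M` over `R` with `e` columns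
`M c : Fin n → R` defines the homomorphism `z ↦ M z` from the product of the curves `E (κ c)`, `c < e`, to
`X`; an entry `M c k` is used only if `κ c = j k`, that is, if the two factors are the same curve. Subvarieties
of `X` are represented by their sets of `K`-points.
-/

noncomputable section

namespace Pool.Agent.ZC

open WeierstrassCurve ComplexConjugate

/-- The ring `R` acts on the elliptic curve `W` by endomorphisms, through `θ : R → ℂ`, and `θ r` is an
integer in `ℤ` or in an imaginary quadratic field: trace `θ r + conj (θ r)` and norm `θ r * conj (θ r)` are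
in `ℤ` (so `θ R` is `ℤ` or an order in an imaginary quadratic field). -/
structure IsEndRing {K : Type} [Field K] [DecidableEq K] (W : WeierstrassCurve K) {R : Type} [CommRing R]
    [Module R W.toAffine.Point] (θ : R →+* ℂ) : Prop where
  hom : ∀ r : R, IsHom W W (DistribSMul.toAddMonoidHom W.toAffine.Point r)
  faithful : ∀ r : R, θ r = 0 → ∀ P : W.toAffine.Point, r • P = 0
  quadratic : ∀ r : R, ∃ t d : ℤ, θ r + conj (θ r) = t ∧ θ r * conj (θ r) = d

section

variable (R : Type) [CommRing R] {K : Type} [Field K] [DecidableEq K] {ι : Type} [DecidableEq ι]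
  (E : ι → WeierstrassCurve K) [∀ i, Module R (E i).toAffine.Point] {n e : ℕ} (j : Fin n → ι)
  (κ : Fin e → ι)

variable {R} in
/-- The homomorphism `z ↦ M z`, with `k`-th coordinate the sum of the `M c k • z c` over all `c` with
`κ c = j k` (`Pi.single (κ c) (z c)` is the tuple with entry `z c` at `κ c` and all other entries `0`). -/
def abMap (M : Fin e → Fin n → R) :
    (∀ c, (E (κ c)).toAffine.Point) →+ (∀ k, (E (j k)).toAffine.Point) where
  toFun z k := ∑ c, M c k • (Pi.single (κ c) (z c) : ∀ i, (E i).toAffine.Point) (j k)
  map_zero' := by
    funext k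
    simp
  map_add' z w := by
    funext k
    simp only [Pi.add_apply, Pi.single_add, smul_add, Finset.sum_add_distrib]

variable {R} in
/-- The cycle `[M; a]`: the push-forward of the fundamental cycle of the product of the curves
`E (κ c)`, `c < e`, under `z ↦ M z + a`. It is the image, with multiplicity the number of points of the
kernel of `M`, if this kernel is finite, and zero otherwise. -/
def abCycle (M : Fin e → Fin n → R) (a : ∀ k, (E (j k)).toAffine.Point) :
    FreeAbelianGroup (Set (∀ k, (E (j k)).toAffine.Point)) :=
  Nat.card (abMap E j κ M).ker • FreeAbelianGroup.of (Set.range fun z => abMap E j κ M z + a)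

variable {R} in
/-- For a zero-cycle `z = ∑ m_a [a]` on `X`, the cycle `∑ m_a [M; a]`. -/
def abTranslates (M : Fin e → Fin n → R) :
    FreeAbelianGroup (∀ k, (E (j k)).toAffine.Point) →+
      FreeAbelianGroup (Set (∀ k, (E (j k)).toAffine.Point)) :=
  FreeAbelianGroup.lift fun a => abCycle E j κ M a

/-- Two kinds of cycles on `X` which are rationally equivalent to zero: the translates of `M` by a
zero-cycle which is rationally equivalent to zero; and the push-forward of the divisor of the function
`x(z_c) - x(z')` on the product of the curves `E (κ b)`, `b < e`, and one more copy of `E (κ c)` with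
coordinate `z'`, under the map `(z, z') ↦ M z + v z' + a`, where `M` has `c`-th column `u`. -/
inductive IsAbRel : FreeAbelianGroup (Set (∀ k, (E (j k)).toAffine.Point)) → Prop
  | translates (M : Fin e → Fin n → R) (z : FreeAbelianGroup (∀ k, (E (j k)).toAffine.Point))
      (hz : z ∈ RatEqPi fun k => E (j k)) : IsAbRel (abTranslates E j κ M z)
  | divisor (M : Fin e → Fin n → R) (c : Fin e) (u v : Fin n → R)
      (a : ∀ k, (E (j k)).toAffine.Point) :
      IsAbRel (abCycle E j κ (Function.update M c (u + v)) a
        + abCycle E j κ (Function.update M c (u - v)) a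
        - 2 • abCycle E j κ (Function.update M c u) a
        - 2 • abCycle E j κ (Function.update M c v) a)

/-- The subgroup generated by the cycles `IsAbRel`; all its elements are rationally equivalent to
zero. -/
def RatAb : AddSubgroup (FreeAbelianGroup (Set (∀ k, (E (j k)).toAffine.Point))) :=
  AddSubgroup.closure {z | IsAbRel R E j κ z}

variable {R} in
/-- The map `x ↦ S x + t` of `X` to itself, with `k`-th coordinate the sum of `t k` and the
`S l k • x l` over all `l` with `j l = j k`. -/
def abAff (S : Fin n → Fin n → R) (t x : ∀ k, (E (j k)).toAffine.Point) :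
    ∀ k, (E (j k)).toAffine.Point :=
  abMap E j j S x + t

end

section

variable {R : Type} [CommRing R] {ι : Type} {n e : ℕ}

/-- The matrix of `z ↦ S (M z)`. -/
def abComp (S : Fin n → Fin n → R) (M : Fin e → Fin n → R) : Fin e → Fin n → R :=
  fun c k => ∑ l, M c l * S l k

/-- The complex matrix of `M`, with entries `θ (M c k)`. -/
def cmat (θ : ι → R →+* ℂ) (j : Fin n → ι) (M : Fin e → Fin n → R) : Fin e → Fin n → ℂ :=
  fun c k => θ (j k) (M c k)

/-- The minor of a complex matrix with the rows `I 0, …, I (e-1)` (all columns). -/
def cminor (Z : Fin e → Fin n → ℂ) (I : Fin e → Fin n) : ℂ :=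
  Matrix.det (Matrix.of fun c r => Z c (I r))

/-- The minor of `(Z | w)`, with last column `w`, with the rows `L 0, …, L e`. -/
def cpminor (Z : Fin e → Fin n → ℂ) (w : Fin n → ℂ) (L : Fin (e + 1) → Fin n) : ℂ :=
  cminor (Fin.snoc (α := fun _ => Fin n → ℂ) Z w) L

/-- The function `lam` on the points of `W` is additive and `θ`-linear on the subgroup `A`. -/
structure IsCoord {K : Type} [Field K] [DecidableEq K] {W : WeierstrassCurve K}
    [Module R W.toAffine.Point] (A : AddSubgroup W.toAffine.Point) (θ : R →+* ℂ)
    (lam : W.toAffine.Point → ℂ) : Prop where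
  add : ∀ x ∈ A, ∀ y ∈ A, lam (x + y) = lam x + lam y
  smul : ∀ (r : R), ∀ x ∈ A, lam (r • x) = θ r * lam x

end

end Pool.Agent.ZC
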