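import Pool.Agent.Lib.MP_a1cc03_ag.AC.Defs
import Pool.Agent.Lib.MP_a1cc03_ag.A3_Spec
import Pool.Agent.Lib.MP_a1cc03_ag.A4_Cover
import Pool.Agent.Lib.MP_a1cc03_ag.A5_Func
import Pool.Agent.Lib.MP_a1cc03_ag.A6a_Place

/-!
# Surjectivity of homomorphisms of elliptic curves

`F = K(s)(Y)`, `Y² = D(s)`, is the function field of `W₁`, `P` the generic point and `Q` its image. The
`x`-coordinate of `Q` is `z = (p(s) + q(s) Y) / r(s)`. If it is a constant then `φ` is constant outside of a
finite set. Otherwise for all but finitely many `c` the polynomial `(c r - p)² - q² D` has a root which is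
not a root of `r D` (`values`), so `z` takes the value `c` at a point of `W₁`; so the image of `φ` contains all
but finitely many points of `W₂`.
-/

open scoped Polynomial

noncomputable section

namespace Pool.Agent.ZC

namespace Surj

variable {K : Type} [Field K]

/-- parity of the degree -/
theorem odd_sq {D p q : K[X]} (hD : Odd D.natDegree) (h : p ^ 2 = q ^ 2 * D) : q = 0 := by
  by_contra hq
  have hD0 : D ≠ 0 := by
    rintro rfl
    simp at hD
  have h1 := congrArg Polynomial.natDegree h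
  rw [Polynomial.natDegree_pow, Polynomial.natDegree_mul (pow_ne_zero 2 hq) hD0,
    Polynomial.natDegree_pow] at h1
  obtain ⟨k, hk⟩ := hD
  omega

/-- the same with a constant factor -/
theorem odd_sq' {D r q : K[X]} (hD : Odd D.natDegree) (δ : K) (h : q ^ 2 * D = Polynomial.C δ * r ^ 2) :
    q = 0 := by
  by_contra hq
  have hD0 : D ≠ 0 := by
    rintro rfl
    simp at hD
  have hne : q ^ 2 * D ≠ 0 := mul_ne_zero (pow_ne_zero 2 hq) hD0
  have hδ : Polynomial.C δ ≠ 0 := by
    intro h0
    rw [h0, zero_mul] at h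
    exact hne h
  have hr : r ^ 2 ≠ 0 := by
    intro h0
    rw [h0, mul_zero] at h
    exact hne h
  have h1 := congrArg Polynomial.natDegree h
  rw [Polynomial.natDegree_mul (pow_ne_zero 2 hq) hD0, Polynomial.natDegree_mul hδ hr,
    Polynomial.natDegree_C, Polynomial.natDegree_pow, Polynomial.natDegree_pow] at h1
  obtain ⟨k, hk⟩ := hD
  omega

/-- `(c r - p)² - q² D` -/
noncomputable def N (D p q r : K[X]) (c : K) : K[X] := (Polynomial.C c * r - p) ^ 2 - q ^ 2 * D

theorem N_eq (D p q r : K[X]) (c : K) :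
    N D p q r c = Polynomial.C (c ^ 2) * r ^ 2 - Polynomial.C (2 * c) * (r * p) + (p ^ 2 - q ^ 2 * D) := by
  unfold N
  simp only [map_mul, map_pow, map_ofNat]
  ring

/-- a bound for the degree, independent of `c` -/
theorem N_deg (D p q r : K[X]) (c : K) : (N D p q r c).natDegree ≤
    max (2 * r.natDegree) (max (r.natDegree + p.natDegree)
      (max (2 * p.natDegree) (2 * q.natDegree + D.natDegree))) := by
  rw [N_eq]
  refine (Polynomial.natDegree_add_le _ _).trans (max_le ?_ ?_)
  · refine (Polynomial.natDegree_sub_le _ _).trans (max_le ?_ ?_)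
    · refine (Polynomial.natDegree_C_mul_le _ _).trans ?_
      refine (Polynomial.natDegree_pow_le).trans ?_
      exact le_max_left _ _
    · refine (Polynomial.natDegree_C_mul_le _ _).trans ?_
      refine (Polynomial.natDegree_mul_le).trans ?_
      exact (le_max_left _ _).trans (le_max_right _ _)
  · refine (Polynomial.natDegree_sub_le _ _).trans (max_le ?_ ?_)
    · refine (Polynomial.natDegree_pow_le).trans ?_
      exact (le_max_left _ _).trans ((le_max_right _ _).trans (le_max_right _ _))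
    · refine (Polynomial.natDegree_mul_le).trans ?_
      have h1 : (q ^ 2).natDegree ≤ 2 * q.natDegree := Polynomial.natDegree_pow_le
      have h2 : 2 * q.natDegree + D.natDegree ≤ max (2 * r.natDegree) (max (r.natDegree + p.natDegree)
        (max (2 * p.natDegree) (2 * q.natDegree + D.natDegree))) :=
        (le_max_right _ _).trans ((le_max_right _ _).trans (le_max_right _ _))
      omega

/-- elimination -/
theorem lin3 {A B E M : K[X]} {c₁ c₂ c₃ l₁ l₂ l₃ : K} (h12 : c₁ ≠ c₂) (h13 : c₁ ≠ c₃) (h23 : c₂ ≠ c₃)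
    (e1 : Polynomial.C (c₁ ^ 2) * A - Polynomial.C (2 * c₁) * B + E = Polynomial.C l₁ * M)
    (e2 : Polynomial.C (c₂ ^ 2) * A - Polynomial.C (2 * c₂) * B + E = Polynomial.C l₂ * M)
    (e3 : Polynomial.C (c₃ ^ 2) * A - Polynomial.C (2 * c₃) * B + E = Polynomial.C l₃ * M) :
    ∃ α : K, A = Polynomial.C α * M := by
  have d12 : c₁ - c₂ ≠ 0 := sub_ne_zero.2 h12
  have d13 : c₁ - c₃ ≠ 0 := sub_ne_zero.2 h13
  have d23 : c₂ - c₃ ≠ 0 := sub_ne_zero.2 h23
  set T : K := (c₁ - c₂) * (c₁ - c₃) * (c₂ - c₃) with hT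
  have hT0 : T ≠ 0 := mul_ne_zero (mul_ne_zero d12 d13) d23
  refine ⟨T⁻¹ * ((c₂ - c₃) * l₁ - (c₁ - c₃) * l₂ + (c₁ - c₂) * l₃), ?_⟩
  have h : Polynomial.C T * A =
      Polynomial.C ((c₂ - c₃) * l₁ - (c₁ - c₃) * l₂ + (c₁ - c₂) * l₃) * M := by
    rw [hT]
    simp only [map_mul, map_sub, map_add, map_pow, map_ofNat] at e1 e2 e3 ⊢
    linear_combination (Polynomial.C c₂ - Polynomial.C c₃) * e1 -
      (Polynomial.C c₁ - Polynomial.C c₃) * e2 + (Polynomial.C c₁ - Polynomial.C c₂) * e3
  have hne : Polynomial.C T ≠ 0 := by rwa [Ne, Polynomial.C_eq_zero]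
  refine mul_left_cancel₀ hne ?_
  rw [h, ← mul_assoc, ← map_mul, ← mul_assoc, mul_inv_cancel₀ hT0, one_mul]

/-- elimination -/
theorem lin2 {A B E : K[X]} {c₁ c₂ l₁ l₂ : K} (h12 : c₁ ≠ c₂) (h2 : (2 : K) ≠ 0)
    (e1 : Polynomial.C (c₁ ^ 2) * A - Polynomial.C (2 * c₁) * B + E = Polynomial.C l₁ * A)
    (e2 : Polynomial.C (c₂ ^ 2) * A - Polynomial.C (2 * c₂) * B + E = Polynomial.C l₂ * A) :
    ∃ β : K, B = Polynomial.C β * A := by
  have d12 : c₁ - c₂ ≠ 0 := sub_ne_zero.2 h12
  set T : K := 2 * (c₁ - c₂) with hT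
  have hT0 : T ≠ 0 := mul_ne_zero h2 d12
  refine ⟨T⁻¹ * ((c₁ - c₂) * (c₁ + c₂) - (l₁ - l₂)), ?_⟩
  have h : Polynomial.C T * B = Polynomial.C ((c₁ - c₂) * (c₁ + c₂) - (l₁ - l₂)) * A := by
    rw [hT]
    simp only [map_mul, map_sub, map_add, map_pow, map_ofNat] at e1 e2 ⊢
    linear_combination e2 - e1
  have hne : Polynomial.C T ≠ 0 := by rwa [Ne, Polynomial.C_eq_zero]
  refine mul_left_cancel₀ hne ?_
  rw [h, ← mul_assoc, ← map_mul, ← mul_assoc, mul_inv_cancel₀ hT0, one_mul]

/-- three values of `c` for which `N` is a multiple of the same polynomial -/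
theorem three {D p q r : K[X]} (hD : Odd D.natDegree) (hr : r ≠ 0) (h2 : (2 : K) ≠ 0) {M : K[X]}
    {c₁ c₂ c₃ l₁ l₂ l₃ : K} (h12 : c₁ ≠ c₂) (h13 : c₁ ≠ c₃) (h23 : c₂ ≠ c₃)
    (e1 : N D p q r c₁ = Polynomial.C l₁ * M) (e2 : N D p q r c₂ = Polynomial.C l₂ * M)
    (e3 : N D p q r c₃ = Polynomial.C l₃ * M) :
    q = 0 ∧ ∃ γ : K, p = Polynomial.C γ * r := by
  rw [N_eq] at e1 e2 e3
  obtain ⟨α, hα⟩ := lin3 h12 h13 h23 e1 e2 e3
  have hα0 : α ≠ 0 := by
    rintro rfl
    rw [map_zero, zero_mul] at hα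
    exact pow_ne_zero 2 hr hα
  have hM : M = Polynomial.C α⁻¹ * r ^ 2 := by
    rw [hα, ← mul_assoc, ← map_mul, inv_mul_cancel₀ hα0, map_one, one_mul]
  have hM' : ∀ l : K, Polynomial.C l * M = Polynomial.C (l * α⁻¹) * r ^ 2 := by
    intro l
    rw [hM, map_mul, mul_assoc]
  rw [hM'] at e1 e2
  obtain ⟨β, hβ⟩ := lin2 h12 h2 e1 e2
  have hp : p = Polynomial.C β * r := by
    refine mul_left_cancel₀ hr ?_
    rw [hβ]
    ring
  refine ⟨?_, β, hp⟩
  apply odd_sq' (r := r) hD (c₁ ^ 2 - 2 * c₁ * β + β ^ 2 - l₁ * α⁻¹)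
  rw [hp] at e1
  simp only [map_mul, map_sub, map_add, map_pow, map_ofNat] at e1 ⊢
  linear_combination -e1

/-- the values of `(p + q Y) / r` on `Y² = D(s)`, `Y ≠ 0` -/
theorem values [IsAlgClosed K] {D p q r : K[X]} (hD : Odd D.natDegree) (hr : r ≠ 0)
    (h2 : (2 : K) ≠ 0) :
    (q = 0 ∧ ∃ γ : K, p = Polynomial.C γ * r) ∨
    {c : K | ¬ ∃ a d : K, d ≠ 0 ∧ d ^ 2 = D.eval a ∧ r.eval a ≠ 0 ∧
      p.eval a + q.eval a * d = c * r.eval a}.Finite := by
  classical
  by_contra hcon
  push Not at hcon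
  obtain ⟨hcon1, hZ⟩ := hcon
  set Z := {c : K | ¬ ∃ a d : K, d ≠ 0 ∧ d ^ 2 = D.eval a ∧ r.eval a ≠ 0 ∧
      p.eval a + q.eval a * d = c * r.eval a} with hZdef
  have hZi : Z.Infinite := by
    intro hf
    apply hZ
    convert hf using 3
    push Not
    rfl
  have hD0 : D ≠ 0 := by
    rintro rfl
    simp at hD
  have hrD : r * D ≠ 0 := mul_ne_zero hr hD0
  -- `N c ≠ 0`
  have hN0 : ∀ c, N D p q r c ≠ 0 := by
    intro c hc
    have h1 : (Polynomial.C c * r - p) ^ 2 = q ^ 2 * D := sub_eq_zero.1 hc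
    have hq := odd_sq hD h1
    rw [hq] at h1
    have h3 : Polynomial.C c * r - p = 0 := by
      have : (Polynomial.C c * r - p) ^ 2 = 0 := by rw [h1]; ring
      exact pow_eq_zero_iff (two_ne_zero) |>.1 this
    exact hcon1 hq c (sub_eq_zero.1 h3).symm
  -- the roots
  set B : Finset K := (r * D).roots.toFinset with hB
  have hroot : ∀ c ∈ Z, ∀ a : K, (N D p q r c).IsRoot a → a ∈ B := by
    intro c hc a ha
    rw [hB, Multiset.mem_toFinset, Polynomial.mem_roots hrD]
    by_contra hna
    rw [Polynomial.IsRoot.def, Polynomial.eval_mul] at hna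
    have hra : r.eval a ≠ 0 := left_ne_zero_of_mul hna
    have hDa : D.eval a ≠ 0 := right_ne_zero_of_mul hna
    obtain ⟨d, hd⟩ := IsAlgClosed.exists_pow_nat_eq (D.eval a) two_pos
    have hd0 : d ≠ 0 := by
      rintro rfl
      apply hDa
      rw [← hd]
      ring
    have h1 : (c * r.eval a - p.eval a) ^ 2 = (q.eval a * d) ^ 2 := by
      have h3 := ha
      rw [Polynomial.IsRoot.def, N, Polynomial.eval_sub, Polynomial.eval_pow, Polynomial.eval_sub,
        Polynomial.eval_mul, Polynomial.eval_C, Polynomial.eval_mul, Polynomial.eval_pow] at h3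
      rw [mul_pow, hd]
      linear_combination h3
    apply hc
    rcases sq_eq_sq_iff_eq_or_eq_neg.1 h1 with h | h
    · exact ⟨a, d, hd0, hd, hra, by linear_combination -h⟩
    · exact ⟨a, -d, neg_ne_zero.2 hd0, by rw [neg_sq, hd], hra, by linear_combination -h⟩
  set L : ℕ := max (2 * r.natDegree) (max (r.natDegree + p.natDegree)
      (max (2 * p.natDegree) (2 * q.natDegree + D.natDegree))) with hL
  have hle : ∀ c ∈ Z, (N D p q r c).roots ≤ L • B.val := by
    intro c hc
    rw [Multiset.le_iff_count]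
    intro a
    by_cases ha : a ∈ (N D p q r c).roots
    · have h1 : a ∈ B := hroot c hc a ((Polynomial.mem_roots (hN0 c)).1 ha)
      rw [Multiset.count_nsmul, Multiset.count_eq_one_of_mem B.nodup h1, mul_one]
      exact (Multiset.count_le_card _ _).trans ((Polynomial.card_roots' _).trans (N_deg D p q r c))
    · rw [Multiset.count_eq_zero_of_notMem ha]
      exact Nat.zero_le _
  have hfin : {m : Multiset K | m ≤ L • B.val}.Finite := Set.finite_Iic _
  -- an infinite fibre
  obtain ⟨m, hm⟩ : ∃ m : Multiset K, (Z ∩ {c | (N D p q r c).roots = m}).Infinite := by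
    by_contra hno
    push Not at hno
    apply hZi
    refine (hfin.biUnion (t := fun m => Z ∩ {c | (N D p q r c).roots = m}) fun m _ => ?_).subset ?_
    · exact hno m
    · intro c hc
      rw [Set.mem_iUnion₂]
      exact ⟨_, hle c hc, hc, rfl⟩
  obtain ⟨t, htsub, ht3⟩ := hm.exists_subset_card_eq 3
  obtain ⟨c₁, c₂, c₃, h12, h13, h23, rfl⟩ := Finset.card_eq_three.1 ht3
  have hrep : ∀ c ∈ ({c₁, c₂, c₃} : Finset K), N D p q r c = Polynomial.C (N D p q r c).leadingCoeff *
      (m.map fun a => Polynomial.X - Polynomial.C a).prod := by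
    intro c hc
    have h1 : (N D p q r c).roots = m := (htsub hc).2
    have h3 := (IsAlgClosed.splits (N D p q r c)).eq_prod_roots
    rw [h1] at h3
    exact h3
  obtain ⟨hq, γ, hγ⟩ := three hD hr h2 h12 h13 h23 (hrep c₁ (by simp)) (hrep c₂ (by simp))
    (hrep c₃ (by simp))
  exact hcon1 hq γ hγ


section points

open WeierstrassCurve

variable [DecidableEq K] [IsAlgClosed K] [CharZero K]

/-- the polynomial `4 x³ + b₂ x² + 2 b₄ x + b₆` -/
noncomputable def cub (W : WeierstrassCurve K) : K[X] := W.twoTorsionPolynomial.toPoly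

omit [DecidableEq K] [IsAlgClosed K] in
theorem cub_odd (W : WeierstrassCurve K) : Odd (cub W).natDegree := by
  have h : (cub W).natDegree = 3 := by
    apply Cubic.natDegree_of_a_ne_zero
    change (4 : K) ≠ 0
    norm_num
  rw [h]
  decide

omit [DecidableEq K] [IsAlgClosed K] in
theorem cub_eval (W : WeierstrassCurve K) (a : K) :
    (cub W).eval a = 4 * a ^ 3 + W.b₂ * a ^ 2 + 2 * W.b₄ * a + W.b₆ := by
  simp [cub, Cubic.toPoly, twoTorsionPolynomial]

omit [DecidableEq K] [IsAlgClosed K] in
theorem cub_aeval (W : WeierstrassCurve K) {F : Type} [Field F] [Algebra K F] (s : F) :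
    Polynomial.aeval s (cub W) = 4 * s ^ 3 + algebraMap K F W.b₂ * s ^ 2 +
      2 * algebraMap K F W.b₄ * s + algebraMap K F W.b₆ := by
  have h4 : algebraMap K F 4 = 4 := map_ofNat _ 4
  have h2 : algebraMap K F 2 = 2 := map_ofNat _ 2
  simp [cub, Cubic.toPoly, twoTorsionPolynomial, h4, h2]

omit [DecidableEq K] [IsAlgClosed K] in
theorem cub_not_square (W : WeierstrassCurve K) :
    ¬ IsSquare (algebraMap K[X] (RatFunc K) (cub W)) := by
  rintro ⟨x, hx⟩
  have h1 : algebraMap K[X] (RatFunc K) x.denom ≠ 0 := by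
    rw [Ne, map_eq_zero_iff _ (RatFunc.algebraMap_injective K)]
    exact x.denom_ne_zero
  have h2 : algebraMap K[X] (RatFunc K) (x.num ^ 2) =
      algebraMap K[X] (RatFunc K) (x.denom ^ 2 * cub W) := by
    rw [map_mul, hx, map_pow, map_pow]
    have h3 := x.num_div_denom
    have h4 : algebraMap K[X] (RatFunc K) x.num = x * algebraMap K[X] (RatFunc K) x.denom := by
      rw [eq_comm, ← eq_div_iff h1]
      exact h3.symm
    rw [h4]
    ring
  have h5 := RatFunc.algebraMap_injective K h2
  exact x.denom_ne_zero (odd_sq (cub_odd W) h5)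

/-- the `x`-coordinate -/
def xc (W : WeierstrassCurve K) : W.toAffine.Point → K
  | .zero => 0
  | .some a _ _ => a

omit [IsAlgClosed K] [CharZero K] in
theorem xc_fibre (W : WeierstrassCurve K) (a : K) : (xc W ⁻¹' {a}).Finite := by
  by_cases hex : ∃ b h, (Affine.Point.some a b h : W.toAffine.Point) ∈ xc W ⁻¹' {a}
  · obtain ⟨b, h, _⟩ := hex
    refine Set.Finite.subset (s := {0, .some a b h, -(.some a b h)}) (by simp) ?_
    intro P hP
    rcases P with _ | ⟨a', b', h'⟩
    · left
      rfl
    · have e : a' = a := hP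
      subst e
      right
      rcases Affine.Y_eq_of_X_eq h'.1 h.1 rfl with h2 | h2
      · left
        subst h2
        rfl
      · right
        rw [Set.mem_singleton_iff, Affine.Point.neg_some]
        subst h2
        rfl
  · refine Set.Finite.subset (s := {0}) (by simp) ?_
    intro P hP
    rcases P with _ | ⟨a', b', h'⟩
    · rfl
    · exfalso
      have e : a' = a := hP
      subst e
      exact hex ⟨b', h', rfl⟩

omit [IsAlgClosed K] [CharZero K] in
theorem xc_finite (W : WeierstrassCurve K) {s : Set K} (hs : s.Finite) : (xc W ⁻¹' s).Finite :=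
  hs.preimage' fun a _ => xc_fibre W a

omit [IsAlgClosed K] in
/-- the equation, after completing the square -/
theorem eqn (W : WeierstrassCurve K) {a d : K} (hd : d ^ 2 = (cub W).eval a) :
    W.toAffine.Equation a ((d - W.a₁ * a - W.a₃) / 2) := by
  rw [Affine.equation_iff]
  rw [cub_eval, b₂, b₄, b₆] at hd
  linear_combination hd / 4

omit [IsAlgClosed K] in
/-- the equation, after completing the square -/
theorem eqn' (W : WeierstrassCurve K) {a b : K} (h : W.toAffine.Equation a b) :
    (2 * b + W.a₁ * a + W.a₃) ^ 2 = (cub W).eval a := by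
  rw [Affine.equation_iff] at h
  rw [cub_eval, b₂, b₄, b₆]
  linear_combination 4 * h

theorem points_infinite (W : WeierstrassCurve K) [W.IsElliptic] : Infinite W.toAffine.Point := by
  have h : ∀ a : K, ∃ b, W.toAffine.Nonsingular a b := by
    intro a
    obtain ⟨d, hd⟩ := IsAlgClosed.exists_pow_nat_eq ((cub W).eval a) two_pos
    exact ⟨_, Affine.equation_iff_nonsingular.1 (eqn W hd)⟩
  choose b hb using h
  have hK : Infinite K := inferInstance
  refine Infinite.of_injective (fun a : K => (Affine.Point.some a (b a) (hb a) : W.toAffine.Point)) ?_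
  intro a a' haa
  exact congrArg (xc W) haa

omit [Field K] [DecidableEq K] [IsAlgClosed K] [CharZero K] in
theorem avoid {G : Type} [AddCommGroup G] [Infinite G] {B : Set G} (hB : B.Finite) (T : G) :
    ∃ T', T' ∉ B ∧ T + T' ∉ B := by
  have h1 : ((fun x => T + x) ⁻¹' B).Finite := hB.preimage (add_right_injective T).injOn
  obtain ⟨T', hT'⟩ := (hB.union h1).exists_notMem
  exact ⟨T', fun h => hT' (Or.inl h), fun h => hT' (Or.inr h)⟩

/-- the generic point -/
theorem generic (W : WeierstrassCurve K) [W.IsElliptic] :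
    ∃ (F : Type) (_ : Field F) (_ : Algebra K F) (s Y : F) (_ : DCover (cub W) F s Y)
      (P : (W.map (algebraMap K F)).toAffine.Point),
      ∀ (a b : K) (h : W.toAffine.Nonsingular a b), 2 * b + W.a₁ * a + W.a₃ ≠ 0 →
        ∃ v : Place K F, Ev v s a ∧ Ev v Y (2 * b + W.a₁ * a + W.a₃) ∧
          Specializes v W P (.some a b h) := by
  obtain ⟨F, iF, iA, s, Y, h⟩ := exists_dcover (cub W) (cub_not_square W)
  have h2 : (2 : F) ≠ 0 := by
    have : algebraMap K F 2 ≠ 0 := by
      rw [Ne, map_eq_zero_iff _ (algebraMap K F).injective]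
      exact two_ne_zero
    rwa [map_ofNat] at this
  have hrel := h.rel
  rw [cub_aeval, b₂, b₄, b₆] at hrel
  simp only [map_add, map_mul, map_pow, map_ofNat] at hrel
  have hE : (W.map (algebraMap K F)).toAffine.Equation s
      ((Y - algebraMap K F W.a₁ * s - algebraMap K F W.a₃) / 2) := by
    rw [Affine.equation_iff]
    simp only [map_a₁, map_a₂, map_a₃, map_a₄, map_a₆]
    field_simp
    linear_combination hrel
  have hN := (Affine.equation_iff_nonsingular (W := (W.map (algebraMap K F)).toAffine)).1 hE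
  refine ⟨F, iF, iA, s, Y, h, .some s _ hN, ?_⟩
  intro a b hab hd
  obtain ⟨v, hv1, hv2⟩ := exists_place h hd (eqn' W hab.1)
  have hs : Ev v s a := by
    unfold Ev
    rw [hv1]
    exact zero_lt_one
  refine ⟨v, hs, hv2, Specializes.some_some s _ hN a b hab hs ?_⟩
  have h3 : Ev v ((Y - algebraMap K F W.a₁ * s - algebraMap K F W.a₃) / algebraMap K F 2)
      (((2 * b + W.a₁ * a + W.a₃) - W.a₁ * a - W.a₃) / 2) :=
    ((hv2.sub ((Ev.const v W.a₁).mul hs)).sub (Ev.const v W.a₃)).div (Ev.const v 2) two_ne_zero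
  have h4 : ((2 * b + W.a₁ * a + W.a₃) - W.a₁ * a - W.a₃) / 2 = b := by
    field_simp
    ring
  rw [h4, map_ofNat] at h3
  exact h3

end points

end Surj

open WeierstrassCurve Surj

/-- A nonzero homomorphism of elliptic curves over an algebraically closed field is surjective. -/
theorem IsHom.surjective {K : Type} [Field K] [DecidableEq K] [IsAlgClosed K] [CharZero K]
    {W₁ W₂ : WeierstrassCurve K} [W₁.IsElliptic] [W₂.IsElliptic]
    {φ : W₁.toAffine.Point →+ W₂.toAffine.Point} (h : IsHom W₁ W₂ φ) (h0 : φ ≠ 0) :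
    Function.Surjective φ := by
  have hinf1 := points_infinite W₁
  have hinf2 := points_infinite W₂
  -- a constant map is zero
  have key : ∀ (Q₀ : W₂.toAffine.Point), (∀ (a b : K) (h : W₁.toAffine.Nonsingular a b),
      2 * b + W₁.a₁ * a + W₁.a₃ ≠ 0 → φ (.some a b h) = Q₀) → False := by
    intro Q₀ hQ₀
    apply h0
    ext P
    have hB : (xc W₁ ⁻¹' ((cub W₁).roots.toFinset ∪ {0} : Set K)).Finite :=
      xc_finite W₁ ((Finset.finite_toSet _).union (Set.finite_singleton 0))
    have hc : ∀ T : W₁.toAffine.Point, T ∉ xc W₁ ⁻¹' ((cub W₁).roots.toFinset ∪ {0} : Set K) →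
        φ T = Q₀ := by
      intro T hT
      rcases T with _ | ⟨a, b, hab⟩
      · exact absurd (Or.inr rfl) hT
      · apply hQ₀
        intro hd
        apply hT
        left
        have hD0 : cub W₁ ≠ 0 := by
          intro h3
          have h4 := cub_odd W₁
          rw [h3] at h4
          simp at h4
        have h5 := eqn' W₁ hab.1
        rw [hd] at h5
        rw [Finset.mem_coe, Multiset.mem_toFinset, Polynomial.mem_roots hD0, Polynomial.IsRoot.def]
        change (cub W₁).eval a = 0
        rw [← h5]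
        ring
    obtain ⟨T, hT1, hT2⟩ := avoid hB P
    have h6 : φ P = φ (P + T) - φ T := by rw [map_add]; abel
    rw [h6, hc _ hT1, hc _ hT2, sub_self]
    rfl
  obtain ⟨F, _, _, s, Y, hF, P, hP⟩ := generic W₁
  obtain ⟨Q, hQ⟩ := h F hF.isFunctionField P
  rcases Q with _ | ⟨z, w, hzw⟩
  · exfalso
    apply key 0
    intro a b hab hd
    obtain ⟨v, -, -, hv⟩ := hP a b hab hd
    have h1 := hQ v _ hv
    exact h1.unique Specializes.zero_zero
  · obtain ⟨p, q, r, hr, hz⟩ := hF.gen z
    have hrs : Polynomial.aeval s r ≠ 0 := by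
      intro h1
      exact hr (hF.indep r 0 (by rw [h1, map_zero, zero_mul, add_zero])).1
    rcases values (p := p) (q := q) (cub_odd W₁) hr two_ne_zero with ⟨hq, γ, hγ⟩ | hfin
    · -- the image is a constant
      exfalso
      have hzγ : z = algebraMap K F γ := by
        rw [hq, hγ, map_zero, zero_mul, add_zero, map_mul, Polynomial.aeval_C] at hz
        exact mul_right_cancel₀ hrs hz
      obtain ⟨d, hd⟩ := IsAlgClosed.exists_pow_nat_eq ((cub W₂).eval γ) two_pos
      have hw : (2 * w + algebraMap K F W₂.a₁ * z + algebraMap K F W₂.a₃) ^ 2 =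
          (algebraMap K F d) ^ 2 := by
        have h3 := (Affine.equation_iff _ _).1 hzw.1
        simp only [map_a₁, map_a₂, map_a₃, map_a₄, map_a₆] at h3
        rw [← map_pow, hd, cub_eval, b₂, b₄, b₆]
        simp only [map_add, map_mul, map_pow, map_ofNat]
        rw [hzγ] at h3 ⊢
        linear_combination 4 * h3
      have h2F : (2 : F) ≠ 0 := by
        have : algebraMap K F 2 ≠ 0 := by
          rw [Ne, map_eq_zero_iff _ (algebraMap K F).injective]
          exact two_ne_zero
        rwa [map_ofNat] at this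
      obtain ⟨d', hd', hd'2⟩ : ∃ d' : K, 2 * w + algebraMap K F W₂.a₁ * z + algebraMap K F W₂.a₃ =
          algebraMap K F d' ∧ d' ^ 2 = (cub W₂).eval γ := by
        rcases sq_eq_sq_iff_eq_or_eq_neg.1 hw with h3 | h3
        · exact ⟨d, h3, hd⟩
        · exact ⟨-d, by rw [map_neg]; exact h3, by rw [neg_sq, hd]⟩
      have hN : W₂.toAffine.Nonsingular γ ((d' - W₂.a₁ * γ - W₂.a₃) / 2) :=
        Affine.equation_iff_nonsingular.1 (eqn W₂ hd'2)
      apply key (.some _ _ hN)
      intro a b hab hd
      obtain ⟨v, -, -, hv⟩ := hP a b hab hd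
      have h1 := hQ v _ hv
      refine h1.unique (Specializes.some_some z w hzw _ _ hN ?_ ?_)
      · rw [hzγ]
        exact Ev.const v γ
      · have hww : w = algebraMap K F ((d' - W₂.a₁ * γ - W₂.a₃) / 2) := by
          rw [map_div₀, map_sub, map_sub, map_mul, map_ofNat, ← hd', hzγ]
          field_simp
          ring
        rw [hww]
        exact Ev.const v _
    · -- the image contains all but finitely many points
      set Z : Set K := {c : K | ¬ ∃ a d : K, d ≠ 0 ∧ d ^ 2 = (cub W₁).eval a ∧ r.eval a ≠ 0 ∧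
        p.eval a + q.eval a * d = c * r.eval a} with hZ
      have hB : (xc W₂ ⁻¹' (Z ∪ {0})).Finite := xc_finite W₂ (hfin.union (Set.finite_singleton 0))
      have hmem : ∀ T : W₂.toAffine.Point, T ∉ xc W₂ ⁻¹' (Z ∪ {0}) → T ∈ φ.range := by
        intro T hT
        rcases T with _ | ⟨c, b', hcb⟩
        · exact absurd (Or.inr rfl) hT
        · have hc : c ∉ Z := fun h3 => hT (Or.inl h3)
          rw [hZ, Set.mem_ofPred_eq, not_not] at hc
          obtain ⟨a, d, hd0, hda, hra, hcr⟩ := hc
          have hN : W₁.toAffine.Nonsingular a ((d - W₁.a₁ * a - W₁.a₃) / 2) :=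
            Affine.equation_iff_nonsingular.1 (eqn W₁ hda)
          have hdd : 2 * ((d - W₁.a₁ * a - W₁.a₃) / 2) + W₁.a₁ * a + W₁.a₃ = d := by
            field_simp
            ring
          obtain ⟨v, hv1, hv2, hv3⟩ := hP a _ hN (by rw [hdd]; exact hd0)
          rw [hdd] at hv2
          have h1 := hQ v _ hv3
          have hzc : Ev v z c := by
            have h4 : z = (Polynomial.aeval s p + Polynomial.aeval s q * Y) / Polynomial.aeval s r := by
              rw [eq_div_iff hrs, hz]
            have h5 : c = (p.eval a + q.eval a * d) / r.eval a := by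
              rw [eq_div_iff hra, hcr]
            rw [h4, h5]
            exact ((A6a_ev_aeval hv1 p).add ((A6a_ev_aeval hv1 q).mul hv2)).div
              (A6a_ev_aeval hv1 r) hra
          generalize hTT : φ (.some a _ hN) = T' at h1
          cases h1 with
          | some_zero _ _ _ hlt =>
            exact absurd hzc.nonneg (not_le.2 hlt)
          | some_some _ _ _ c' b'' hc' h6 h7 =>
            have h8 : c' = c := Ev.unique (show Ev v z c' from h6) hzc
            subst h8
            rcases Affine.Y_eq_of_X_eq hcb.1 hc'.1 rfl with h9 | h9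
            · subst h9
              exact ⟨_, hTT⟩
            · refine ⟨-(.some a _ hN), ?_⟩
              rw [map_neg, hTT, Affine.Point.neg_some]
              subst h9
              rfl
      intro T
      obtain ⟨T', hT1, hT2⟩ := avoid hB T
      have h6 : T = (T + T') - T' := by abel
      have h7 : T ∈ φ.range := by
        rw [h6]
        exact φ.range.sub_mem (hmem _ hT2) (hmem _ hT1)
      exact h7

end Pool.Agent.ZC
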