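import Pool.Agent.Lib.MP_a1cc03_ag.AC.QMain
import Pool.Agent.Lib.MP_a1cc03_ag.AC.Surj
import Pool.Agent.Lib.MP_a1cc03_ag.QH.Quot

/-! # The final theorem -/

noncomputable section

namespace Pool.Agent.ZC.AC

open WeierstrassCurve ComplexConjugate

theorem endRing_surjective {K : Type} [Field K] [DecidableEq K] [IsAlgClosed K] [CharZero K]
    {W : WeierstrassCurve K} [W.IsElliptic] {R : Type} [CommRing R] [Module R W.toAffine.Point]
    {θ : R →+* ℂ} (h : IsEndRing W θ) (hW : ∃ u : ℕ → W.toAffine.Point, LinearIndependent ℤ u)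
    (r : R) (hr : θ r ≠ 0) : Function.Surjective (fun P : W.toAffine.Point => r • P) := by
  refine (h.hom r).surjective ?_
  intro h0
  obtain ⟨u, hu⟩ := hW
  obtain ⟨t, d, ht, hd⟩ := h.quadratic r
  have hd0 : d ≠ 0 := by
    rintro rfl
    rw [Int.cast_zero, mul_eq_zero] at hd
    rcases hd with hd | hd
    · exact hr hd
    · exact hr ((map_eq_zero _).1 hd)
  -- `r (t - r) = d` acts as zero
  have h1 : θ (r * (t - r) - d) = 0 := by
    have h2 : conj (θ r) = t - θ r := by rw [← ht]; ring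
    rw [map_sub, map_mul, map_sub, map_intCast, map_intCast, ← h2, hd, sub_self]
  have h3 := h.faithful _ h1 (u 0)
  have h4 : r • (((t : R) - r) • u 0) = 0 := DFunLike.congr_fun h0 _
  rw [sub_smul, mul_smul, h4, zero_sub, neg_eq_zero, Int.cast_smul_eq_zsmul] at h3
  refine hd0 (linearIndependent_iff'.1 hu {0} (fun _ => d) ?_ 0 (Finset.mem_singleton_self 0))
  rw [Finset.sum_singleton]
  exact h3

/-- The final theorem for families with `p`-integral `j`-invariants. -/
theorem main_final [DecidableEq (AlgebraicClosure ℚ)] {p : ℕ} (hp : p.Prime) (hp2 : p ≠ 2)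
    {ι : Type} [DecidableEq ι] (E : ι → WeierstrassCurve (AlgebraicClosure ℚ))
    [∀ i, (E i).IsElliptic] (hj : ∀ i, PIntegral p (E i).j) (i₀ : ι) (P : (E i₀).toAffine.Point) :
    ∃ A : ∀ i, AddSubgroup (E i).toAffine.Point,
      P ∈ A i₀ ∧ (∀ i, ∃ u : ℕ → A i, LinearIndependent ℤ u) ∧
      (∀ i (a : (E i).toAffine.Point) (m : ℕ), 0 < m → m • a ∈ A i → a ∈ A i) ∧
      (∀ i i' (φ : (E i).toAffine.Point →+ (E i').toAffine.Point), IsHom (E i) (E i') φ →
        ∀ a ∈ A i, φ a ∈ A i') ∧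
      ∀ (R : Type) [CommRing R] [∀ i, Module R (E i).toAffine.Point] (θ : ι → R →+* ℂ),
        (∀ i, IsEndRing (E i) (θ i)) →
      ∀ (n : ℕ) (j : Fin n → ι) (G : Type) [Group G] [Fintype G]
        [MulAction G (∀ k, (E (j k)).toAffine.Point)]
        (S : G → Fin n → Fin n → R) (t : G → ∀ k, (E (j k)).toAffine.Point),
        (∀ g l k, j l ≠ j k → S g l k = 0) →
        (∀ (g : G) (x : ∀ k, (E (j k)).toAffine.Point), g • x = abAff E j (S g) (t g) x) →
        ∀ b : ∀ k, (E (j k)).toAffine.Point, (∀ (g : G) k, (g • b) k - b k ∈ A (j k)) →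
        ∀ (e : ℕ), 1 ≤ e → ∀ (m : ℕ) (κ : Fin m → Fin e → ι) (c : Fin m → ℤ)
          (M : Fin m → Fin e → Fin n → R) (a : Fin m → ∀ k, (E (j k)).toAffine.Point),
          (∀ s d k, κ s d ≠ j k → M s d k = 0) → (∀ s k, a s k - b k ∈ A (j k)) →
          (∀ I J : Fin e → Fin n, ∑ g, ∑ s,
            (c s : ℂ) * cminor (cmat θ j (abComp (S g) (M s))) I
              * conj (cminor (cmat θ j (abComp (S g) (M s))) J) = 0) →
          (∀ lam : ∀ i, (E i).toAffine.Point → ℂ, (∀ i, IsCoord (A i) (θ i) (lam i)) →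
            ∀ (J : Fin e → Fin n) (L : Fin (e + 1) → Fin n), ∑ g, ∑ s,
              (c s : ℂ) * conj (cminor (cmat θ j (abComp (S g) (M s))) J) *
                cpminor (cmat θ j (abComp (S g) (M s)))
                  (fun k => lam (j k) ((g • a s) k - b k)) L = 0) →
          ∃ N : ℕ, 0 < N ∧ N • ∑ s, c s • abCycle E j (κ s) (M s) (a s) ∈
            (⨆ κ : Fin e → ι, RatAb R E j κ) ⊔ OrbitRel E j G := by
  obtain ⟨A, hP, hrk, hdiv, hcl, hprod⟩ := main_product_hom hp hp2 E hj i₀ P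
  refine ⟨A, hP, hrk, hdiv, hcl, fun R _ _ θ hE n j G _ _ _ S t hS hG b hb e _ m κ c M a hM ha
    h1 h2 => ?_⟩
  have hA : ∀ i (r : R), ∀ x ∈ A i, r • x ∈ A i := fun i r x hx => hcl i i _ ((hE i).hom r) x hx
  have hs : ∀ i (r : R), θ i r ≠ 0 → Function.Surjective (fun P : (E i).toAffine.Point => r • P) := by
    intro i r hr
    obtain ⟨u, hu⟩ := hrk i
    refine endRing_surjective (hE i) ⟨fun m => u m, ?_⟩ r hr
    exact hu.map' (A i).subtype.toIntLinearMap
      (LinearMap.ker_eq_bot.2 Subtype.val_injective)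
  exact main_quotient E j θ hE hs A hA b (hprod n j b) S t hS hG hb κ c M a hM ha h1 h2

end Pool.Agent.ZC.AC
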