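import Pool.Agent.Lib.MP_a1cc03_ag.AC.Defs

/-! # The doubly alternating sum in coordinates, complex version -/

namespace Pool.Agent.ZC.AC

open Equiv ComplexConjugate

variable {R : Type} [CommRing R] {U : Type*} [AddCommGroup U] [Module ℂ U]
  {ι C C' : Type*} [Fintype C] [Fintype C'] [DecidableEq C] [DecidableEq C'] [DecidableEq ι] {n : ℕ}

omit [Fintype C] [Module ℂ U] in
/-- The multilinear map of a multiadditive function. -/
theorem exists_multilinear (F : (C → Fin n → R) → U)
    (h : ∀ (p : C → Fin n → R) (c : C) (x y : Fin n → R),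
      F (Function.update p c (x + y)) = F (Function.update p c x) + F (Function.update p c y)) :
    ∃ G : MultilinearMap ℤ (fun _ : C => Fin n → R) U, ∀ p, G p = F p := by
  have h0 : ∀ (inst : DecidableEq C) (m : C → Fin n → R) (i : C) (x y : Fin n → R),
      F (@Function.update C (fun _ => Fin n → R) inst m i (x + y))
        = F (@Function.update C (fun _ => Fin n → R) inst m i x)
          + F (@Function.update C (fun _ => Fin n → R) inst m i y) := by
    have hi : ∃ i0 : DecidableEq C, ∀ (m : C → Fin n → R) (i : C) (x y : Fin n → R),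
      F (@Function.update C (fun _ => Fin n → R) i0 m i (x + y))
        = F (@Function.update C (fun _ => Fin n → R) i0 m i x)
          + F (@Function.update C (fun _ => Fin n → R) i0 m i y) := ⟨inferInstance, h⟩
    obtain ⟨i0, hi0⟩ := hi
    intro inst m i x y
    rw [Subsingleton.elim inst i0]
    exact hi0 m i x y
  refine ⟨{ toFun := F, map_update_add' := fun {inst} m i x y => h0 inst m i x y,
            map_update_smul' := fun {inst} m i c x => ?_ }, fun _ => rfl⟩
  exact (AddMonoidHom.mk' (fun x => F (@Function.update C (fun _ => Fin n → R) inst m i x))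
    (h0 inst m i)).map_zsmul c x

omit [DecidableEq C] in
theorem char_prod {V : Type*} [AddCommGroup V] [Module R V] (F : (C → V) → U) (χ : C → R → ℂ)
    (h : ∀ (inst : DecidableEq C) (p : C → V) (c : C) (r : R) (x : V),
      F (@Function.update C (fun _ => V) inst p c (r • x)) =
        χ c r • F (@Function.update C (fun _ => V) inst p c x))
    (r : C → R) (x : C → V) :
    F (fun c => r c • x c) = (∏ c, χ c (r c)) • F x := by
  classical
  have key : ∀ S : Finset C, F (fun c => if c ∈ S then r c • x c else x c) =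
      (∏ c ∈ S, χ c (r c)) • F x := by
    intro S
    induction S using Finset.induction_on with
    | empty => simp
    | insert c S hc ih =>
      have e1 : (fun b => if b ∈ insert c S then r b • x b else x b) =
          Function.update (fun b => if b ∈ S then r b • x b else x b) c (r c • x c) := by
        funext b
        by_cases hb : b = c
        · subst hb
          rw [Function.update_self, if_pos (Finset.mem_insert_self b S)]
        · rw [Function.update_of_ne hb]
          by_cases hb' : b ∈ S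
          · rw [if_pos hb', if_pos (Finset.mem_insert_of_mem hb')]
          · rw [if_neg hb', if_neg (fun h => hb' (Finset.mem_of_mem_insert_of_ne h hb))]
      have e2 : Function.update (fun b => if b ∈ S then r b • x b else x b) c (x c) =
          fun b => if b ∈ S then r b • x b else x b := by
        funext b
        by_cases hb : b = c
        · subst hb
          rw [Function.update_self, if_neg hc]
        · rw [Function.update_of_ne hb]
      rw [e1, h, e2, ih, Finset.prod_insert hc, mul_smul]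
  have h1 := key Finset.univ
  simp only [Finset.mem_univ, if_true] at h1
  exact h1

/-- Expansion of a function which is additive and homogeneous in every slot. -/
theorem expand_one (F : (C → Fin n → R) → U) (χ : C → R → ℂ)
    (h : ∀ (p : C → Fin n → R) (c : C) (x y : Fin n → R),
      F (Function.update p c (x + y)) = F (Function.update p c x) + F (Function.update p c y))
    (hχ : ∀ (p : C → Fin n → R) (c : C) (r : R) (x : Fin n → R),
      F (Function.update p c (r • x)) = χ c r • F (Function.update p c x))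
    (p : C → Fin n → R) :
    F p = ∑ L : C → Fin n, (∏ c, χ c (p c (L c))) • F (fun c => Pi.single (L c) 1) := by
  have h1 : p = fun c => ∑ k : Fin n, p c k • (Pi.single k 1 : Fin n → R) := by
    funext c j
    rw [Finset.sum_apply, Finset.sum_eq_single j]
    · simp
    · intro b _ hb
      simp [hb.symm]
    · intro hj
      exact absurd (Finset.mem_univ j) hj
  obtain ⟨G, hG⟩ := exists_multilinear F h
  have h2 := G.map_sum (fun (c : C) (k : Fin n) => p c k • (Pi.single k 1 : Fin n → R))
  have h3 : F p = ∑ L : C → Fin n,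
      F (fun c => p c (L c) • (Pi.single (L c) 1 : Fin n → R)) := by
    conv_lhs => rw [h1]
    rw [← hG, h2]
    exact Finset.sum_congr rfl fun L _ => hG _
  rw [h3]
  refine Finset.sum_congr rfl fun L _ => ?_
  refine char_prod F χ ?_ (fun c => p c (L c)) (fun c => Pi.single (L c) 1)
  have hi : ∃ i0 : DecidableEq C, ∀ (p : C → Fin n → R) (c : C) (r : R) (x : Fin n → R),
      F (@Function.update C (fun _ => Fin n → R) i0 p c (r • x)) =
        χ c r • F (@Function.update C (fun _ => Fin n → R) i0 p c x) := ⟨inferInstance, hχ⟩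
  obtain ⟨i0, hi0⟩ := hi
  intro inst p c r x
  rw [Subsingleton.elim inst i0]
  exact hi0 p c r x

theorem expand_two (F : (C' → Fin n → R) → (C → Fin n → R) → U) (χ : C' → R → ℂ) (ψ : C → R → ℂ)
    (h : ∀ (p : C' → Fin n → R) (q : C → Fin n → R) (c : C') (x y : Fin n → R),
      F (Function.update p c (x + y)) q = F (Function.update p c x) q + F (Function.update p c y) q)
    (h' : ∀ (p : C' → Fin n → R) (q : C → Fin n → R) (c : C) (x y : Fin n → R),
      F p (Function.update q c (x + y)) = F p (Function.update q c x) + F p (Function.update q c y))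
    (hχ : ∀ (p : C' → Fin n → R) (q : C → Fin n → R) (c : C') (r : R) (x : Fin n → R),
      F (Function.update p c (r • x)) q = χ c r • F (Function.update p c x) q)
    (hψ : ∀ (p : C' → Fin n → R) (q : C → Fin n → R) (c : C) (r : R) (x : Fin n → R),
      F p (Function.update q c (r • x)) = ψ c r • F p (Function.update q c x))
    (p : C' → Fin n → R) (q : C → Fin n → R) :
    F p q = ∑ L : C' → Fin n, ∑ J : C → Fin n,
      ((∏ c, χ c (p c (L c))) * ∏ c, ψ c (q c (J c))) •
      F (fun c => Pi.single (L c) 1) (fun c => Pi.single (J c) 1) := by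
  rw [expand_one (fun p => F p q) χ (fun p c x y => h p q c x y) (fun p c r x => hχ p q c r x) p]
  refine Finset.sum_congr rfl fun L _ => ?_
  rw [expand_one (fun q => F (fun c => Pi.single (L c) 1) q) ψ
    (fun q c x y => h' (fun c => Pi.single (L c) 1) q c x y)
    (fun q c r x => hψ (fun c => Pi.single (L c) 1) q c r x) q, Finset.smul_sum]
  refine Finset.sum_congr rfl fun J _ => ?_
  rw [mul_smul]

theorem det_class (j : Fin n → ι) (κ : C → ι) (u : C → Fin n → ℂ) (hu : ∀ c k, κ c ≠ j k → u c k = 0)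
    (L : C → Fin n) :
    (∑ τ : Perm C with ∀ c, κ (τ c) = κ c, (((Perm.sign τ : ℤˣ) : ℤ) : ℂ) * ∏ c, u (τ c) (L c))
      = if ∀ c, j (L c) = κ c then Matrix.det (Matrix.of fun c r => u c (L r)) else 0 := by
  classical
  split_ifs with hL
  · rw [Matrix.det_apply']
    rw [Finset.sum_filter]
    refine Finset.sum_congr rfl fun τ _ => ?_
    simp only [Matrix.of_apply]
    split_ifs with h
    · rfl
    · push Not at h
      obtain ⟨c, hc⟩ := h
      rw [Finset.prod_eq_zero (Finset.mem_univ c), mul_zero]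
      exact hu _ _ (by rw [hL c]; exact hc)
  · refine Finset.sum_eq_zero fun τ hτ => ?_
    push Not at hL
    obtain ⟨c, hc⟩ := hL
    rw [Finset.prod_eq_zero (Finset.mem_univ c), mul_zero]
    refine hu _ _ ?_
    rw [(Finset.mem_filter.1 hτ).2 c]
    exact fun h => hc h.symm

omit [Fintype C] [DecidableEq C] [DecidableEq ι] in
/-- the characters at a permuted matrix -/
theorem char_perm (θ : ι → R →+* ℂ) (j : Fin n → ι) (κ : C → ι) (u : C → Fin n → R)
    (hu : ∀ c k, κ c ≠ j k → u c k = 0) (τ : Perm C) (hτ : ∀ c, κ (τ c) = κ c) (c : C) (k : Fin n) :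
    θ (κ c) (u (τ c) k) = θ (j k) (u (τ c) k) := by
  by_cases h : κ (τ c) = j k
  · rw [← h, hτ]
  · rw [hu _ _ h, map_zero, map_zero]

theorem double_sum_coord (inc : C → C') (θ : ι → R →+* ℂ) (j : Fin n → ι) (κ : C' → ι)
    (F : (C' → Fin n → R) → (C → Fin n → R) → U)
    (h : ∀ (p : C' → Fin n → R) (q : C → Fin n → R) (c : C') (x y : Fin n → R),
      F (Function.update p c (x + y)) q = F (Function.update p c x) q + F (Function.update p c y) q)
    (h' : ∀ (p : C' → Fin n → R) (q : C → Fin n → R) (c : C) (x y : Fin n → R),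
      F p (Function.update q c (x + y)) = F p (Function.update q c x) + F p (Function.update q c y))
    (hχ : ∀ (p : C' → Fin n → R) (q : C → Fin n → R) (c : C') (r : R) (x : Fin n → R),
      F (Function.update p c (r • x)) q = θ (κ c) r • F (Function.update p c x) q)
    (hψ : ∀ (p : C' → Fin n → R) (q : C → Fin n → R) (c : C) (r : R) (x : Fin n → R),
      F p (Function.update q c (r • x)) = conj (θ (κ (inc c)) r) • F p (Function.update q c x))
    (u : C' → Fin n → R) (hu : ∀ c k, κ c ≠ j k → u c k = 0) :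
    ∑ τ : Perm C' with ∀ c, κ (τ c) = κ c, ∑ σ : Perm C with ∀ c, κ (inc (σ c)) = κ (inc c),
        (((Perm.sign τ : ℤˣ) : ℤ) * ((Perm.sign σ : ℤˣ) : ℤ)) • F (u ∘ τ) (u ∘ inc ∘ σ)
      = ∑ L : C' → Fin n, ∑ J : C → Fin n,
          (Matrix.det (Matrix.of fun c r => θ (j (L r)) (u c (L r))) *
            conj (Matrix.det (Matrix.of fun c r => θ (j (J r)) (u (inc c) (J r))))) •
          (if (∀ c, j (L c) = κ c) ∧ (∀ c, j (J c) = κ (inc c)) then
            F (fun c => Pi.single (L c) 1) (fun c => Pi.single (J c) 1) else 0) := by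
  classical
  have e1 : ∀ (τ : Perm C') (σ : Perm C), (∀ c, κ (τ c) = κ c) →
      (∀ c, κ (inc (σ c)) = κ (inc c)) →
      (((Perm.sign τ : ℤˣ) : ℤ) * ((Perm.sign σ : ℤˣ) : ℤ)) • F (u ∘ τ) (u ∘ inc ∘ σ)
      = ∑ L : C' → Fin n, ∑ J : C → Fin n,
        (((((Perm.sign τ : ℤˣ) : ℤ) : ℂ) * ∏ c, θ (j (L c)) (u (τ c) (L c))) *
          ((((Perm.sign σ : ℤˣ) : ℤ) : ℂ) * ∏ c, conj (θ (j (J c)) (u (inc (σ c)) (J c))))) •
          F (fun c => Pi.single (L c) 1) (fun c => Pi.single (J c) 1) := by
    intro τ σ hτ hσ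
    rw [expand_two F (fun c => θ (κ c)) (fun c r => conj (θ (κ (inc c)) r)) h h' hχ hψ,
      Finset.smul_sum]
    refine Finset.sum_congr rfl fun L _ => ?_
    rw [Finset.smul_sum]
    refine Finset.sum_congr rfl fun J _ => ?_
    rw [← Int.cast_smul_eq_zsmul ℂ, smul_smul]
    congr 1
    have f1 : (∏ c, θ (κ c) ((u ∘ τ) c (L c))) = ∏ c, θ (j (L c)) (u (τ c) (L c)) :=
      Finset.prod_congr rfl fun c _ => char_perm θ j κ u hu τ hτ c (L c)
    have f2 : (∏ c, conj (θ (κ (inc c)) ((u ∘ inc ∘ σ) c (J c)))) =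
        ∏ c, conj (θ (j (J c)) (u (inc (σ c)) (J c))) :=
      Finset.prod_congr rfl fun c _ => congrArg _
        (char_perm θ j (κ ∘ inc) (u ∘ inc) (fun c k hk => hu _ _ hk) σ hσ c (J c))
    rw [f1, f2]
    push_cast
    ring
  have e2 : ∑ τ : Perm C' with ∀ c, κ (τ c) = κ c, ∑ σ : Perm C with ∀ c, κ (inc (σ c)) = κ (inc c),
        (((Perm.sign τ : ℤˣ) : ℤ) * ((Perm.sign σ : ℤˣ) : ℤ)) • F (u ∘ τ) (u ∘ inc ∘ σ)
      = ∑ τ : Perm C' with ∀ c, κ (τ c) = κ c, ∑ σ : Perm C with ∀ c, κ (inc (σ c)) = κ (inc c),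
        ∑ L : C' → Fin n, ∑ J : C → Fin n,
        (((((Perm.sign τ : ℤˣ) : ℤ) : ℂ) * ∏ c, θ (j (L c)) (u (τ c) (L c))) *
          ((((Perm.sign σ : ℤˣ) : ℤ) : ℂ) * ∏ c, conj (θ (j (J c)) (u (inc (σ c)) (J c))))) •
          F (fun c => Pi.single (L c) 1) (fun c => Pi.single (J c) 1) :=
    Finset.sum_congr rfl fun τ hτ => Finset.sum_congr rfl fun σ hσ =>
      e1 τ σ (Finset.mem_filter.1 hτ).2 (Finset.mem_filter.1 hσ).2
  rw [e2]
  have e3 : ∀ τ : Perm C', ∑ σ : Perm C with ∀ c, κ (inc (σ c)) = κ (inc c),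
        ∑ L : C' → Fin n, ∑ J : C → Fin n,
        (((((Perm.sign τ : ℤˣ) : ℤ) : ℂ) * ∏ c, θ (j (L c)) (u (τ c) (L c))) *
          ((((Perm.sign σ : ℤˣ) : ℤ) : ℂ) * ∏ c, conj (θ (j (J c)) (u (inc (σ c)) (J c))))) •
          F (fun c => Pi.single (L c) 1) (fun c => Pi.single (J c) 1)
      = ∑ L : C' → Fin n, ∑ J : C → Fin n,
        (((((Perm.sign τ : ℤˣ) : ℤ) : ℂ) * ∏ c, θ (j (L c)) (u (τ c) (L c))) *
          (∑ σ : Perm C with ∀ c, κ (inc (σ c)) = κ (inc c),
            (((Perm.sign σ : ℤˣ) : ℤ) : ℂ) * ∏ c, conj (θ (j (J c)) (u (inc (σ c)) (J c))))) •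
          F (fun c => Pi.single (L c) 1) (fun c => Pi.single (J c) 1) := by
    intro τ
    rw [Finset.sum_comm]
    refine Finset.sum_congr rfl fun L _ => ?_
    rw [Finset.sum_comm]
    refine Finset.sum_congr rfl fun J _ => ?_
    rw [Finset.mul_sum, Finset.sum_smul]
  rw [Finset.sum_congr rfl fun τ _ => e3 τ, Finset.sum_comm]
  refine Finset.sum_congr rfl fun L _ => ?_
  rw [Finset.sum_comm]
  refine Finset.sum_congr rfl fun J _ => ?_
  rw [← Finset.sum_smul, ← Finset.sum_mul]
  have z1 : ∀ c k, κ c ≠ j k → θ (j k) (u c k) = 0 := fun c k hk => by rw [hu c k hk, map_zero]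
  have d1 := det_class j κ (fun c k => θ (j k) (u c k)) z1 L
  have d2 := det_class j (fun c => κ (inc c)) (fun c k => conj (θ (j k) (u (inc c) k)))
    (fun c k hk => by rw [z1 _ _ hk, map_zero]) J
  have d3 : Matrix.det (Matrix.of fun c r => conj (θ (j (J r)) (u (inc c) (J r)))) =
      conj (Matrix.det (Matrix.of fun c r => θ (j (J r)) (u (inc c) (J r)))) := by
    rw [RingHom.map_det]
    rfl
  rw [d1, d2, d3]
  by_cases hL : ∀ c, j (L c) = κ c
  · by_cases hJ : ∀ c, j (J c) = κ (inc c)
    · rw [if_pos hL, if_pos hJ, if_pos ⟨hL, hJ⟩]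
    · rw [if_neg hJ, if_neg (show ¬ ((∀ c, j (L c) = κ c) ∧ (∀ c, j (J c) = κ (inc c))) from
        fun hh => hJ hh.2), mul_zero, zero_smul, smul_zero]
  · rw [if_neg hL, if_neg (show ¬ ((∀ c, j (L c) = κ c) ∧ (∀ c, j (J c) = κ (inc c))) from
      fun hh => hL hh.1), zero_mul, zero_smul, smul_zero]

end Pool.Agent.ZC.AC
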