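import Pool.Agent.Lib.MP_a1cc03_ag.AC.L1

/-! # Row L8: composition with an isogeny of one factor -/

noncomputable section

namespace Pool.Agent.ZC.AC

open WeierstrassCurve

theorem l8_card {G H : Type*} [AddCommGroup G] [AddCommGroup H] (φ : G →+ H)
    (hφ : Function.Surjective φ) (K : AddSubgroup H) :
    Nat.card (K.comap φ) = Nat.card φ.ker * Nat.card K := by
  obtain ⟨s, hs⟩ := hφ.hasRightInverse
  rw [← Nat.card_prod]
  refine Nat.card_congr
    { toFun := fun x => (⟨(x : G) - s (φ x), ?_⟩, ⟨φ x, x.2⟩)
      invFun := fun y => ⟨(y.1 : G) + s y.2, ?_⟩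
      left_inv := ?_
      right_inv := ?_ }
  · rw [AddMonoidHom.mem_ker, map_sub, hs, sub_self]
  · rw [AddSubgroup.mem_comap, map_add, hs, AddMonoidHom.mem_ker.1 y.1.2, zero_add]
    exact y.2.2
  · intro x
    apply Subtype.ext
    simp
  · rintro ⟨⟨x, hx⟩, ⟨y, hy⟩⟩
    have h1 : φ (x + s y) = y := by rw [map_add, hs, AddMonoidHom.mem_ker.1 hx, zero_add]
    simp only [h1, add_sub_cancel_right]

variable {R : Type} [CommRing R] {K : Type} [Field K] [DecidableEq K] {ι : Type} [DecidableEq ι]
  (E : ι → WeierstrassCurve K) [∀ i, Module R (E i).toAffine.Point] {n e : ℕ} (j : Fin n → ι)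
  (κ : Fin e → ι)

theorem l8_single (i : ι) (r : R) (x : (E i).toAffine.Point) (i' : ι) :
    (Pi.single i (r • x) : ∀ i, (E i).toAffine.Point) i'
      = r • (Pi.single i x : ∀ i, (E i).toAffine.Point) i' := by
  by_cases h : i' = i
  · subst h
    rw [Pi.single_eq_same, Pi.single_eq_same]
  · rw [Pi.single_eq_of_ne h, Pi.single_eq_of_ne h, smul_zero]

/-- `z_c ↦ r z_c` -/
def l8map (c : Fin e) (r : R) :
    (∀ c, (E (κ c)).toAffine.Point) →+ (∀ c, (E (κ c)).toAffine.Point) where
  toFun z := Function.update z c (r • z c)
  map_zero' := by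
    rw [Pi.zero_apply, smul_zero]
    exact Function.update_eq_self c 0
  map_add' z w := by
    funext d
    by_cases hd : d = c
    · subst hd
      rw [Pi.add_apply, Pi.add_apply, Function.update_self, Function.update_self,
        Function.update_self, smul_add]
    · rw [Function.update_of_ne hd, Pi.add_apply, Pi.add_apply, Function.update_of_ne hd,
        Function.update_of_ne hd]

omit [DecidableEq ι] in
theorem l8map_surjective (c : Fin e) (r : R)
    (hr : Function.Surjective (fun P : (E (κ c)).toAffine.Point => r • P)) :
    Function.Surjective (l8map E κ c r) := by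
  intro z
  obtain ⟨x, hx⟩ := hr (z c)
  refine ⟨Function.update z c x, ?_⟩
  change Function.update (Function.update z c x) c (r • (Function.update z c x) c) = z
  rw [Function.update_self, Function.update_idem]
  change r • x = z c at hx
  rw [hx, Function.update_eq_self]

omit [DecidableEq ι] in
theorem l8map_ker (c : Fin e) (r : R) :
    Nat.card (l8map E κ c r).ker
      = Nat.card (DistribSMul.toAddMonoidHom (E (κ c)).toAffine.Point r).ker := by
  have key : ∀ z : ∀ c, (E (κ c)).toAffine.Point, z ∈ (l8map E κ c r).ker ↔
      r • z c = 0 ∧ ∀ d, d ≠ c → z d = 0 := by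
    intro z
    rw [AddMonoidHom.mem_ker]
    constructor
    · intro h
      have h1 : ∀ d, Function.update z c (r • z c) d = 0 := fun d => congrFun h d
      refine ⟨?_, fun d hd => ?_⟩
      · have h2 := h1 c
        rwa [Function.update_self] at h2
      · have h2 := h1 d
        rwa [Function.update_of_ne hd] at h2
    · rintro ⟨h1, h2⟩
      funext d
      change Function.update z c (r • z c) d = 0
      by_cases hd : d = c
      · subst hd
        rw [Function.update_self, h1]
      · rw [Function.update_of_ne hd, h2 d hd]
  refine Nat.card_congr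
    { toFun := fun z => ⟨z.1 c, ((key z.1).1 z.2).1⟩
      invFun := fun x => ⟨Pi.single c x.1, (key _).2 ⟨?_, fun d hd => Pi.single_eq_of_ne hd _⟩⟩
      left_inv := ?_
      right_inv := ?_ }
  · rw [Pi.single_eq_same]
    exact x.2
  · intro z
    apply Subtype.ext
    funext d
    by_cases hd : d = c
    · subst hd
      simp
    · simp only [Pi.single_eq_of_ne hd]
      exact (((key z.1).1 z.2).2 d hd).symm
  · intro x
    apply Subtype.ext
    simp

/-- **Row L8.** `z ↦ M z` composed with `z_c ↦ r z_c`: the image is the same and the kernel is an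
extension of the kernel of `M` by the kernel of `r`. -/
theorem abCycle_smul (M : Fin e → Fin n → R) (c : Fin e) (r : R)
    (hr : Function.Surjective (fun P : (E (κ c)).toAffine.Point => r • P))
    (a : ∀ k, (E (j k)).toAffine.Point) :
    abCycle E j κ (Function.update M c (r • M c)) a
      = Nat.card (DistribSMul.toAddMonoidHom (E (κ c)).toAffine.Point r).ker • abCycle E j κ M a := by
  have h1 : ∀ z, abMap E j κ (Function.update M c (r • M c)) z = abMap E j κ M (l8map E κ c r z) := by
    intro z
    funext k
    rw [l1_apply, l1_apply]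
    refine Finset.sum_congr rfl fun d _ => ?_
    by_cases hd : d = c
    · subst hd
      have h2 : l8map E κ d r z d = r • z d := Function.update_self _ _ _
      rw [h2, l8_single, Function.update_self, Pi.smul_apply, smul_eq_mul, mul_comm, mul_smul]
    · have h2 : l8map E κ c r z d = z d := Function.update_of_ne hd _ _
      rw [h2, Function.update_of_ne hd]
  have h3 : (abMap E j κ (Function.update M c (r • M c))).ker
      = (abMap E j κ M).ker.comap (l8map E κ c r) := by
    ext z
    rw [AddMonoidHom.mem_ker, AddSubgroup.mem_comap, AddMonoidHom.mem_ker, h1]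
  have h4 : (Set.range fun z => abMap E j κ (Function.update M c (r • M c)) z + a)
      = Set.range fun z => abMap E j κ M z + a := by
    have h5 : (fun z => abMap E j κ (Function.update M c (r • M c)) z + a)
        = (fun z => abMap E j κ M z + a) ∘ l8map E κ c r := by
      funext z
      rw [Function.comp_apply, h1]
    rw [h5, (l8map_surjective E κ c r hr).range_comp]
  unfold abCycle
  rw [h3, h4, l8_card _ (l8map_surjective E κ c r hr), l8map_ker, mul_smul]

end Pool.Agent.ZC.AC
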