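import Pool.Agent.Lib.MP_a1cc03_ag.AC.AlgDefs

/-! # Row Q1: the parallelogram law for one variable -/

namespace Pool.Agent.ZC.AC

variable {k₀ : Type*} [Field k₀] [CharZero k₀] {U : Type*} [AddCommGroup U] [Module k₀ U]

include k₀ in
/-- `U` has no 2-torsion. -/
theorem Q1_tf (u : U) (h : (2 : ℕ) • u = 0) : u = 0 := by
  have h1 : (2 : k₀) • u = 0 := by
    rw [← h, two_smul, two_nsmul]
  exact (smul_eq_zero.1 h1).resolve_left two_ne_zero

include k₀ in
/-- **Row Q1.** A function with the parallelogram law has a biadditive polarization.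
Proof: `h 0 = 0` (`u = v = 0`), `h (-x) = h x`; put `S x y = h (x + y) - h (x - y)`; the law at
`(x + y, x')` and `(x - y, x')` gives `S (x + x') y + S (x - x') y = 2 S x y`; `x' = x` gives
`S (2x) y = 2 S x y`; with `x = a + b`, `x' = a - b` one gets `S (2a) y + S (2b) y = 2 S (a + b) y`, hence
`S (a + b) y = S a y + S b y`. And `h (x + y) - h x - h y = (1/2) S x y`. -/
theorem polar_add {V : Type*} [AddCommGroup V] (h : V → U)
    (hh : ∀ u v, h (u + v) + h (u - v) = 2 • h u + 2 • h v) :
    h 0 = 0 ∧ (∀ x, h (-x) = h x) ∧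
    ∀ x x' y, h (x + x' + y) - h (x + x') - h y
      = (h (x + y) - h x - h y) + (h (x' + y) - h x' - h y) := by
  have h0 : h 0 = 0 := by
    refine Q1_tf (k₀ := k₀) _ ?_
    have e := hh 0 0
    rw [add_zero, sub_zero] at e
    have e2 : (2 : ℕ) • h 0 = h 0 + h 0 := two_nsmul _
    rw [e2] at e ⊢
    exact left_eq_add.1 e
  have hneg : ∀ x, h (-x) = h x := by
    intro x
    have e := hh 0 x
    rw [zero_add, zero_sub, h0, smul_zero, zero_add, two_nsmul] at e
    exact add_left_cancel e
  refine ⟨h0, hneg, fun a b y => ?_⟩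
  have l1 := hh (a + b + y) (a - b)
  have l2 := hh (a + b - y) (a - b)
  have l3 := hh (a + y) a
  have l4 := hh (a - y) a
  have l5 := hh (b + y) b
  have l6 := hh (b - y) b
  have p1 := hh a y
  have p2 := hh b y
  have p3 := hh (a + b) y
  rw [show a + b + y + (a - b) = a + a + y by abel, show a + b + y - (a - b) = b + b + y by abel] at l1
  rw [show a + b - y + (a - b) = a + a - y by abel, show a + b - y - (a - b) = b + b - y by abel] at l2
  rw [show a + y + a = a + a + y by abel, show a + y - a = y by abel] at l3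
  rw [show a - y + a = a + a - y by abel, show a - y - a = -y by abel, hneg] at l4
  rw [show b + y + b = b + b + y by abel, show b + y - b = y by abel] at l5
  rw [show b - y + b = b + b - y by abel, show b - y - b = -y by abel, hneg] at l6
  rw [← sub_eq_zero]
  refine Q1_tf (k₀ := k₀) _ (Q1_tf (k₀ := k₀) _ ?_)
  generalize h (a + a + y) = A1 at *
  generalize h (b + b + y) = A2 at *
  generalize h (a + b + y) = A3 at *
  generalize h (a - b) = A4 at *
  generalize h (a + a - y) = A5 at *
  generalize h (b + b - y) = A6 at *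
  generalize h (a + b - y) = A7 at *
  generalize h (a + y) = A8 at *
  generalize h (b + y) = A9 at *
  generalize h (a - y) = B1 at *
  generalize h (b - y) = B2 at *
  generalize h (a + b) = B3 at *
  generalize h a = B4 at *
  generalize h b = B5 at *
  generalize h y = B6 at *
  clear hh h0 hneg
  linear_combination (norm := module) (-(1 : ℤ)) • l1 + l2 + l3 - l4 + l5 - l6
    + (2 : ℤ) • p3 - (2 : ℤ) • p1 - (2 : ℤ) • p2

end Pool.Agent.ZC.AC
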