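import Pool.Agent.Lib.MP_a1cc03_ag.AC.L7
import Pool.Agent.Lib.MP_a1cc03_ag.AC.L8
import Pool.Agent.Lib.MP_a1cc03_ag.AC.Alg
import Pool.Agent.Lib.MP_a1cc03_ag.AC.Q1

/-! # Row H1: the two functions to which the first fundamental theorem is applied -/

noncomputable section

namespace Pool.Agent.ZC.AC

open WeierstrassCurve ComplexConjugate

variable {R : Type} [CommRing R] {K : Type} [Field K] [DecidableEq K] {ι : Type} [DecidableEq ι]
  (E : ι → WeierstrassCurve K) [∀ i, Module R (E i).toAffine.Point] {n e : ℕ} (j : Fin n → ι)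
  (κ : Fin e → ι) {U : Type} [AddCommGroup U] [Module ℂ U]
  (q : FreeAbelianGroup (Set (∀ k, (E (j k)).toAffine.Point)) →+ U)

omit [Module ℂ U] in
/-- **Row H1a.** From `IsAbRel.divisor`, `AddSubgroup.subset_closure`. -/
theorem class_multiQuad (hq : ∀ z ∈ RatAb R E j κ, q z = 0) (a : ∀ k, (E (j k)).toAffine.Point) :
    MultiQuad (fun M : Fin e → Fin n → R => q (abCycle E j κ M a)) := by
  intro M c u v
  have h := hq _ (AddSubgroup.subset_closure (IsAbRel.divisor (R := R) (E := E) (j := j) (κ := κ) M c u v a))
  simp only [map_sub, map_add, map_nsmul] at h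
  rw [sub_eq_zero, sub_eq_iff_eq_add] at h
  change q (abCycle E j κ (Function.update M c (u + v)) a)
    + q (abCycle E j κ (Function.update M c (u - v)) a)
    = 2 • q (abCycle E j κ (Function.update M c u) a)
    + 2 • q (abCycle E j κ (Function.update M c v) a)
  rw [h, add_comm]

/-- A multiquadratic function vanishes if a column is zero. -/
theorem mq_zero {V U : Type*} [AddCommGroup V] [AddCommGroup U] [Module ℂ U] {e : ℕ}
    (f : (Fin e → V) → U) (hf : MultiQuad f) (M : Fin e → V) (c : Fin e) :
    f (Function.update M c 0) = 0 :=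
  (polar_add (k₀ := ℂ) (fun x => f (Function.update M c x)) (fun u v => hf M c u v)).1

/-- **Row H1b.** -/
theorem class_inv (θ : ι → R →+* ℂ) (hE : ∀ i, IsEndRing (E i) (θ i))
    (hs : ∀ i (r : R), θ i r ≠ 0 → Function.Surjective (fun P : (E i).toAffine.Point => r • P))
    (hq : ∀ z ∈ RatAb R E j κ, q z = 0) (a : ∀ k, (E (j k)).toAffine.Point) :
    Inv θ κ (fun M : Fin e → Fin n → R => q (abCycle E j κ M a)) where
  mq := class_multiQuad E j κ q hq a
  add M c c' hcc hκ := by rw [abCycle_add_col E j κ M c c' hcc hκ a]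
  nul M c r u hr := by rw [abCycle_nul E j κ M c r ((hE _).faithful r hr) u a]
  deg c r := by
    by_cases hr : θ (κ c) r = 0
    · refine ⟨0, fun M => ?_⟩
      have h1 := abCycle_nul E j κ (Function.update M c 0) c r ((hE _).faithful r hr) (M c) a
      rw [Function.update_self, zero_add, Function.update_idem] at h1
      rw [h1, zero_smul]
      exact mq_zero _ (class_multiQuad E j κ q hq a) M c
    · refine ⟨Nat.card (DistribSMul.toAddMonoidHom (E (κ c)).toAffine.Point r).ker, fun M => ?_⟩
      rw [abCycle_smul E j κ M c r (hs _ r hr) a, map_nsmul]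

/-- The point `v ⊗ x`. -/
def h1pt (i : ι) (v : Fin n → R) (x : (E i).toAffine.Point) : ∀ k, (E (j k)).toAffine.Point :=
  fun k => v k • (Pi.single i x : ∀ i, (E i).toAffine.Point) (j k)

theorem h1_single_mem (A : ∀ i, AddSubgroup (E i).toAffine.Point) (i i' : ι)
    (x : (E i).toAffine.Point) (hx : x ∈ A i) :
    (Pi.single i x : ∀ i, (E i).toAffine.Point) i' ∈ A i' := by
  by_cases h : i' = i
  · subst h
    rw [Pi.single_eq_same]
    exact hx
  · rw [Pi.single_eq_of_ne h]
    exact zero_mem _

theorem h1pt_mem (A : ∀ i, AddSubgroup (E i).toAffine.Point)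
    (hA : ∀ i (r : R), ∀ x ∈ A i, r • x ∈ A i) (i : ι) (v : Fin n → R)
    (x : (E i).toAffine.Point) (hx : x ∈ A i) (k : Fin n) : h1pt E j i v x k ∈ A (j k) :=
  hA _ _ _ (h1_single_mem E A i (j k) x hx)

theorem h1pt_add_left (i : ι) (v w : Fin n → R) (x : (E i).toAffine.Point) :
    h1pt E j i (v + w) x = h1pt E j i v x + h1pt E j i w x := by
  funext k
  simp only [h1pt, Pi.add_apply, add_smul]

theorem h1pt_add_right (i : ι) (v : Fin n → R) (x y : (E i).toAffine.Point) :
    h1pt E j i v (x + y) = h1pt E j i v x + h1pt E j i v y := by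
  funext k
  simp only [h1pt, Pi.add_apply, Pi.single_add, smul_add]

theorem h1_single_smul (i : ι) (r : R) (x : (E i).toAffine.Point) (i' : ι) :
    (Pi.single i (r • x) : ∀ i, (E i).toAffine.Point) i'
      = r • (Pi.single i x : ∀ i, (E i).toAffine.Point) i' := by
  by_cases h : i' = i
  · subst h
    rw [Pi.single_eq_same, Pi.single_eq_same]
  · rw [Pi.single_eq_of_ne h, Pi.single_eq_of_ne h, smul_zero]

theorem h1pt_smul (i : ι) (r : R) (v : Fin n → R) (x : (E i).toAffine.Point) :
    h1pt E j i (r • v) x = h1pt E j i v (r • x) := by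
  funext k
  simp only [h1pt, Pi.smul_apply, smul_eq_mul]
  rw [h1_single_smul, smul_smul, mul_comm]

/-- **Row H1c.** `f₁ M v x = q [M; b + v ⊗ x] - q [M; b]`. -/
theorem exists_pointed (θ : ι → R →+* ℂ) (hE : ∀ i, IsEndRing (E i) (θ i))
    (hs : ∀ i (r : R), θ i r ≠ 0 → Function.Surjective (fun P : (E i).toAffine.Point => r • P))
    (hq : ∀ z ∈ RatAb R E j κ, q z = 0)
    (A : ∀ i, AddSubgroup (E i).toAffine.Point) (hA : ∀ i (r : R), ∀ x ∈ A i, r • x ∈ A i)
    (b : ∀ k, (E (j k)).toAffine.Point)
    (hadd : ∀ (M : Fin e → Fin n → R) (x y : ∀ k, (E (j k)).toAffine.Point),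
      (∀ k, x k ∈ A (j k)) → (∀ k, y k ∈ A (j k)) →
      q (abCycle E j κ M (b + (x + y))) - q (abCycle E j κ M b)
        = (q (abCycle E j κ M (b + x)) - q (abCycle E j κ M b))
          + (q (abCycle E j κ M (b + y)) - q (abCycle E j κ M b))) (i : ι) :
    ∃ f₁ : (Fin e → Fin n → R) → ((Fin n → R) →+ (A i →+ U)),
      (∀ M v (x : A i), f₁ M v x
        = q (abCycle E j κ M (b + h1pt E j i v (x : (E i).toAffine.Point)))
          - q (abCycle E j κ M b)) ∧
      Inv θ κ f₁ ∧
      (∀ (M : Fin e → Fin n → R) (c : Fin e), κ c = i → f₁ M (M c) = 0) ∧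
      (∀ (M : Fin e → Fin n → R) (r : R) (v : Fin n → R), θ i r = 0 → f₁ M (r • v) = 0) := by
  refine ⟨fun M => AddMonoidHom.mk' (fun v => AddMonoidHom.mk' (fun x : A i =>
      q (abCycle E j κ M (b + h1pt E j i v (x : (E i).toAffine.Point)))
        - q (abCycle E j κ M b)) ?_) ?_, ?_, ?_, ?_, ?_⟩
  · intro x y
    have h := hadd M (h1pt E j i v x) (h1pt E j i v y) (h1pt_mem E j A hA i v x x.2)
      (h1pt_mem E j A hA i v y y.2)
    rw [← h1pt_add_right] at h
    exact h
  · intro v w
    ext x
    have h := hadd M (h1pt E j i v x) (h1pt E j i w x) (h1pt_mem E j A hA i v x x.2)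
      (h1pt_mem E j A hA i w x x.2)
    rw [← h1pt_add_left] at h
    exact h
  · intro M v x
    rfl
  · have hI := fun a => class_inv E j κ q θ hE hs hq a
    refine ⟨?_, ?_, ?_, ?_⟩
    · intro M c u v
      refine AddMonoidHom.ext fun w => AddMonoidHom.ext fun x => ?_
      have h1 := (hI (b + h1pt E j i w (x : (E i).toAffine.Point))).mq M c u v
      have h2 := (hI b).mq M c u v
      beta_reduce at h1 h2
      change (q (abCycle E j κ (Function.update M c (u + v)) (b + h1pt E j i w x))
          - q (abCycle E j κ (Function.update M c (u + v)) b))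
        + (q (abCycle E j κ (Function.update M c (u - v)) (b + h1pt E j i w x))
          - q (abCycle E j κ (Function.update M c (u - v)) b))
        = 2 • (q (abCycle E j κ (Function.update M c u) (b + h1pt E j i w x))
          - q (abCycle E j κ (Function.update M c u) b))
        + 2 • (q (abCycle E j κ (Function.update M c v) (b + h1pt E j i w x))
          - q (abCycle E j κ (Function.update M c v) b))
      rw [sub_add_sub_comm, h1, h2, smul_sub, smul_sub, sub_add_sub_comm]
    · intro M c c' hcc hκ
      refine AddMonoidHom.ext fun v => AddMonoidHom.ext fun x => ?_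
      have h1 := (hI (b + h1pt E j i v (x : (E i).toAffine.Point))).add M c c' hcc hκ
      have h2 := (hI b).add M c c' hcc hκ
      exact congrArg₂ (· - ·) h1 h2
    · intro M c r u hr
      refine AddMonoidHom.ext fun v => AddMonoidHom.ext fun x => ?_
      have h1 := (hI (b + h1pt E j i v (x : (E i).toAffine.Point))).nul M c r u hr
      have h2 := (hI b).nul M c r u hr
      exact congrArg₂ (· - ·) h1 h2
    · intro c r
      by_cases hr : θ (κ c) r = 0
      · refine ⟨0, fun M => ?_⟩
        refine AddMonoidHom.ext fun v => AddMonoidHom.ext fun x => ?_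
        have key : ∀ a, q (abCycle E j κ (Function.update M c (r • M c)) a) = 0 := by
          intro a
          have h1 := abCycle_nul E j κ (Function.update M c 0) c r ((hE _).faithful r hr) (M c) a
          rw [Function.update_self, zero_add, Function.update_idem] at h1
          rw [h1]
          exact mq_zero _ (class_multiQuad E j κ q hq a) M c
        change q (abCycle E j κ (Function.update M c (r • M c)) (b + h1pt E j i v x))
          - q (abCycle E j κ (Function.update M c (r • M c)) b) = _
        rw [key, key, zero_smul, sub_zero]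
        rfl
      · refine ⟨Nat.card (DistribSMul.toAddMonoidHom (E (κ c)).toAffine.Point r).ker, fun M => ?_⟩
        refine AddMonoidHom.ext fun v => AddMonoidHom.ext fun x => ?_
        change q (abCycle E j κ (Function.update M c (r • M c)) (b + h1pt E j i v x))
          - q (abCycle E j κ (Function.update M c (r • M c)) b)
          = Nat.card (DistribSMul.toAddMonoidHom (E (κ c)).toAffine.Point r).ker •
            (q (abCycle E j κ M (b + h1pt E j i v x)) - q (abCycle E j κ M b))
        rw [abCycle_smul E j κ M c r (hs _ r hr), abCycle_smul E j κ M c r (hs _ r hr), map_nsmul,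
          map_nsmul, smul_sub]
  · intro M c hκ
    ext x
    change q (abCycle E j κ M (b + h1pt E j i (M c) (x : (E i).toAffine.Point)))
      - q (abCycle E j κ M b) = 0
    subst hκ
    have h1 := abCycle_translate E j κ M b (Pi.single c (x : (E (κ c)).toAffine.Point))
    have h2 : abMap E j κ M (Pi.single c (x : (E (κ c)).toAffine.Point))
        = h1pt E j (κ c) (M c) (x : (E (κ c)).toAffine.Point) := by
      funext k
      rw [l1_apply, Finset.sum_eq_single_of_mem c (Finset.mem_univ c)]
      · rw [Pi.single_eq_same]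
        rfl
      · intro d _ hd
        rw [Pi.single_eq_of_ne hd, Pi.single_zero, Pi.zero_apply, smul_zero]
    rw [h2, add_comm] at h1
    rw [h1, sub_self]
  · intro M r v hr
    refine AddMonoidHom.ext fun x => ?_
    change q (abCycle E j κ M (b + h1pt E j i (r • v) (x : (E i).toAffine.Point)))
      - q (abCycle E j κ M b) = 0
    rw [h1pt_smul, (hE i).faithful r hr]
    have h3 : h1pt E j i v (0 : (E i).toAffine.Point) = 0 := by
      funext k
      simp only [h1pt, Pi.single_zero, Pi.zero_apply, smul_zero]
    rw [h3, add_zero, sub_self]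

omit [Module ℂ U] in
/-- **Row H1d.** `x = ∑ k, Pi.single k (x k)`, `hadd`; induction over a finset of indices `k`. -/
theorem pointed_sum (A : ∀ i, AddSubgroup (E i).toAffine.Point)
    (b : ∀ k, (E (j k)).toAffine.Point)
    (hadd : ∀ (M : Fin e → Fin n → R) (x y : ∀ k, (E (j k)).toAffine.Point),
      (∀ k, x k ∈ A (j k)) → (∀ k, y k ∈ A (j k)) →
      q (abCycle E j κ M (b + (x + y))) - q (abCycle E j κ M b)
        = (q (abCycle E j κ M (b + x)) - q (abCycle E j κ M b))
          + (q (abCycle E j κ M (b + y)) - q (abCycle E j κ M b)))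
    (M : Fin e → Fin n → R) (a : ∀ k, (E (j k)).toAffine.Point) (ha : ∀ k, a k ∈ A (j k)) :
    q (abCycle E j κ M (b + a)) - q (abCycle E j κ M b)
      = ∑ k, (q (abCycle E j κ M (b + Pi.single k (a k))) - q (abCycle E j κ M b)) := by
  have hsing : ∀ k k' : Fin n, (Pi.single k (a k) : ∀ k, (E (j k)).toAffine.Point) k' ∈ A (j k') := by
    intro k k'
    by_cases h : k' = k
    · subst h
      rw [Pi.single_eq_same]
      exact ha _
    · rw [Pi.single_eq_of_ne h]
      exact zero_mem _
  have key : ∀ s : Finset (Fin n),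
      q (abCycle E j κ M (b + ∑ k ∈ s, Pi.single k (a k))) - q (abCycle E j κ M b)
        = ∑ k ∈ s, (q (abCycle E j κ M (b + Pi.single k (a k))) - q (abCycle E j κ M b)) := by
    intro s
    induction s using Finset.induction_on with
    | empty => rw [Finset.sum_empty, Finset.sum_empty, add_zero, sub_self]
    | insert k s hk ih =>
      rw [Finset.sum_insert hk, Finset.sum_insert hk, ← ih]
      refine hadd M _ _ (hsing k) ?_
      intro k'
      rw [Finset.sum_apply]
      exact sum_mem fun c _ => hsing c k'
  have h := key Finset.univ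
  rw [Finset.univ_sum_single] at h
  exact h

end Pool.Agent.ZC.AC
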