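import Pool.Agent.Lib.MP_a1cc03_ag.AC.Defs

/-! # Row H2: the pointed part of the sum -/

noncomputable section

namespace Pool.Agent.ZC.AC

open WeierstrassCurve ComplexConjugate

theorem cminor_update_last {e n : ℕ} (Z : Fin e → Fin n → ℂ) (w : Fin n → ℂ)
    (L : Fin (e + 1) → Fin n) :
    cpminor Z w L = ∑ r : Fin (e + 1), (-1) ^ ((Fin.last e : ℕ) + (r : ℕ)) * w (L r)
      * cminor Z (L ∘ r.succAbove) := by
  unfold cpminor cminor
  rw [Matrix.det_succ_row _ (Fin.last e)]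
  refine Finset.sum_congr rfl fun r _ => ?_
  congr 1
  · congr 1
    simp
  · congr 1
    ext c r'
    simp

/-- The minor of `(Z | w)` is linear in `w`. -/
theorem cpminor_eq_sum {e n : ℕ} (Z : Fin e → Fin n → ℂ) (w : Fin n → ℂ)
    (L : Fin (e + 1) → Fin n) :
    cpminor Z w L = ∑ k, w k * cpminor Z (Pi.single k 1) L := by
  rw [cminor_update_last]
  have h1 : ∀ k, w k * cpminor Z (Pi.single k 1) L = ∑ r : Fin (e + 1),
      w k * ((-1) ^ ((Fin.last e : ℕ) + (r : ℕ)) * (Pi.single k (1 : ℂ) : Fin n → ℂ) (L r)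
      * cminor Z (L ∘ r.succAbove)) := by
    intro k
    rw [cminor_update_last, Finset.mul_sum]
  rw [Finset.sum_congr rfl fun k _ => h1 k, Finset.sum_comm]
  refine Finset.sum_congr rfl fun r _ => ?_
  rw [Finset.sum_eq_single (L r)]
  · rw [Pi.single_eq_same]
    ring
  · intro k _ hk
    rw [Pi.single_eq_of_ne (Ne.symm hk)]
    ring
  · intro h
    exact absurd (Finset.mem_univ _) h

variable {R : Type} [CommRing R] {K : Type} [Field K] [DecidableEq K] {ι : Type}
  (E : ι → WeierstrassCurve K) [∀ i, Module R (E i).toAffine.Point] {n e : ℕ} (j : Fin n → ι)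

/-- **Row H2.** The combination of the pointed parts. -/
theorem pointed_zero {U : Type} [AddCommGroup U] [Module ℂ U]
    (A : ∀ i, AddSubgroup (E i).toAffine.Point) (θ : ι → R →+* ℂ)
    (hA : ∀ i (r : R), ∀ x ∈ A i, r • x ∈ A i)
    (g : ∀ i, (Fin (e + 1) → Fin n) → (Fin e → Fin n) → (A i →+ U))
    (hg : ∀ i L J (r : R) (x : A i) (hx : r • (x : (E i).toAffine.Point) ∈ A i),
      g i L J ⟨r • (x : (E i).toAffine.Point), hx⟩ = θ i r • g i L J x)
    {m : ℕ} (c : Fin m → ℤ) (Z : Fin m → Fin e → Fin n → ℂ)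
    (a : Fin m → ∀ k, (E (j k)).toAffine.Point) (ha : ∀ s k, a s k ∈ A (j k))
    (hAJ : ∀ lam : ∀ i, (E i).toAffine.Point → ℂ, (∀ i, IsCoord (A i) (θ i) (lam i)) →
      ∀ (J : Fin e → Fin n) (L : Fin (e + 1) → Fin n),
        ∑ s, (c s : ℂ) * conj (cminor (Z s) J) * cpminor (Z s) (fun k => lam (j k) (a s k)) L = 0) :
    ∑ s, c s • ∑ k, ∑ L : Fin (e + 1) → Fin n, ∑ J : Fin e → Fin n,
      (cpminor (Z s) (Pi.single k 1) L * conj (cminor (Z s) J)) •
        g (j k) L J ⟨a s k, ha s k⟩ = 0 := by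
  classical
  have h0 : ∑ s, c s • ∑ k, ∑ L : Fin (e + 1) → Fin n, ∑ J : Fin e → Fin n,
      (cpminor (Z s) (Pi.single k 1) L * conj (cminor (Z s) J)) •
        g (j k) L J ⟨a s k, ha s k⟩ =
      ∑ L : Fin (e + 1) → Fin n, ∑ J : Fin e → Fin n, ∑ s, ∑ k,
        ((c s : ℂ) * conj (cminor (Z s) J) * cpminor (Z s) (Pi.single k 1) L) •
          g (j k) L J ⟨a s k, ha s k⟩ := by
    have h1 : ∀ s, c s • ∑ k, ∑ L : Fin (e + 1) → Fin n, ∑ J : Fin e → Fin n,
        (cpminor (Z s) (Pi.single k 1) L * conj (cminor (Z s) J)) •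
          g (j k) L J ⟨a s k, ha s k⟩ =
        ∑ L : Fin (e + 1) → Fin n, ∑ J : Fin e → Fin n, ∑ k,
          ((c s : ℂ) * conj (cminor (Z s) J) * cpminor (Z s) (Pi.single k 1) L) •
            g (j k) L J ⟨a s k, ha s k⟩ := by
      intro s
      rw [Finset.sum_comm, Finset.smul_sum]
      refine Finset.sum_congr rfl fun L _ => ?_
      rw [Finset.sum_comm, Finset.smul_sum]
      refine Finset.sum_congr rfl fun J _ => ?_
      rw [Finset.smul_sum]
      refine Finset.sum_congr rfl fun k _ => ?_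
      rw [← Int.cast_smul_eq_zsmul ℂ, smul_smul]
      congr 1
      ring
    rw [Finset.sum_congr rfl fun s _ => h1 s, Finset.sum_comm]
    refine Finset.sum_congr rfl fun L _ => ?_
    rw [Finset.sum_comm]
  rw [h0]
  refine Finset.sum_eq_zero fun L _ => Finset.sum_eq_zero fun J _ => ?_
  rw [← Module.forall_dual_apply_eq_zero_iff ℂ]
  intro ψ
  -- the coordinate functions
  let lam : ∀ i, (E i).toAffine.Point → ℂ := fun i x => if h : x ∈ A i then ψ (g i L J ⟨x, h⟩) else 0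
  have hlam : ∀ i x (h : x ∈ A i), lam i x = ψ (g i L J ⟨x, h⟩) := fun i x h => dif_pos h
  have hcoord : ∀ i, IsCoord (A i) (θ i) (lam i) := by
    intro i
    constructor
    · intro x hx y hy
      rw [hlam i x hx, hlam i y hy, hlam i (x + y) (add_mem hx hy), ← map_add, ← map_add]
      rfl
    · intro r x hx
      rw [hlam i x hx, hlam i (r • x) (hA i r x hx), hg i L J r ⟨x, hx⟩ (hA i r x hx), map_smul,
        smul_eq_mul]
  rw [map_sum, ← hAJ lam hcoord J L]
  refine Finset.sum_congr rfl fun s _ => ?_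
  rw [map_sum, cpminor_eq_sum, Finset.mul_sum]
  refine Finset.sum_congr rfl fun k _ => ?_
  rw [map_smul, smul_eq_mul, hlam (j k) (a s k) (ha s k)]
  ring

/-- **Row H2'.** The same with complex conjugation. -/
theorem pointed_zero_conj {U : Type} [AddCommGroup U] [Module ℂ U]
    (A : ∀ i, AddSubgroup (E i).toAffine.Point) (θ : ι → R →+* ℂ)
    (hA : ∀ i (r : R), ∀ x ∈ A i, r • x ∈ A i)
    (g : ∀ i, (Fin (e + 1) → Fin n) → (Fin e → Fin n) → (A i →+ U))
    (hg : ∀ i L J (r : R) (x : A i) (hx : r • (x : (E i).toAffine.Point) ∈ A i),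
      g i L J ⟨r • (x : (E i).toAffine.Point), hx⟩ = conj (θ i r) • g i L J x)
    {m : ℕ} (c : Fin m → ℤ) (Z : Fin m → Fin e → Fin n → ℂ)
    (a : Fin m → ∀ k, (E (j k)).toAffine.Point) (ha : ∀ s k, a s k ∈ A (j k))
    (hAJ : ∀ lam : ∀ i, (E i).toAffine.Point → ℂ, (∀ i, IsCoord (A i) (θ i) (lam i)) →
      ∀ (J : Fin e → Fin n) (L : Fin (e + 1) → Fin n),
        ∑ s, (c s : ℂ) * conj (cminor (Z s) J) * cpminor (Z s) (fun k => lam (j k) (a s k)) L = 0) :
    ∑ s, c s • ∑ k, ∑ L : Fin (e + 1) → Fin n, ∑ J : Fin e → Fin n,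
      (conj (cpminor (Z s) (Pi.single k 1) L) * cminor (Z s) J) •
        g (j k) L J ⟨a s k, ha s k⟩ = 0 := by
  classical
  have h0 : ∑ s, c s • ∑ k, ∑ L : Fin (e + 1) → Fin n, ∑ J : Fin e → Fin n,
      (conj (cpminor (Z s) (Pi.single k 1) L) * cminor (Z s) J) •
        g (j k) L J ⟨a s k, ha s k⟩ =
      ∑ L : Fin (e + 1) → Fin n, ∑ J : Fin e → Fin n, ∑ s, ∑ k,
        ((c s : ℂ) * cminor (Z s) J * conj (cpminor (Z s) (Pi.single k 1) L)) •
          g (j k) L J ⟨a s k, ha s k⟩ := by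
    have h1 : ∀ s, c s • ∑ k, ∑ L : Fin (e + 1) → Fin n, ∑ J : Fin e → Fin n,
        (conj (cpminor (Z s) (Pi.single k 1) L) * cminor (Z s) J) •
          g (j k) L J ⟨a s k, ha s k⟩ =
        ∑ L : Fin (e + 1) → Fin n, ∑ J : Fin e → Fin n, ∑ k,
          ((c s : ℂ) * cminor (Z s) J * conj (cpminor (Z s) (Pi.single k 1) L)) •
            g (j k) L J ⟨a s k, ha s k⟩ := by
      intro s
      rw [Finset.sum_comm, Finset.smul_sum]
      refine Finset.sum_congr rfl fun L _ => ?_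
      rw [Finset.sum_comm, Finset.smul_sum]
      refine Finset.sum_congr rfl fun J _ => ?_
      rw [Finset.smul_sum]
      refine Finset.sum_congr rfl fun k _ => ?_
      rw [← Int.cast_smul_eq_zsmul ℂ, smul_smul]
      congr 1
      ring
    rw [Finset.sum_congr rfl fun s _ => h1 s, Finset.sum_comm]
    refine Finset.sum_congr rfl fun L _ => ?_
    rw [Finset.sum_comm]
  rw [h0]
  refine Finset.sum_eq_zero fun L _ => Finset.sum_eq_zero fun J _ => ?_
  rw [← Module.forall_dual_apply_eq_zero_iff ℂ]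
  intro ψ
  let lam : ∀ i, (E i).toAffine.Point → ℂ :=
    fun i x => if h : x ∈ A i then conj (ψ (g i L J ⟨x, h⟩)) else 0
  have hlam : ∀ i x (h : x ∈ A i), lam i x = conj (ψ (g i L J ⟨x, h⟩)) := fun i x h => dif_pos h
  have hcoord : ∀ i, IsCoord (A i) (θ i) (lam i) := by
    intro i
    constructor
    · intro x hx y hy
      rw [hlam i x hx, hlam i y hy, hlam i (x + y) (add_mem hx hy), ← map_add, ← map_add, ← map_add]
      rfl
    · intro r x hx
      rw [hlam i x hx, hlam i (r • x) (hA i r x hx), hg i L J r ⟨x, hx⟩ (hA i r x hx), map_smul,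
        smul_eq_mul, map_mul, Complex.conj_conj]
  have h2 := congrArg conj (hAJ lam hcoord J L)
  rw [map_zero, map_sum] at h2
  rw [map_sum, ← h2]
  refine Finset.sum_congr rfl fun s _ => ?_
  rw [map_sum, cpminor_eq_sum, map_mul, map_mul, Complex.conj_conj, map_sum, Finset.mul_sum,
    map_intCast]
  refine Finset.sum_congr rfl fun k _ => ?_
  rw [map_smul, smul_eq_mul, hlam (j k) (a s k) (ha s k), map_mul, Complex.conj_conj]
  ring

end Pool.Agent.ZC.AC
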