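import Pool.Agent.Lib.MP_a1cc03_ag.LC.L5

/-! # Row L5: passing to complex coefficients -/

namespace Pool.Agent.ZC.AC

open TensorProduct

theorem L5_inj (U : Type) [AddCommGroup U] [Module ℚ U] (u : U) (h : (1 : ℂ) ⊗ₜ[ℚ] u = 0) : u = 0 := by
  have h1 : Function.Injective ((Algebra.linearMap ℚ ℂ).rTensor U) :=
    Module.Flat.rTensor_preserves_injective_linearMap _ (algebraMap ℚ ℂ).injective
  have h2 : (Algebra.linearMap ℚ ℂ).rTensor U ((1 : ℚ) ⊗ₜ[ℚ] u) = 0 := by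
    rw [LinearMap.rTensor_tmul]
    simpa using h
  have h3 : ((1 : ℚ) ⊗ₜ[ℚ] u : ℚ ⊗[ℚ] U) = 0 := h1 (by rw [h2, map_zero])
  have h4 := congrArg (TensorProduct.lid ℚ U) h3
  simpa using h4

/-- **Row L5.** `U = ℂ ⊗ (G / R)`, `q g = 1 ⊗ (class of g)`. -/
theorem exists_complex (G : Type) [AddCommGroup G] (R : AddSubgroup G) :
    ∃ (U : Type) (_ : AddCommGroup U) (_ : Module ℂ U) (q : G →+ U),
      ∀ g, q g = 0 ↔ ∃ N : ℕ, 0 < N ∧ N • g ∈ R := by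
  obtain ⟨U, iU, mU, q, hq⟩ := LC.exists_rational G R
  refine ⟨ℂ ⊗[ℚ] U, inferInstance, inferInstance,
    (TensorProduct.mk ℚ ℂ U 1).toAddMonoidHom.comp q, fun g => ?_⟩
  rw [← hq g]
  constructor
  · intro h
    exact L5_inj U (q g) h
  · intro h
    change (1 : ℂ) ⊗ₜ[ℚ] q g = 0
    rw [h, TensorProduct.tmul_zero]

end Pool.Agent.ZC.AC
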