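import Pool.Agent.Lib.MP_a1cc03_ag.AC.Defs

/-! # Row L6: additivity in the point -/

noncomputable section

namespace Pool.Agent.ZC.AC

open WeierstrassCurve

variable {R : Type} [CommRing R] {K : Type} [Field K] [DecidableEq K] {ι : Type} [DecidableEq ι]
  (E : ι → WeierstrassCurve K) [∀ i, Module R (E i).toAffine.Point] {n e : ℕ} (j : Fin n → ι)
  (κ : Fin e → ι)

/-- **Row L6.** Apply `hprod` to `z = [b + (x + y)] - [b + x] - [b + y] + [b]` and the homomorphism
`abTranslates E j κ M`. -/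
theorem abCycle_additive (A : ∀ i, AddSubgroup (E i).toAffine.Point)
    (b : ∀ k, (E (j k)).toAffine.Point)
    (hprod : ∀ z : FreeAbelianGroup (∀ k, (E (j k)).toAffine.Point),
        z ∈ AddSubgroup.closure (FreeAbelianGroup.of '' {x | ∀ k, x k - b k ∈ A (j k)}) →
        degree (fun k => E (j k)) z = 0 → albanese (fun k => E (j k)) z = 0 →
        ∃ N : ℕ, 0 < N ∧ N • z ∈ RatEqPi (fun k => E (j k)))
    (M : Fin e → Fin n → R) (x y : ∀ k, (E (j k)).toAffine.Point)
    (hx : ∀ k, x k ∈ A (j k)) (hy : ∀ k, y k ∈ A (j k)) :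
    ∃ N : ℕ, 0 < N ∧ N • (abCycle E j κ M (b + (x + y)) - abCycle E j κ M (b + x)
      - abCycle E j κ M (b + y) + abCycle E j κ M b) ∈ RatAb R E j κ := by
  have hmem : ∀ x : ∀ k, (E (j k)).toAffine.Point, (∀ k, x k ∈ A (j k)) →
      FreeAbelianGroup.of (b + x) ∈
        AddSubgroup.closure (FreeAbelianGroup.of '' {x | ∀ k, x k - b k ∈ A (j k)}) :=
    fun x hx => AddSubgroup.subset_closure ⟨b + x, fun k => by
      rw [Pi.add_apply, add_sub_cancel_left]
      exact hx k, rfl⟩
  have hb : FreeAbelianGroup.of b ∈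
      AddSubgroup.closure (FreeAbelianGroup.of '' {x | ∀ k, x k - b k ∈ A (j k)}) := by
    have h := hmem 0 fun k => zero_mem _
    rwa [add_zero] at h
  obtain ⟨N, hN, h⟩ := hprod
    (FreeAbelianGroup.of (b + (x + y)) - FreeAbelianGroup.of (b + x) - FreeAbelianGroup.of (b + y)
      + FreeAbelianGroup.of b)
    (add_mem (sub_mem (sub_mem (hmem _ fun k => add_mem (hx k) (hy k)) (hmem x hx)) (hmem y hy)) hb)
    (by simp [degree]) (by simp [albanese])
  refine ⟨N, hN, ?_⟩
  have h1 := AddSubgroup.subset_closure (IsAbRel.translates (R := R) (E := E) (j := j) (κ := κ) M _ h)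
  have h2 : abTranslates E j κ M (N • (FreeAbelianGroup.of (b + (x + y)) - FreeAbelianGroup.of (b + x)
      - FreeAbelianGroup.of (b + y) + FreeAbelianGroup.of b))
      = N • (abCycle E j κ M (b + (x + y)) - abCycle E j κ M (b + x) - abCycle E j κ M (b + y)
        + abCycle E j κ M b) := by
    simp [abTranslates]
  rw [h2] at h1
  exact h1

end Pool.Agent.ZC.AC
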