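import Pool.Agent.Lib.MP_a1cc03_ag.AC.Hi

/-! # The hermitian form of an invariant function: exchange relations -/

namespace Pool.Agent.ZC.AC

open ComplexConjugate

variable {R : Type} [CommRing R] {ι : Type} {e : ℕ} {V : Type*} [AddCommGroup V] [Module R V]
  {U : Type*} [AddCommGroup U] [Module ℂ U]

section

variable {θ : ι → R →+* ℂ} {κ : Fin e → ι} {f : (Fin e → V) → U} (hf : Inv θ κ f)
  {F : (Fin e → V) → (Fin e → V) → U} (hF : PolOn Finset.univ F) (hFM : ∀ M, F M M = f M)

include hf hF hFM in
theorem pol_exch {c c' : Fin e} (hcc : c' ≠ c) (hκ : κ c' = κ c) (p q : Fin e → V)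
    (hpq : p c' = q c) : 2 • F p q + F (p ∘ Equiv.swap c c') q = 0 := by
  refine exchange (k₀ := ℂ) F hF c c' (Ne.symm hcc) (fun M => ?_) (fun M hM => ?_) p q hpq
  · rw [hFM, hFM]
    exact hf.add M c' c hcc hκ
  · rw [hFM]
    have h := hf.add (Function.update M c 0) c c' (Ne.symm hcc) hκ.symm
    rw [Function.update_self, Function.update_of_ne hcc, zero_add, Function.update_idem,
      ← hM, Function.update_eq_self, inv_zero hf.mq] at h
    exact h

include hf hF hFM in
theorem pol_swap' {c c' : Fin e} (hκ : κ c = κ c') (p q : Fin e → V) :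
    F (p ∘ Equiv.swap c c') (q ∘ Equiv.swap c c') = F p q := by
  by_cases hcc : c = c'
  · subst hcc
    simp
  · refine pol_swap (k₀ := ℂ) F hF c c' (fun M => ?_) p q
    rw [hFM, hFM]
    exact swap_invariant (k₀ := ℂ) f hf.mq c c' hcc (fun M => hf.add M c' c (Ne.symm hcc) hκ.symm)
      (fun M => hf.add M c c' hcc hκ) M

end

/-- two columns prescribed -/
def two (c c' : Fin e) (p : Fin e → V) (a x : V) : Fin e → V :=
  Function.update (Function.update p c a) c' x

omit [AddCommGroup V] in
theorem two_self {c c' : Fin e} (p : Fin e → V) : two c c' p (p c) (p c') = p := by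
  unfold two
  rw [Function.update_eq_self, Function.update_eq_self]

omit [AddCommGroup V] in
theorem two_swap {c c' : Fin e} (hcc : c ≠ c') (p : Fin e → V) (a x : V) :
    two c c' p a x ∘ Equiv.swap c c' = two c c' p x a := by
  unfold two
  funext b
  rcases eq_or_ne b c with rfl | hbc
  · rw [Function.comp_apply, Equiv.swap_apply_left, Function.update_self,
      Function.update_of_ne hcc, Function.update_self]
  · rcases eq_or_ne b c' with rfl | hbc'
    · rw [Function.comp_apply, Equiv.swap_apply_right, Function.update_of_ne hcc,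
        Function.update_self, Function.update_self]
    · rw [Function.comp_apply, Equiv.swap_apply_of_ne_of_ne hbc hbc', Function.update_of_ne hbc',
        Function.update_of_ne hbc, Function.update_of_ne hbc', Function.update_of_ne hbc]

omit [AddCommGroup V] in
theorem two_left {c c' : Fin e} (hcc : c ≠ c') (p : Fin e → V) (a x : V) :
    two c c' p a x c = a := by
  unfold two
  rw [Function.update_of_ne hcc, Function.update_self]

omit [AddCommGroup V] in
theorem two_right {c c' : Fin e} (p : Fin e → V) (a x : V) :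
    two c c' p a x c' = x := by
  unfold two
  rw [Function.update_self]

omit [AddCommGroup V] in
theorem two_upd_left {c c' : Fin e} (hcc : c ≠ c') (p : Fin e → V) (a x y : V) :
    Function.update (two c c' p a x) c y = two c c' p y x := by
  unfold two
  rw [Function.update_comm hcc.symm, Function.update_idem]

omit [AddCommGroup V] in
theorem two_upd_right {c c' : Fin e} (p : Fin e → V) (a x y : V) :
    Function.update (two c c' p a x) c' y = two c c' p a y := by
  unfold two
  rw [Function.update_idem]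

section

variable {θ : ι → R →+* ℂ} {κ : Fin e → ι} {w : ι → R} {d : ι → ℕ}
  (hO : ∀ i, IsCM (θ i) → OmP (θ i) (w i) (d i))
  {f : (Fin e → V) → U} (hf : Inv θ κ f) {F : (Fin e → V) → (Fin e → V) → U}
  (hF : PolOn Finset.univ F) (hFM : ∀ M, F M M = f M)

/-- the form as a combination of four values -/
theorem HH_two {c c' : Fin e} (hcc : c' ≠ c) (hc : c ∈ cmC θ κ) (hc' : c' ∈ cmC θ κ)
    (p q : Fin e → V) (a x : V) :
    HH θ κ w F (two c c' p a x) q =
      (HD (opC κ w) (sgC θ κ w) (((cmC θ κ).erase c).erase c') F (two c c' p a x) q +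
        sgC θ κ w c • HD (opC κ w) (sgC θ κ w) (((cmC θ κ).erase c).erase c') F
          (two c c' p (w (κ c) • a) x) q +
      sgC θ κ w c' • (HD (opC κ w) (sgC θ κ w) (((cmC θ κ).erase c).erase c') F
          (two c c' p a (w (κ c') • x)) q +
        sgC θ κ w c • HD (opC κ w) (sgC θ κ w) (((cmC θ κ).erase c).erase c') F
          (two c c' p (w (κ c) • a) (w (κ c') • x)) q)) := by
  have hc'' : c' ∈ (cmC θ κ).erase c := Finset.mem_erase.mpr ⟨hcc, hc'⟩
  unfold HH
  rw [HD_mem _ _ hc, HD_mem _ _ hc'', HD_mem _ _ hc'']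
  simp only [opC_apply, two_left (Ne.symm hcc), two_right, two_upd_left (Ne.symm hcc),
    two_upd_right]
  module

include hO hf hF hFM in
theorem HH_alt {c c' : Fin e} (hcc : c' ≠ c) (hκ : κ c' = κ c) (hc : IsCM (θ (κ c)))
    (p q : Fin e → V) : HH θ κ w F p q + HH θ κ w F (p ∘ Equiv.swap c c') q = 0 := by
  have hm : c ∈ cmC θ κ := mem_cmC.mpr hc
  have hm' : c' ∈ cmC θ κ := mem_cmC.mpr (by rw [hκ]; exact hc)
  have hn : c ∉ ((cmC θ κ).erase c).erase c' := fun h =>
    Finset.notMem_erase c (cmC θ κ) (Finset.mem_of_mem_erase h)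
  have hn' : c' ∉ ((cmC θ κ).erase c).erase c' := Finset.notMem_erase c' _
  have hO' := hO _ hc
  have hsg : sgC θ κ w c' = sgC θ κ w c := by
    unfold sgC
    rw [hκ]
  set D := ((cmC θ κ).erase c).erase c' with hD
  set H' := HD (opC κ w) (sgC θ κ w) D F with hH'
  set σ := sgC θ κ w c with hσ
  have hp : p = two c c' p (p c) (p c') := (two_self p).symm
  have hq : q = two c c' q (q c) (q c') := (two_self q).symm
  have hps : p ∘ Equiv.swap c c' = two c c' p (p c') (p c) := by
    conv_lhs => rw [hp]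
    rw [two_swap (Ne.symm hcc)]
  rw [hps]
  conv_lhs =>
    congr
    · rw [hp]
  rw [HH_two hcc hm hm', HH_two hcc hm hm', hsg, hκ, ← hD, ← hσ, ← hH']
  let G : V → V → V → V → U := fun a b x y => H' (two c c' p a x) (two c c' q b y)
  have hexch : ∀ (p q : Fin e → V), p c' = q c → 2 • H' p q + H' (p ∘ Equiv.swap c c') q = 0 :=
    fun p q hpq => HD_exch _ _ D hn hn' (fun p q h => pol_exch hf hF hFM hcc hκ p q h) p q hpq
  have hswap : ∀ (p q : Fin e → V), H' (p ∘ Equiv.swap c c') (q ∘ Equiv.swap c c') = H' p q :=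
    fun p q => HD_swap _ _ D hn hn' (fun p q => pol_swap' hf hF hFM hκ.symm p q) p q
  have g1 : ∀ a a' b x y, G (a + a') b x y = G a b x y + G a' b x y := by
    intro a a' b x y
    have h := HD_addl (opC κ w) (sgC θ κ w) D hF c (two c c' p a x) (two c c' q b y) a a'
    rw [two_upd_left (Ne.symm hcc), two_upd_left (Ne.symm hcc), two_upd_left (Ne.symm hcc)] at h
    exact h
  have g2 : ∀ a b b' x y, G a (b + b') x y = G a b x y + G a b' x y := by
    intro a b b' x y
    have h := HD_addr (opC κ w) (sgC θ κ w) D hF c (two c c' p a x) (two c c' q b y) b b'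
    rw [two_upd_left (Ne.symm hcc), two_upd_left (Ne.symm hcc), two_upd_left (Ne.symm hcc)] at h
    exact h
  have g3 : ∀ a b x x' y, G a b (x + x') y = G a b x y + G a b x' y := by
    intro a b x x' y
    have h := HD_addl (opC κ w) (sgC θ κ w) D hF c' (two c c' p a x) (two c c' q b y) x x'
    rw [two_upd_right, two_upd_right, two_upd_right] at h
    exact h
  have gs : ∀ a b x y, G a b x y = G b a x y := by
    intro a b x y
    have h := HD_symm (opC κ w) (sgC θ κ w) D hF hn (two c c' p a x) (two c c' q b y) a b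
    rw [two_upd_left (Ne.symm hcc), two_upd_left (Ne.symm hcc), two_upd_left (Ne.symm hcc),
      two_upd_left (Ne.symm hcc)] at h
    exact h
  have gE : ∀ a z y, 2 • G a z z y + G z z a y = 0 := by
    intro a z y
    have h := hexch (two c c' p a z) (two c c' q z y) (by
      rw [two_right, two_left (Ne.symm hcc)])
    rw [two_swap (Ne.symm hcc)] at h
    exact h
  have g3t := three_term G g1 g2 g3 gs gE
  have gsk : ∀ a b x y, G (w (κ c) • a) b x y = -G a (w (κ c) • b) x y := by
    intro a b x y
    have h := HD_skew (opC κ w) (sgC θ κ w) D hf hF hFM hn hO'.1 hO'.2.1 (two c c' p a x)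
      (two c c' q b y) a b
    rw [two_upd_left (Ne.symm hcc), two_upd_left (Ne.symm hcc), two_upd_left (Ne.symm hcc),
      two_upd_left (Ne.symm hcc)] at h
    exact h
  have gN : ∀ a b x y, G (w (κ c) • (w (κ c) • a)) b x y = -((d (κ c) : ℂ) • G a b x y) := by
    intro a b x y
    have h := HD_sq (opC κ w) (sgC θ κ w) D hf hF hFM hn hO'.2.1 (two c c' p a x)
      (two c c' q b y) a
    rw [two_upd_left (Ne.symm hcc), two_upd_left (Ne.symm hcc)] at h
    exact h
  have key := four_alt G (smulAddHom R V (w (κ c))) σ (d (κ c)) (om_sg hO') g3t gsk gN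
    (p c) (q c) (p c') (q c')
  conv_lhs => rw [hq]
  exact key

include hO hf hF hFM in
theorem HH_swap {c c' : Fin e} (hκ : κ c = κ c') (p q : Fin e → V) :
    HH θ κ w F (p ∘ Equiv.swap c c') (q ∘ Equiv.swap c c') = HH θ κ w F p q := by
  by_cases hcc : c' = c
  · subst hcc
    simp
  by_cases hc : IsCM (θ (κ c))
  · have hm : c ∈ cmC θ κ := mem_cmC.mpr hc
    have hm' : c' ∈ cmC θ κ := mem_cmC.mpr (by rw [← hκ]; exact hc)
    have hn : c ∉ ((cmC θ κ).erase c).erase c' := fun h =>
      Finset.notMem_erase c (cmC θ κ) (Finset.mem_of_mem_erase h)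
    have hn' : c' ∉ ((cmC θ κ).erase c).erase c' := Finset.notMem_erase c' _
    have hsg : sgC θ κ w c' = sgC θ κ w c := by
      unfold sgC
      rw [hκ]
    have hswap : ∀ (p q : Fin e → V),
        HD (opC κ w) (sgC θ κ w) (((cmC θ κ).erase c).erase c') F
          (p ∘ Equiv.swap c c') (q ∘ Equiv.swap c c') =
        HD (opC κ w) (sgC θ κ w) (((cmC θ κ).erase c).erase c') F p q :=
      fun p q => HD_swap _ _ _ hn hn' (fun p q => pol_swap' hf hF hFM hκ p q) p q
    have hp : p = two c c' p (p c) (p c') := (two_self p).symm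
    have hps : p ∘ Equiv.swap c c' = two c c' p (p c') (p c) := by
      conv_lhs => rw [hp]
      rw [two_swap (Ne.symm hcc)]
    rw [hps]
    conv_rhs => rw [hp]
    rw [HH_two hcc hm hm', HH_two hcc hm hm', hsg, ← hκ]
    have e1 : ∀ a x : V, HD (opC κ w) (sgC θ κ w) (((cmC θ κ).erase c).erase c') F
        (two c c' p x a) (q ∘ Equiv.swap c c') =
        HD (opC κ w) (sgC θ κ w) (((cmC θ κ).erase c).erase c') F (two c c' p a x) q := by
      intro a x
      rw [← two_swap (Ne.symm hcc) p a x, hswap]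
    rw [e1, e1, e1, e1]
    module
  · have hn : c ∉ cmC θ κ := fun h => hc (mem_cmC.mp h)
    have hn' : c' ∉ cmC θ κ := fun h => hc (by rw [hκ]; exact mem_cmC.mp h)
    exact HD_swap _ _ _ hn hn' (fun p q => pol_swap' hf hF hFM hκ p q) p q

include hO hf hF hFM in
theorem HH_exch {c c' : Fin e} (hcc : c' ≠ c) (hκ : κ c' = κ c) (p q : Fin e → V)
    (hpq : p c' = q c) :
    wt θ (κ c') • HH θ κ w F p q + HH θ κ w F (p ∘ Equiv.swap c c') q = 0 := by
  by_cases hc : IsCM (θ (κ c))
  · have h1 : wt θ (κ c') = 1 := by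
      unfold wt
      rw [hκ, if_pos hc]
    rw [h1, one_smul]
    exact HH_alt hO hf hF hFM hcc hκ hc p q
  · have h1 : wt θ (κ c') = 2 := by
      unfold wt
      rw [hκ, if_neg hc]
    have hn : c ∉ cmC θ κ := fun h => hc (mem_cmC.mp h)
    have hn' : c' ∉ cmC θ κ := fun h => hc (by rw [← hκ]; exact mem_cmC.mp h)
    rw [h1]
    exact HD_exch _ _ _ hn hn' (fun p q h => pol_exch hf hF hFM hcc hκ p q h) p q hpq

include hO hf hF hFM in
theorem herm_of (hθ : ∀ i, Quad (θ i)) : Herm θ κ (HH θ κ w F) where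
  addl c p q x y := HD_addl _ _ _ hF c p q x y
  addr c p q x y := HD_addr _ _ _ hF c p q x y
  smull c p q r x := HH_smull hθ hO hf hF hFM c p q r x
  smulr c p q r x := HH_smulr hθ hO hf hF hFM c p q r x
  exch c c' hcc hκ p q hpq := HH_exch hO hf hF hFM hcc hκ p q hpq
  swap c c' hκ p q := HH_swap hO hf hF hFM hκ p q

end

end Pool.Agent.ZC.AC
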