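import Pool.Agent.Lib.MP_a1cc03_ag.AC.R0
import Pool.Agent.Lib.MP_a1cc03_ag.LC.R1a

/-! # Row R1: the alternating sum over permutations of `p` and `q` -/

namespace Pool.Agent.ZC.AC

open Equiv

variable {k₀ : Type*} [Field k₀] [CharZero k₀] {U : Type*} [AddCommGroup U] [Module k₀ U]
  {V ι C C' : Type*} [Fintype C] [Fintype C'] [DecidableEq C] [DecidableEq C'] [DecidableEq ι]

/-- Step (i) of Row R1. -/
theorem R1_step (inc : C → C') (hinc : Function.Injective inc) (κ : C' → ι)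
    (F : (C' → V) → (C → V) → U)
    (hS : ∀ (c c' : C), κ (inc c) = κ (inc c') → ∀ (p : C' → V) (q : C → V),
        F (p ∘ swap (inc c) (inc c')) (q ∘ swap c c') = F p q)
    (σ : Perm C) (hσ : ∀ c, κ (inc (σ c)) = κ (inc c)) :
    ∀ (p : C' → V) (q : C → V),
      ∑ τ : Perm C' with ∀ c, κ (τ c) = κ c, ((Perm.sign τ : ℤˣ) : ℤ) • F (p ∘ τ) (q ∘ σ)
        = ((Perm.sign σ : ℤˣ) : ℤ) •
          ∑ τ : Perm C' with ∀ c, κ (τ c) = κ c, ((Perm.sign τ : ℤˣ) : ℤ) • F (p ∘ τ) q := by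
  refine LC.class_swap_induction (fun c => κ (inc c)) (fun σ => ∀ (p : C' → V) (q : C → V),
      ∑ τ : Perm C' with ∀ c, κ (τ c) = κ c, ((Perm.sign τ : ℤˣ) : ℤ) • F (p ∘ τ) (q ∘ σ)
        = ((Perm.sign σ : ℤˣ) : ℤ) •
          ∑ τ : Perm C' with ∀ c, κ (τ c) = κ c, ((Perm.sign τ : ℤˣ) : ℤ) • F (p ∘ τ) q)
      ?_ ?_ σ hσ
  · intro p q
    simp
  · intro σ c c' hne hκ _ ih p q
    have hne' : inc c ≠ inc c' := fun h => hne (hinc h)
    rw [Perm.sign_mul, Perm.sign_swap hne, mul_neg, mul_one, Units.val_neg, neg_smul, ← ih p q,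
      ← Finset.sum_neg_distrib]
    refine Finset.sum_nbij' (fun τ => τ * swap (inc c) (inc c')) (fun τ => τ * swap (inc c) (inc c'))
      ?_ ?_ ?_ ?_ ?_
    · intro τ hτ
      rw [Finset.mem_filter] at hτ ⊢
      refine ⟨Finset.mem_univ _, fun x => ?_⟩
      rw [Perm.mul_apply, hτ.2]
      by_cases h1 : x = inc c
      · rw [h1, swap_apply_left]; exact hκ.symm
      · by_cases h2 : x = inc c'
        · rw [h2, swap_apply_right]; exact hκ
        · rw [swap_apply_of_ne_of_ne h1 h2]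
    · intro τ hτ
      rw [Finset.mem_filter] at hτ ⊢
      refine ⟨Finset.mem_univ _, fun x => ?_⟩
      rw [Perm.mul_apply, hτ.2]
      by_cases h1 : x = inc c
      · rw [h1, swap_apply_left]; exact hκ.symm
      · by_cases h2 : x = inc c'
        · rw [h2, swap_apply_right]; exact hκ
        · rw [swap_apply_of_ne_of_ne h1 h2]
    · intro τ _
      rw [mul_assoc, swap_mul_self, mul_one]
    · intro τ _
      rw [mul_assoc, swap_mul_self, mul_one]
    · intro τ _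
      rw [Perm.sign_mul, Perm.sign_swap hne', mul_neg, mul_one, Units.val_neg, neg_smul, neg_neg]
      congr 1
      have h1 := hS c c' hκ (p ∘ ⇑(τ * swap (inc c) (inc c'))) (q ∘ σ)
      rw [← h1]
      congr 1
      · funext x
        simp [Function.comp, Perm.mul_apply]

/-- **Row R1b.** Assume also that `F` is invariant under exchanging two columns of the same class in `p` and `q`.
Then the doubly alternating sum is a positive multiple of `F u (u ∘ inc)`.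
Proof: (i) for all `p q` and `σ` preserving classes (`class_swap_induction`, on `σ`, generalising `q`),
`∑ τ, sign τ • F (p ∘ τ) (q ∘ σ) = sign σ • ∑ τ, sign τ • F (p ∘ τ) q`: for `σ * swap c c'` use `(S)`:
`F (p ∘ τ) (q ∘ σ ∘ swap c c') = F (p ∘ τ ∘ swap (inc c) (inc c')) (q ∘ σ)` and reindex
`τ ↦ τ * swap (inc c) (inc c')` (the sums run over the finset of `τ` preserving classes).
(ii) so the double sum is `(number of σ) • ∑ τ, sign τ • F (u ∘ τ) (u ∘ inc)`, and by `signed_eval` (R0) every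
term is `r τ • F u (u ∘ inc)`. `R = (number of σ) * ∑ r τ > 0` (the identity is in both sums). -/
theorem double_sum (inc : C → C') (hinc : Function.Injective inc)
    (hone : ∀ a b : C', a ∉ Set.range inc → b ∉ Set.range inc → a = b) (κ : C' → ι)
    (t : ι → ℕ) (ht : ∀ i, 0 < t i) :
    ∃ R : ℚ, 0 < R ∧ ∀ F : (C' → V) → (C → V) → U,
      (∀ (c : C) (c' : C'), c' ≠ inc c → κ c' = κ (inc c) → ∀ (p : C' → V) (q : C → V), p c' = q c →
        t (κ c') • F p q + F (p ∘ swap (inc c) c') q = 0) →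
      (∀ (c c' : C), κ (inc c) = κ (inc c') → ∀ (p : C' → V) (q : C → V),
        F (p ∘ swap (inc c) (inc c')) (q ∘ swap c c') = F p q) →
      ∀ u : C' → V,
        ∑ τ : Perm C' with ∀ c, κ (τ c) = κ c, ∑ σ : Perm C with ∀ c, κ (inc (σ c)) = κ (inc c),
          (((Perm.sign τ : ℤˣ) : ℤ) * ((Perm.sign σ : ℤˣ) : ℤ)) • F (u ∘ τ) (u ∘ inc ∘ σ)
        = (R : k₀) • F u (u ∘ inc) := by
  classical
  choose r hr0 hr using fun (τ : Perm C') (hτ : ∀ c, κ (τ c) = κ c) =>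
    signed_eval (k₀ := k₀) (U := U) (V := V) inc hinc hone κ t ht τ hτ
  set S' : Finset (Perm C') := Finset.univ.filter (fun τ => ∀ c, κ (τ c) = κ c) with hS'
  set S : Finset (Perm C) := Finset.univ.filter (fun σ => ∀ c, κ (inc (σ c)) = κ (inc c)) with hSdef
  have h1' : (1 : Perm C') ∈ S' := by simp [hS']
  have h1 : (1 : Perm C) ∈ S := by simp [hSdef]
  refine ⟨(S.card : ℚ) * ∑ τ ∈ S'.attach, r τ.1 (Finset.mem_filter.1 τ.2).2, ?_, ?_⟩
  · refine mul_pos ?_ ?_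
    · exact_mod_cast Finset.card_pos.2 ⟨1, h1⟩
    · exact Finset.sum_pos (fun τ _ => hr0 _ _) ⟨⟨1, h1'⟩, Finset.mem_attach _ _⟩
  · intro F hZ hS u
    have e1 : ∑ τ ∈ S', ∑ σ ∈ S,
        (((Perm.sign τ : ℤˣ) : ℤ) * ((Perm.sign σ : ℤˣ) : ℤ)) • F (u ∘ τ) (u ∘ inc ∘ σ)
        = ∑ σ ∈ S, ((Perm.sign σ : ℤˣ) : ℤ) •
          ∑ τ ∈ S', ((Perm.sign τ : ℤˣ) : ℤ) • F (u ∘ τ) ((u ∘ inc) ∘ σ) := by
      rw [Finset.sum_comm]
      refine Finset.sum_congr rfl fun σ _ => ?_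
      rw [Finset.smul_sum]
      refine Finset.sum_congr rfl fun τ _ => ?_
      rw [smul_smul, mul_comm]
      rfl
    rw [e1]
    have e2 : ∀ σ ∈ S, ((Perm.sign σ : ℤˣ) : ℤ) •
          ∑ τ ∈ S', ((Perm.sign τ : ℤˣ) : ℤ) • F (u ∘ τ) ((u ∘ inc) ∘ σ)
        = ∑ τ ∈ S', ((Perm.sign τ : ℤˣ) : ℤ) • F (u ∘ τ) (u ∘ inc) := by
      intro σ hσ
      rw [R1_step inc hinc κ F hS σ (Finset.mem_filter.1 hσ).2 u (u ∘ inc), smul_smul,
        ← Units.val_mul, Int.units_mul_self, Units.val_one, one_smul]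
    rw [Finset.sum_congr rfl e2, Finset.sum_const]
    have e3 : ∑ τ ∈ S', ((Perm.sign τ : ℤˣ) : ℤ) • F (u ∘ τ) (u ∘ inc)
        = ∑ τ ∈ S'.attach, ((r τ.1 (Finset.mem_filter.1 τ.2).2 : ℚ) : k₀) • F u (u ∘ inc) := by
      rw [← Finset.sum_attach]
      exact Finset.sum_congr rfl fun τ _ => hr τ.1 (Finset.mem_filter.1 τ.2).2 F hZ u
    rw [e3, ← Finset.sum_smul]
    push_cast
    rw [mul_smul, ← Nat.cast_smul_eq_nsmul k₀]

end Pool.Agent.ZC.AC
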