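import Pool.Agent.Lib.MP_a1cc03_ag.AC.Alg
import Pool.Agent.Lib.MP_a1cc03_ag.AC.Hj
import Pool.Agent.Lib.MP_a1cc03_ag.AC.G1
import Pool.Agent.Lib.MP_a1cc03_ag.AC.R1

/-! # The hermitian first fundamental theorem -/

namespace Pool.Agent.ZC.AC

open ComplexConjugate

variable {R : Type} [CommRing R] {U : Type} [AddCommGroup U] [Module ℂ U] {ι : Type} [DecidableEq ι]
  {e n : ℕ}

/-- **Row T0.** -/
theorem fft_zero (θ : ι → R →+* ℂ) (hθ : ∀ i, Quad (θ i)) (j : Fin n → ι) (κ : Fin e → ι)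
    (f : (Fin e → Fin n → R) → U) (hf : Inv θ κ f) :
    ∃ g : (Fin e → Fin n) → (Fin e → Fin n) → U, ∀ M : Fin e → Fin n → R,
      (∀ c k, κ c ≠ j k → M c k = 0) →
      f M = ∑ I : Fin e → Fin n, ∑ J : Fin e → Fin n,
        (cminor (cmat θ j M) I * conj (cminor (cmat θ j M) J)) • g I J := by
  classical
  obtain ⟨F, hF, hFM⟩ := polarize (k₀ := ℂ) f hf.mq
  obtain ⟨w, d, hO⟩ := exists_om hθ
  have hH := herm_of hO hf hF hFM hθ
  have hd := HH_diag hO hf hF hFM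
  obtain ⟨Q, hQ, hds⟩ := double_sum (k₀ := ℂ) (U := U) (V := Fin n → R) (C := Fin e) (C' := Fin e)
    id Function.injective_id (fun a b ha _ => absurd ⟨a, rfl⟩ ha) κ (wt θ) (wt_pos θ)
  refine ⟨fun I J => ((Q : ℂ)⁻¹) • (if (∀ c, j (I c) = κ c) ∧ (∀ c, j (J c) = κ (id c)) then
      HH θ κ w F (fun c => Pi.single (I c) 1) (fun c => Pi.single (J c) 1) else 0), fun M hM => ?_⟩
  have hR0 : (Q : ℂ) ≠ 0 := by
    exact_mod_cast hQ.ne'
  have h3 := hds (HH θ κ w F) (fun c c' hcc hκ p q hpq => hH.exch c c' hcc hκ p q hpq)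
    (fun c c' hκ p q => hH.swap c c' hκ p q) M
  have h4 := double_sum_coord (id : Fin e → Fin e) θ j κ (HH θ κ w F)
    (fun p q c x y => hH.addl c p q x y) (fun p q c x y => hH.addr c p q x y)
    (fun p q c r x => hH.smull c p q r x) (fun p q c r x => hH.smulr c p q r x) M hM
  rw [h3] at h4
  have h5 : HH θ κ w F M (M ∘ id) = f M := hd M
  rw [h5] at h4
  have h6 : f M = (Q : ℂ)⁻¹ • ((Q : ℂ) • f M) := by
    rw [smul_smul, inv_mul_cancel₀ hR0, one_smul]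
  rw [h6, h4, Finset.smul_sum]
  refine Finset.sum_congr rfl fun I _ => ?_
  rw [Finset.smul_sum]
  refine Finset.sum_congr rfl fun J _ => ?_
  rw [smul_comm]
  congr 1
  congr!

end Pool.Agent.ZC.AC
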