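import Pool.Agent.Lib.MP_a1cc03_ag.AC.T1a

/-! # The hermitian first fundamental theorem with one linear argument: the holomorphic case -/

namespace Pool.Agent.ZC.AC

open ComplexConjugate

variable {R : Type} [CommRing R] {U : Type} [AddCommGroup U] [Module ℂ U] {ι : Type} [DecidableEq ι]
  {e n : ℕ}

/-- The theorem for a point argument in which the function is `θ i`-linear. -/
theorem fft_hol (θ : ι → R →+* ℂ) (hθ : ∀ i, Quad (θ i)) (j : Fin n → ι) (κ : Fin e → ι) (i : ι)
    (f : (Fin e → Fin n → R) → ((Fin n → R) →+ U)) (hf : Inv θ κ f)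
    (hvan : ∀ (M : Fin e → Fin n → R) (c : Fin e), κ c = i → f M (M c) = 0)
    (hlin : ∀ (M : Fin e → Fin n → R) (r : R) (v : Fin n → R), f M (r • v) = θ i r • f M v) :
    ∃ g : (Fin (e + 1) → Fin n) → (Fin e → Fin n) → U,
      ∀ (M : Fin e → Fin n → R) (v : Fin n → R),
      (∀ c k, κ c ≠ j k → M c k = 0) → (∀ k, i ≠ j k → v k = 0) →
      f M v = ∑ L : Fin (e + 1) → Fin n, ∑ J : Fin e → Fin n,
          (cpminor (cmat θ j M) (fun k => θ (j k) (v k)) L * conj (cminor (cmat θ j M) J)) •
            g L J := by
  classical
  obtain ⟨F, hF, hFM⟩ := polarize (k₀ := ℂ) f hf.mq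
  obtain ⟨w, d, hO⟩ := exists_om hθ
  have hH := herm_of hO hf hF hFM hθ
  have hd := HH_diag hO hf hF hFM
  set H := HH θ κ w F with hHdef
  let κ' : Fin (e + 1) → ι := Fin.snoc (α := fun _ => ι) κ i
  have hκc : ∀ c : Fin e, κ' c.castSucc = κ c := fun c => by simp [κ']
  have hκl : κ' (Fin.last e) = i := by simp [κ']
  let F' : (Fin (e + 1) → Fin n → R) → (Fin e → Fin n → R) → U :=
    fun p q => H (fun c => p c.castSucc) q (p (Fin.last e))
  have hsw : ∀ (c d : Fin e) (p : Fin (e + 1) → Fin n → R),
      (fun b : Fin e => (p ∘ Equiv.swap (Fin.castSucc c) (Fin.castSucc d)) b.castSucc)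
        = (fun b => p b.castSucc) ∘ Equiv.swap c d := by
    intro c d p
    funext b
    simp only [Function.comp_apply]
    congr 1
    by_cases hb : b = c
    · subst hb
      rw [Equiv.swap_apply_left, Equiv.swap_apply_left]
    · by_cases hb' : b = d
      · subst hb'
        rw [Equiv.swap_apply_right, Equiv.swap_apply_right]
      · rw [Equiv.swap_apply_of_ne_of_ne hb hb',
          Equiv.swap_apply_of_ne_of_ne (fun h => hb (Fin.castSucc_injective _ h))
            (fun h => hb' (Fin.castSucc_injective _ h))]
  have hswl : ∀ (c d : Fin e) (p : Fin (e + 1) → Fin n → R),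
      (p ∘ Equiv.swap (Fin.castSucc c) (Fin.castSucc d)) (Fin.last e) = p (Fin.last e) := by
    intro c d p
    rw [Function.comp_apply, Equiv.swap_apply_of_ne_of_ne (Fin.castSucc_lt_last c).ne'
      (Fin.castSucc_lt_last d).ne']
  have hZ : ∀ (c : Fin e) (c' : Fin (e + 1)), c' ≠ Fin.castSucc c → κ' c' = κ' (Fin.castSucc c) →
      ∀ (p : Fin (e + 1) → Fin n → R) (q : Fin e → Fin n → R), p c' = q c →
        wt θ (κ' c') • F' p q + F' (p ∘ Equiv.swap (Fin.castSucc c) c') q = 0 := by
    intro c c' hcc hκ p q hpq
    induction c' using Fin.lastCases with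
    | last =>
      rw [hκl, hκc] at hκ
      have h := HH_exchp hO hf hF hFM hlin hvan hκ.symm (fun b => p b.castSucc) q
      rw [← hHdef] at h
      have e1 : F' p q = H (fun b => p b.castSucc) q (q c) := by
        simp only [F', hpq]
      have e2 : F' (p ∘ Equiv.swap (Fin.castSucc c) (Fin.last e)) q
          = H (Function.update (fun b => p b.castSucc) c (q c)) q (p c.castSucc) := by
        have e3 : (fun b : Fin e => (p ∘ Equiv.swap (Fin.castSucc c) (Fin.last e)) b.castSucc)
            = Function.update (fun b => p b.castSucc) c (q c) := by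
          funext b
          by_cases hb : b = c
          · subst hb
            rw [Function.update_self, Function.comp_apply, Equiv.swap_apply_left, hpq]
          · rw [Function.update_of_ne hb, Function.comp_apply,
              Equiv.swap_apply_of_ne_of_ne (fun h => hb (Fin.castSucc_injective _ h))
                (Fin.castSucc_lt_last b).ne]
        simp only [F']
        rw [e3, Function.comp_apply, Equiv.swap_apply_right]
      rw [e1, e2, hκl]
      exact h
    | cast d =>
      rw [hκc, hκc] at hκ
      have hdc : d ≠ c := fun h => hcc (by rw [h])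
      have h := hH.exch c d hdc hκ (fun b => p b.castSucc) q hpq
      have h5 := DFunLike.congr_fun h (p (Fin.last e))
      simp only [F']
      rw [hsw, hswl, hκc]
      exact h5
  have hS : ∀ (c c' : Fin e), κ' (Fin.castSucc c) = κ' (Fin.castSucc c') →
      ∀ (p : Fin (e + 1) → Fin n → R) (q : Fin e → Fin n → R),
      F' (p ∘ Equiv.swap (Fin.castSucc c) (Fin.castSucc c')) (q ∘ Equiv.swap c c') = F' p q := by
    intro c c' hκ p q
    rw [hκc, hκc] at hκ
    have h := hH.swap c c' hκ (fun b => p b.castSucc) q
    simp only [F']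
    rw [hsw, hswl, h]
  obtain ⟨Q, hQ, hds⟩ := double_sum (k₀ := ℂ) (U := U) (V := Fin n → R) (C := Fin e)
    (C' := Fin (e + 1)) Fin.castSucc (Fin.castSucc_injective e) (by
      intro a b ha hb
      induction a using Fin.lastCases with
      | last =>
        induction b using Fin.lastCases with
        | last => rfl
        | cast b => exact absurd ⟨b, rfl⟩ hb
      | cast a => exact absurd ⟨a, rfl⟩ ha) κ' (wt θ) (wt_pos θ)
  have hupl : ∀ (p : Fin (e + 1) → Fin n → R) (q : Fin e → Fin n → R) (z : Fin n → R),
      F' (Function.update p (Fin.last e) z) q = H (fun b => p b.castSucc) q z := by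
    intro p q z
    have e2 : (fun b : Fin e => Function.update p (Fin.last e) z b.castSucc)
        = fun b => p b.castSucc := by
      funext b
      rw [Function.update_of_ne (Fin.castSucc_lt_last b).ne]
    simp only [F']
    rw [e2, Function.update_self]
  have hupc : ∀ (p : Fin (e + 1) → Fin n → R) (q : Fin e → Fin n → R) (c : Fin e) (z : Fin n → R),
      F' (Function.update p c.castSucc z) q
        = H (Function.update (fun b => p b.castSucc) c z) q (p (Fin.last e)) := by
    intro p q c z
    have e2 : (fun b : Fin e => Function.update p c.castSucc z b.castSucc)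
        = Function.update (fun b => p b.castSucc) c z := by
      funext b
      by_cases hb : b = c
      · subst hb
        rw [Function.update_self, Function.update_self]
      · rw [Function.update_of_ne hb,
          Function.update_of_ne (fun h => hb (Fin.castSucc_injective _ h))]
    simp only [F']
    rw [e2, Function.update_of_ne (Fin.castSucc_lt_last c).ne']
  have h1 : ∀ (p : Fin (e + 1) → Fin n → R) (q : Fin e → Fin n → R) (c : Fin (e + 1))
      (x y : Fin n → R),
      F' (Function.update p c (x + y)) q
        = F' (Function.update p c x) q + F' (Function.update p c y) q := by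
    intro p q c x y
    induction c using Fin.lastCases with
    | last => rw [hupl, hupl, hupl, map_add]
    | cast c =>
      rw [hupc, hupc, hupc, hH.addl]
      rfl
  have h1s : ∀ (p : Fin (e + 1) → Fin n → R) (q : Fin e → Fin n → R) (c : Fin (e + 1))
      (r : R) (x : Fin n → R),
      F' (Function.update p c (r • x)) q = θ (κ' c) r • F' (Function.update p c x) q := by
    intro p q c r x
    induction c using Fin.lastCases with
    | last =>
      rw [hupl, hupl, hκl]
      exact HD_point hF hFM hlin _ _ _ _ _ r x
    | cast c =>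
      rw [hupc, hupc, hH.smull, hκc]
      rfl
  have h2 : ∀ (p : Fin (e + 1) → Fin n → R) (q : Fin e → Fin n → R) (c : Fin e)
      (x y : Fin n → R),
      F' p (Function.update q c (x + y))
        = F' p (Function.update q c x) + F' p (Function.update q c y) := by
    intro p q c x y
    simp only [F']
    rw [hH.addr]
    rfl
  have h2s : ∀ (p : Fin (e + 1) → Fin n → R) (q : Fin e → Fin n → R) (c : Fin e)
      (r : R) (x : Fin n → R),
      F' p (Function.update q c (r • x))
        = conj (θ (κ' (Fin.castSucc c)) r) • F' p (Function.update q c x) := by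
    intro p q c r x
    simp only [F']
    rw [hH.smulr, hκc]
    rfl
  refine ⟨fun L J => ((Q : ℂ)⁻¹) • (if (∀ c, j (L c) = κ' c) ∧ (∀ c, j (J c) = κ' (Fin.castSucc c))
      then F' (fun c => Pi.single (L c) 1) (fun c => Pi.single (J c) 1) else 0),
    fun M v hM hv => ?_⟩
  have hR0 : (Q : ℂ) ≠ 0 := by
    exact_mod_cast hQ.ne'
  have hu : ∀ c k, κ' c ≠ j k →
      (Fin.snoc (α := fun _ => Fin n → R) M v : Fin (e + 1) → Fin n → R) c k = 0 := by
    intro c k h
    induction c using Fin.lastCases with
    | last =>
      rw [Fin.snoc_last]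
      rw [hκl] at h
      exact hv k h
    | cast c =>
      rw [Fin.snoc_castSucc]
      rw [hκc] at h
      exact hM c k h
  have h3 := hds F' hZ hS (Fin.snoc (α := fun _ => Fin n → R) M v)
  have h4 := double_sum_coord (Fin.castSucc : Fin e → Fin (e + 1)) θ j κ' F' h1 h2 h1s h2s
    (Fin.snoc (α := fun _ => Fin n → R) M v) hu
  rw [h3] at h4
  have e5 : ((Fin.snoc (α := fun _ => Fin n → R) M v : Fin (e + 1) → Fin n → R) ∘ Fin.castSucc)
      = M := by
    funext c
    simp
  have e6 : (fun c : Fin e => (Fin.snoc (α := fun _ => Fin n → R) M v :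
      Fin (e + 1) → Fin n → R) c.castSucc) = M := e5
  have h5 : F' (Fin.snoc (α := fun _ => Fin n → R) M v)
      ((Fin.snoc (α := fun _ => Fin n → R) M v : Fin (e + 1) → Fin n → R) ∘ Fin.castSucc)
      = f M v := by
    rw [e5]
    simp only [F']
    rw [e6, Fin.snoc_last, hd]
  rw [h5] at h4
  have h6 : f M v = (Q : ℂ)⁻¹ • ((Q : ℂ) • f M v) := by
    rw [smul_smul, inv_mul_cancel₀ hR0, one_smul]
  rw [h6, h4, Finset.smul_sum]
  refine Finset.sum_congr rfl fun L _ => ?_
  rw [Finset.smul_sum]
  refine Finset.sum_congr rfl fun J _ => ?_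
  rw [smul_comm]
  have e7 : Matrix.det (Matrix.of fun c r => θ (j (J r)) ((Fin.snoc (α := fun _ => Fin n → R) M v :
      Fin (e + 1) → Fin n → R) (Fin.castSucc c) (J r))) = cminor (cmat θ j M) J := by
    unfold cminor cmat
    congr 1
    ext c r
    simp
  have e8 : Matrix.det (Matrix.of fun c r => θ (j (L r)) ((Fin.snoc (α := fun _ => Fin n → R) M v :
      Fin (e + 1) → Fin n → R) c (L r))) =
      cpminor (cmat θ j M) (fun k => θ (j k) (v k)) L := by
    unfold cpminor cminor
    congr 1
    ext c r
    simp only [Matrix.of_apply]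
    induction c using Fin.lastCases with
    | last => rw [Fin.snoc_last, Fin.snoc_last]
    | cast c =>
      rw [Fin.snoc_castSucc, Fin.snoc_castSucc]
      rfl
  rw [e7, e8]
  congr 1
  congr!

end Pool.Agent.ZC.AC
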