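import Pool.Agent.Lib.MP_a1cc03_ag.AC.T0
import Pool.Agent.Lib.MP_a1cc03_ag.AC.T1b

/-! # The hermitian first fundamental theorem with one linear argument -/

namespace Pool.Agent.ZC.AC

open ComplexConjugate

section Aux

variable {R : Type} [CommRing R] {ι : Type} {e : ℕ} {V : Type*} [AddCommGroup V] [Module R V]

theorem Inv.map {U U' : Type*} [AddCommGroup U] [AddCommGroup U'] {θ : ι → R →+* ℂ}
    {κ : Fin e → ι} {f : (Fin e → V) → U} (hf : Inv θ κ f) (φ : U →+ U') :
    Inv θ κ (fun M => φ (f M)) where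
  mq M c u v := by
    rw [← map_add, hf.mq, map_add, map_nsmul, map_nsmul]
  add M c c' h h' := by rw [hf.add M c c' h h']
  nul M c r u h := by rw [hf.nul M c r u h]
  deg c r := by
    obtain ⟨δ, hδ⟩ := hf.deg c r
    exact ⟨δ, fun M => by rw [hδ, map_nsmul]⟩

theorem Inv.of_inj {U U' : Type*} [AddCommGroup U] [AddCommGroup U'] {θ : ι → R →+* ℂ}
    {κ : Fin e → ι} {f : (Fin e → V) → U} (φ : U →+ U') (hφ : Function.Injective φ)
    (hf : Inv θ κ (fun M => φ (f M))) : Inv θ κ f where
  mq M c u v := by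
    apply hφ
    have h := hf.mq M c u v
    rw [map_add, map_add, map_nsmul, map_nsmul]
    exact h
  add M c c' h h' := hφ (hf.add M c c' h h')
  nul M c r u h := hφ (hf.nul M c r u h)
  deg c r := by
    obtain ⟨δ, hδ⟩ := hf.deg c r
    exact ⟨δ, fun M => hφ (by rw [map_nsmul]; exact hδ M)⟩

theorem Inv.conj_theta {U : Type*} [AddCommGroup U] {θ : ι → R →+* ℂ}
    {κ : Fin e → ι} {f : (Fin e → V) → U} (hf : Inv θ κ f) :
    Inv (fun i => (starRingEnd ℂ).comp (θ i)) κ f where
  mq := hf.mq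
  add := hf.add
  nul M c r u h := hf.nul M c r u (by
    have h1 : conj (θ (κ c) r) = 0 := h
    exact (map_eq_zero _).mp h1)
  deg := hf.deg

theorem Quad.conj_theta {θ : R →+* ℂ} (hθ : Quad θ) : Quad ((starRingEnd ℂ).comp θ) := by
  intro r
  obtain ⟨t, d, ht, hd⟩ := hθ r
  refine ⟨t, d, ?_, ?_⟩
  · change conj (θ r) + conj (conj (θ r)) = t
    rw [Complex.conj_conj, add_comm]
    exact ht
  · change conj (θ r) * conj (conj (θ r)) = d
    rw [Complex.conj_conj, mul_comm]
    exact hd

/-- restriction of the values to a subspace -/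
theorem exists_restrict {U : Type} [AddCommGroup U] [Module ℂ U] {θ : ι → R →+* ℂ}
    {κ : Fin e → ι} {f : (Fin e → V) → (V →+ U)} (hf : Inv θ κ f) (P : Submodule ℂ U)
    (hP : ∀ M v, f M v ∈ P) : ∃ f' : (Fin e → V) → (V →+ P), Inv θ κ f' ∧
      ∀ M v, ((f' M v : P) : U) = f M v := by
  let f' : (Fin e → V) → (V →+ P) := fun M =>
    { toFun := fun v => ⟨f M v, hP M v⟩
      map_zero' := Subtype.ext (map_zero (f M))
      map_add' := fun x y => Subtype.ext (map_add (f M) x y) }
  refine ⟨f', ?_, fun _ _ => rfl⟩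
  let φ : (V →+ P) →+ (V →+ U) :=
    { toFun := fun g => P.subtype.toAddMonoidHom.comp g
      map_zero' := by
        ext v
        rfl
      map_add' := fun g h => by
        ext v
        rfl }
  refine Inv.of_inj φ ?_ ?_
  · intro g h hgh
    ext v
    exact DFunLike.congr_fun hgh v
  · have h1 : (fun M => φ (f' M)) = f := by
      funext M
      ext v
      rfl
    rw [h1]
    exact hf

/-- the projection to an eigenspace -/
noncomputable def eig {U : Type*} [AddCommGroup U] [Module ℂ U] (a : ℂ) (w : R) :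
    (V →+ U) →+ (V →+ U) where
  toFun φ := (1 / 2 : ℂ) • (φ + a • φ.comp (smulAddHom R V w))
  map_zero' := by
    ext v
    simp
  map_add' φ ψ := by
    ext v
    simp only [AddMonoidHom.smul_apply, AddMonoidHom.add_apply, AddMonoidHom.comp_apply, smul_add]
    abel

theorem eig_apply {U : Type*} [AddCommGroup U] [Module ℂ U] (a : ℂ) (w : R) (φ : V →+ U) (v : V) :
    eig a w φ v = (1 / 2 : ℂ) • (φ v + a • φ (w • v)) := rfl

end Aux

variable {R : Type} [CommRing R] {U : Type} [AddCommGroup U] [Module ℂ U] {ι : Type} [DecidableEq ι]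
  {e n : ℕ}

/-- the holomorphic theorem with control of the values -/
theorem fft_holP (θ : ι → R →+* ℂ) (hθ : ∀ i, Quad (θ i)) (j : Fin n → ι) (κ : Fin e → ι) (i : ι)
    (f : (Fin e → Fin n → R) → ((Fin n → R) →+ U)) (hf : Inv θ κ f)
    (hvan : ∀ (M : Fin e → Fin n → R) (c : Fin e), κ c = i → f M (M c) = 0)
    (hlin : ∀ (M : Fin e → Fin n → R) (r : R) (v : Fin n → R), f M (r • v) = θ i r • f M v)
    (P : Submodule ℂ U) (hP : ∀ M v, f M v ∈ P) :
    ∃ g : (Fin (e + 1) → Fin n) → (Fin e → Fin n) → U, (∀ L J, g L J ∈ P) ∧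
      ∀ (M : Fin e → Fin n → R) (v : Fin n → R),
      (∀ c k, κ c ≠ j k → M c k = 0) → (∀ k, i ≠ j k → v k = 0) →
      f M v = ∑ L : Fin (e + 1) → Fin n, ∑ J : Fin e → Fin n,
          (cpminor (cmat θ j M) (fun k => θ (j k) (v k)) L * conj (cminor (cmat θ j M) J)) •
            g L J := by
  obtain ⟨f', hf', hff'⟩ := exists_restrict hf P hP
  obtain ⟨g, hg⟩ := fft_hol θ hθ j κ i f' hf'
    (fun M c hc => Subtype.ext ((hff' M (M c)).trans (hvan M c hc)))
    (fun M r v => Subtype.ext (by
      rw [hff', Submodule.coe_smul, hff', hlin]))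
  refine ⟨fun L J => ((g L J : P) : U), fun L J => (g L J).2, fun M v hM hv => ?_⟩
  rw [← hff', hg M v hM hv]
  simp only [Submodule.coe_sum, Submodule.coe_smul]

/-- **Row T1.** -/
theorem fft_one (θ : ι → R →+* ℂ) (hθ : ∀ i, Quad (θ i)) (j : Fin n → ι) (κ : Fin e → ι) (i : ι)
    (f : (Fin e → Fin n → R) → ((Fin n → R) →+ U)) (hf : Inv θ κ f)
    (hvan : ∀ (M : Fin e → Fin n → R) (c : Fin e), κ c = i → f M (M c) = 0)
    (hnul : ∀ (M : Fin e → Fin n → R) (r : R) (v : Fin n → R), θ i r = 0 → f M (r • v) = 0)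
    (T : R → (U →ₗ[ℂ] U))
    (hT : ∀ (M : Fin e → Fin n → R) (r : R) (v : Fin n → R), f M (r • v) = T r (f M v)) :
    ∃ g₁ g₂ : (Fin (e + 1) → Fin n) → (Fin e → Fin n) → U,
      (∀ r L J, T r (g₁ L J) = θ i r • g₁ L J) ∧
      (∀ r L J, T r (g₂ L J) = conj (θ i r) • g₂ L J) ∧
      ∀ (M : Fin e → Fin n → R) (v : Fin n → R),
      (∀ c k, κ c ≠ j k → M c k = 0) → (∀ k, i ≠ j k → v k = 0) →
      f M v = ∑ L : Fin (e + 1) → Fin n, ∑ J : Fin e → Fin n,
          (cpminor (cmat θ j M) (fun k => θ (j k) (v k)) L * conj (cminor (cmat θ j M) J)) • g₁ L J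
        + ∑ L : Fin (e + 1) → Fin n, ∑ J : Fin e → Fin n,
          (conj (cpminor (cmat θ j M) (fun k => θ (j k) (v k)) L) * cminor (cmat θ j M) J) • g₂ L J := by
  classical
  have hcong : ∀ (M : Fin e → Fin n → R) (r s : R) (u : Fin n → R), θ i r = θ i s →
      f M (r • u) = f M (s • u) := by
    intro M r s u h
    have h1 : r • u = s • u + (r - s) • u := by
      rw [← add_smul, add_sub_cancel]
    rw [h1, map_add, hnul M (r - s) u (by rw [map_sub, h, sub_self]), add_zero]
  let P₁ : Submodule ℂ U :=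
    { carrier := {u | ∀ r, T r u = θ i r • u}
      zero_mem' := fun r => by rw [map_zero, smul_zero]
      add_mem' := fun {a b} ha hb r => by rw [map_add, ha r, hb r, smul_add]
      smul_mem' := fun c x hx r => by rw [map_smul, hx r, smul_comm] }
  let P₂ : Submodule ℂ U :=
    { carrier := {u | ∀ r, T r u = conj (θ i r) • u}
      zero_mem' := fun r => by rw [map_zero, smul_zero]
      add_mem' := fun {a b} ha hb r => by rw [map_add, ha r, hb r, smul_add]
      smul_mem' := fun c x hx r => by rw [map_smul, hx r, smul_comm] }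
  by_cases hi : IsCM (θ i)
  · obtain ⟨w, d, hO⟩ := exists_omega (hθ i) hi
    have hO' : OmP (θ i) w d := hO
    have hw0 := om_ne hO'
    have hsq : ∀ M (v : Fin n → R), f M (w • (w • v)) = -((d : ℂ) • f M v) := by
      intro M v
      rw [← mul_smul, hcong M (w * w) (-(d : R)) v (by
        rw [map_mul, hO.2.1, map_neg, map_natCast])]
      have h3 : (-(d : R)) • v = (-(d : ℤ)) • v := by
        rw [neg_smul, neg_smul, Nat.cast_smul_eq_nsmul, natCast_zsmul]
      rw [h3, map_zsmul, neg_smul, natCast_zsmul, Nat.cast_smul_eq_nsmul]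
    have hTe : ∀ (a : ℂ) M (v : Fin n → R) (r : R),
        T r (eig a w (f M) v) = eig a w (f M) (r • v) := by
      intro a M v r
      rw [eig_apply, eig_apply, map_smul, map_add, map_smul, ← hT, ← hT, smul_comm r w v]
    have hvan' : ∀ (a : ℂ) (M : Fin e → Fin n → R) (c : Fin e), κ c = i →
        eig a w (f M) (M c) = 0 := by
      intro a M c hc
      rw [eig_apply, hT, hvan M c hc, map_zero, smul_zero, add_zero, smul_zero]
    have hcong' : ∀ (a : ℂ) (M : Fin e → Fin n → R) (r s : R) (u : Fin n → R), θ i r = θ i s →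
        eig a w (f M) (r • u) = eig a w (f M) (s • u) := by
      intro a M r s u h
      rw [eig_apply, eig_apply, hcong M r s u h, smul_smul, smul_smul,
        hcong M (w * r) (w * s) u (by rw [map_mul, map_mul, h])]
    -- the two eigenspaces
    have hwp : ∀ M (v : Fin n → R), eig (θ i w)⁻¹ w (f M) (w • v) =
        θ i w • eig (θ i w)⁻¹ w (f M) v := by
      intro M v
      rw [eig_apply, eig_apply, hsq, smul_comm (θ i w) (1 / 2 : ℂ), smul_add (θ i w), smul_smul,
        mul_inv_cancel₀ hw0, one_smul, smul_neg, smul_smul]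
      have h1 : -((θ i w)⁻¹ * (d : ℂ)) = θ i w := by
        have h2 := hO.2.1
        field_simp
        linear_combination -h2
      rw [← neg_smul, h1, add_comm]
    have hwm : ∀ M (v : Fin n → R), eig (-(θ i w)⁻¹) w (f M) (w • v) =
        conj (θ i w) • eig (-(θ i w)⁻¹) w (f M) v := by
      intro M v
      rw [eig_apply, eig_apply, hsq, smul_comm (conj (θ i w)) (1 / 2 : ℂ),
        smul_add (conj (θ i w)), smul_smul, hO.2.2.1, neg_mul_neg, mul_inv_cancel₀ hw0, one_smul,
        smul_neg, smul_smul]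
      have h1 : -(-(θ i w)⁻¹ * (d : ℂ)) = -θ i w := by
        have h2 := hO.2.1
        field_simp
        linear_combination h2
      rw [← neg_smul, h1, add_comm]
    have hlp : ∀ M (r : R) (v : Fin n → R), eig (θ i w)⁻¹ w (f M) (r • v) =
        θ i r • eig (θ i w)⁻¹ w (f M) v := fun M r v =>
      lin_of_w hO' (eig (θ i w)⁻¹ w (f M)) (RingHom.id ℂ)
        (fun r s u h => hcong' _ M r s u h) (hwp M) r v
    have hlm : ∀ M (r : R) (v : Fin n → R), eig (-(θ i w)⁻¹) w (f M) (r • v) =
        conj (θ i r) • eig (-(θ i w)⁻¹) w (f M) v := fun M r v =>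
      lin_of_w hO' (eig (-(θ i w)⁻¹) w (f M)) (starRingEnd ℂ)
        (fun r s u h => hcong' _ M r s u h) (hwm M) r v
    obtain ⟨g₁, hg₁P, hg₁⟩ := fft_holP θ hθ j κ i (fun M => eig (θ i w)⁻¹ w (f M))
      (hf.map (eig (θ i w)⁻¹ w)) (hvan' _) hlp P₁ (fun M v r => by rw [hTe, hlp])
    obtain ⟨g₂, hg₂P, hg₂⟩ := fft_holP (fun i => (starRingEnd ℂ).comp (θ i))
      (fun i => (hθ i).conj_theta) j κ i (fun M => eig (-(θ i w)⁻¹) w (f M))
      (hf.map (eig (-(θ i w)⁻¹) w)).conj_theta (hvan' _) hlm P₂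
      (fun M v r => by rw [hTe, hlm])
    refine ⟨g₁, g₂, fun r L J => hg₁P L J r, fun r L J => hg₂P L J r, fun M v hM hv => ?_⟩
    have hsum : f M v = eig (θ i w)⁻¹ w (f M) v + eig (-(θ i w)⁻¹) w (f M) v := by
      rw [eig_apply, eig_apply]
      module
    have hcm : ∀ J, cminor (cmat (fun i => (starRingEnd ℂ).comp (θ i)) j M) J =
        conj (cminor (cmat θ j M) J) := by
      intro J
      unfold cminor cmat
      rw [RingHom.map_det]
      rfl
    have hcp : ∀ L, cpminor (cmat (fun i => (starRingEnd ℂ).comp (θ i)) j M)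
        (fun k => ((starRingEnd ℂ).comp (θ (j k))) (v k)) L =
        conj (cpminor (cmat θ j M) (fun k => θ (j k) (v k)) L) := by
      intro L
      unfold cpminor cminor
      rw [RingHom.map_det]
      congr 1
      ext c r
      simp only [Matrix.of_apply, RingHom.mapMatrix_apply, Matrix.map_apply]
      induction c using Fin.lastCases with
      | last => rw [Fin.snoc_last, Fin.snoc_last]; rfl
      | cast c => rw [Fin.snoc_castSucc, Fin.snoc_castSucc]; rfl
    rw [hsum, hg₁ M v hM hv, hg₂ M v hM hv]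
    congr 1
    refine Finset.sum_congr rfl fun L _ => Finset.sum_congr rfl fun J _ => ?_
    rw [hcm, hcp, Complex.conj_conj]
  · have hlin : ∀ (M : Fin e → Fin n → R) (r : R) (v : Fin n → R),
        f M (r • v) = θ i r • f M v := fun M r v =>
      lin_of_real (hθ i) hi (f M) (fun r s u h => hcong M r s u h) r v
    obtain ⟨g, hgP, hg⟩ := fft_holP θ hθ j κ i f hf hvan hlin P₁ (fun M v r => by
      rw [← hT, hlin])
    refine ⟨g, fun _ _ => 0, fun r L J => hgP L J r, fun r L J => by rw [map_zero, smul_zero],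
      fun M v hM hv => ?_⟩
    rw [hg M v hM hv]
    simp only [smul_zero, Finset.sum_const_zero, add_zero]

end Pool.Agent.ZC.AC
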