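import Pool.Agent.Lib.MP_a1cc03_ag.AC.H1
import Pool.Agent.Lib.MP_a1cc03_ag.AC.H2
import Pool.Agent.Lib.MP_a1cc03_ag.AC.T0
import Pool.Agent.Lib.MP_a1cc03_ag.AC.T1
import Pool.Agent.Lib.MP_a1cc03_ag.AC.L5
import Pool.Agent.Lib.MP_a1cc03_ag.AC.L6

/-! # Row H3: the main theorem for one type -/

noncomputable section

namespace Pool.Agent.ZC.AC

open WeierstrassCurve ComplexConjugate

variable {R : Type} [CommRing R] {K : Type} [Field K] [DecidableEq K] {ι : Type} [DecidableEq ι]
  (E : ι → WeierstrassCurve K) [∀ i, Module R (E i).toAffine.Point] {n e : ℕ} (j : Fin n → ι)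
  (κ : Fin e → ι)

/-- Precomposition with the action of `R` on `A`. -/
def pre {W : WeierstrassCurve K} [Module R W.toAffine.Point] (A : AddSubgroup W.toAffine.Point)
    (hA : ∀ (r : R), ∀ x ∈ A, r • x ∈ A) {U : Type} [AddCommGroup U] [Module ℂ U] (r : R) :
    (A →+ U) →ₗ[ℂ] (A →+ U) where
  toFun g := AddMonoidHom.mk' (fun x : A => g ⟨r • (x : W.toAffine.Point), hA r x x.2⟩) (by
    intro x y
    rw [← map_add]
    congr 1
    apply Subtype.ext
    exact smul_add r (x : W.toAffine.Point) y)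
  map_add' g h := by
    ext x
    rfl
  map_smul' z g := by
    ext x
    rfl

/-- **Row H3.** The main theorem for cycles of one type. -/
theorem main_one (θ : ι → R →+* ℂ) (hE : ∀ i, IsEndRing (E i) (θ i))
    (hs : ∀ i (r : R), θ i r ≠ 0 → Function.Surjective (fun P : (E i).toAffine.Point => r • P))
    (A : ∀ i, AddSubgroup (E i).toAffine.Point) (hA : ∀ i (r : R), ∀ x ∈ A i, r • x ∈ A i)
    (b : ∀ k, (E (j k)).toAffine.Point)
    (hprod : ∀ z : FreeAbelianGroup (∀ k, (E (j k)).toAffine.Point),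
        z ∈ AddSubgroup.closure (FreeAbelianGroup.of '' {x | ∀ k, x k - b k ∈ A (j k)}) →
        degree (fun k => E (j k)) z = 0 → albanese (fun k => E (j k)) z = 0 →
        ∃ N : ℕ, 0 < N ∧ N • z ∈ RatEqPi (fun k => E (j k)))
    {m : ℕ} (c : Fin m → ℤ) (M : Fin m → Fin e → Fin n → R)
    (a : Fin m → ∀ k, (E (j k)).toAffine.Point)
    (hM : ∀ s d k, κ d ≠ j k → M s d k = 0) (ha : ∀ s k, a s k ∈ A (j k))
    (hcl : ∀ I J : Fin e → Fin n,
      ∑ s, (c s : ℂ) * cminor (cmat θ j (M s)) I * conj (cminor (cmat θ j (M s)) J) = 0)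
    (hAJ : ∀ lam : ∀ i, (E i).toAffine.Point → ℂ, (∀ i, IsCoord (A i) (θ i) (lam i)) →
      ∀ (J : Fin e → Fin n) (L : Fin (e + 1) → Fin n),
        ∑ s, (c s : ℂ) * conj (cminor (cmat θ j (M s)) J) *
          cpminor (cmat θ j (M s)) (fun k => lam (j k) (a s k)) L = 0) :
    ∃ N : ℕ, 0 < N ∧ N • ∑ s, c s • abCycle E j κ (M s) (b + a s) ∈ RatAb R E j κ := by
  classical
  obtain ⟨U, iU, mU, q, hq⟩ :=
    exists_complex (FreeAbelianGroup (Set (∀ k, (E (j k)).toAffine.Point))) (RatAb R E j κ)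
  have hq0 : ∀ z ∈ RatAb R E j κ, q z = 0 := fun z hz => (hq z).2 ⟨1, one_pos, by simpa using hz⟩
  have hadd : ∀ (M : Fin e → Fin n → R) (x y : ∀ k, (E (j k)).toAffine.Point),
      (∀ k, x k ∈ A (j k)) → (∀ k, y k ∈ A (j k)) →
      q (abCycle E j κ M (b + (x + y))) - q (abCycle E j κ M b)
        = (q (abCycle E j κ M (b + x)) - q (abCycle E j κ M b))
          + (q (abCycle E j κ M (b + y)) - q (abCycle E j κ M b)) := by
    intro M x y hx hy
    have h := (hq _).2 (abCycle_additive E j κ A b hprod M x y hx hy)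
    rw [map_add, map_sub, map_sub] at h
    rw [← sub_eq_zero, ← h]
    abel
  obtain ⟨g₀, hg₀⟩ := fft_zero θ (fun i => (hE i).quadratic) j κ (fun M => q (abCycle E j κ M b))
    (class_inv E j κ q θ hE hs hq0 b)
  choose f₁ hf₁ hinv hvan hnul using exists_pointed E j κ q θ hE hs hq0 A hA b hadd
  have hft := fun i => fft_one θ (fun i => (hE i).quadratic) j κ i (f₁ i) (hinv i) (hvan i)
    (hnul i) (pre (A i) (hA i)) (fun M r v => by
      ext x
      rw [hf₁]
      change _ = f₁ i M v ⟨r • (x : (E i).toAffine.Point), hA i r x x.2⟩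
      rw [hf₁, h1pt_smul])
  choose g₁ g₂ hT₁ hT₂ hg using hft
  have hk₁ : ∀ i L J (r : R) (x : A i) (hx : r • (x : (E i).toAffine.Point) ∈ A i),
      g₁ i L J ⟨r • (x : (E i).toAffine.Point), hx⟩ = θ i r • g₁ i L J x := by
    intro i L J r x hx
    exact DFunLike.congr_fun (hT₁ i r L J) x
  have hk₂ : ∀ i L J (r : R) (x : A i) (hx : r • (x : (E i).toAffine.Point) ∈ A i),
      g₂ i L J ⟨r • (x : (E i).toAffine.Point), hx⟩ = conj (θ i r) • g₂ i L J x := by
    intro i L J r x hx
    exact DFunLike.congr_fun (hT₂ i r L J) x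
  apply (hq _).1
  rw [map_sum]
  have e1 : ∀ s, q (c s • abCycle E j κ (M s) (b + a s))
      = c s • q (abCycle E j κ (M s) b)
        + c s • (q (abCycle E j κ (M s) (b + a s)) - q (abCycle E j κ (M s) b)) := by
    intro s
    rw [map_zsmul, ← smul_add]
    congr 1
    abel
  rw [Finset.sum_congr rfl fun s _ => e1 s, Finset.sum_add_distrib]
  have e2 : ∑ s, c s • q (abCycle E j κ (M s) b) = 0 := by
    have h1 : ∀ s, c s • q (abCycle E j κ (M s) b)
        = ∑ I : Fin e → Fin n, ∑ J : Fin e → Fin n,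
          ((c s : ℂ) * cminor (cmat θ j (M s)) I * conj (cminor (cmat θ j (M s)) J)) • g₀ I J := by
      intro s
      rw [hg₀ (M s) (hM s), Finset.smul_sum]
      refine Finset.sum_congr rfl fun I _ => ?_
      rw [Finset.smul_sum]
      refine Finset.sum_congr rfl fun J _ => ?_
      rw [← Int.cast_smul_eq_zsmul ℂ, smul_smul, mul_assoc]
    rw [Finset.sum_congr rfl fun s _ => h1 s, Finset.sum_comm]
    refine Finset.sum_eq_zero fun I _ => ?_
    rw [Finset.sum_comm]
    refine Finset.sum_eq_zero fun J _ => ?_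
    rw [← Finset.sum_smul, hcl I J, zero_smul]
  have e3 : ∑ s, c s • (q (abCycle E j κ (M s) (b + a s)) - q (abCycle E j κ (M s) b)) = 0 := by
    have p1 := pointed_zero E j A θ hA g₁ hk₁ c (fun s => cmat θ j (M s)) a ha hAJ
    have p2 := pointed_zero_conj E j A θ hA g₂ hk₂ c (fun s => cmat θ j (M s)) a ha hAJ
    have p3 := congrArg₂ (· + ·) p1 p2
    simp only [add_zero] at p3
    rw [← Finset.sum_add_distrib] at p3
    rw [← p3]
    refine Finset.sum_congr rfl fun s _ => ?_
    rw [← smul_add]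
    congr 1
    rw [pointed_sum E j κ q A b hadd (M s) (a s) (ha s), ← Finset.sum_add_distrib]
    refine Finset.sum_congr rfl fun k _ => ?_
    have h2 : h1pt E j (j k) (Pi.single k (1 : R)) ((⟨a s k, ha s k⟩ : A (j k)) : (E (j k)).toAffine.Point)
        = (Pi.single k (a s k) : ∀ k, (E (j k)).toAffine.Point) := by
      funext k'
      unfold h1pt
      by_cases h : k' = k
      · subst h
        simp
      · rw [Pi.single_eq_of_ne h, Pi.single_eq_of_ne h, zero_smul]
    have h3 := hf₁ (j k) (M s) (Pi.single k 1) ⟨a s k, ha s k⟩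
    rw [h2] at h3
    have h4 : (fun k' => θ (j k') ((Pi.single k (1 : R) : Fin n → R) k')) = (Pi.single k (1 : ℂ) : Fin n → ℂ) := by
      funext k'
      by_cases h : k' = k
      · subst h
        simp
      · rw [Pi.single_eq_of_ne h, Pi.single_eq_of_ne h, map_zero]
    rw [← h3, hg (j k) (M s) (Pi.single k 1) (hM s) (by
      intro k' hk'
      rw [Pi.single_eq_of_ne]
      rintro rfl
      exact hk' rfl), h4]
    simp only [AddMonoidHom.add_apply, AddMonoidHom.finsetSum_apply, AddMonoidHom.coe_smul,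
      Pi.smul_apply]
  rw [e2, e3, add_zero]

end Pool.Agent.ZC.AC
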