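import Mathlib

/-! # The holomorphic part of a polarised function -/

namespace Pool.Agent.ZC.AC

variable {e : ℕ} {V : Type*} [AddCommGroup V] {U : Type*} [AddCommGroup U] [Module ℂ U]

/-- apply the operators `W c` to the columns in `S` -/
def sub (W : Fin e → V →+ V) (S : Finset (Fin e)) (p : Fin e → V) : Fin e → V :=
  fun c => if c ∈ S then W c (p c) else p c

theorem sub_insert (W : Fin e → V →+ V) {S : Finset (Fin e)} {c : Fin e} (hc : c ∉ S)
    (p : Fin e → V) : sub W (insert c S) p = sub W S (Function.update p c (W c (p c))) := by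
  funext d
  unfold sub
  by_cases h : d = c
  · subst h
    rw [if_pos (Finset.mem_insert_self d S), if_neg hc, Function.update_self]
  · rw [Function.update_of_ne h]
    by_cases h2 : d ∈ S
    · rw [if_pos h2, if_pos (Finset.mem_insert_of_mem h2)]
    · rw [if_neg h2, if_neg (fun h3 => h2 (Finset.mem_of_mem_insert_of_ne h3 h))]

theorem sub_update (W : Fin e → V →+ V) (S : Finset (Fin e)) (c : Fin e)
    (p : Fin e → V) (x : V) : sub W S (Function.update p c x) =
      Function.update (sub W S p) c (if c ∈ S then W c x else x) := by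
  funext d
  unfold sub
  by_cases h : d = c
  · subst h
    rw [Function.update_self, Function.update_self]
  · rw [Function.update_of_ne h, Function.update_of_ne h]

theorem sub_apply_notMem (W : Fin e → V →+ V) {S : Finset (Fin e)} {c : Fin e} (hc : c ∉ S)
    (p : Fin e → V) : sub W S p c = p c := if_neg hc

theorem sub_swap (W : Fin e → V →+ V) {S : Finset (Fin e)} {c c' : Fin e} (hc : c ∉ S)
    (hc' : c' ∉ S) (p : Fin e → V) :
    sub W S (p ∘ Equiv.swap c c') = sub W S p ∘ Equiv.swap c c' := by
  funext d
  unfold sub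
  simp only [Function.comp_apply]
  by_cases h : d = c
  · subst h
    rw [Equiv.swap_apply_left, if_neg hc, if_neg hc']
  · by_cases h' : d = c'
    · subst h'
      rw [Equiv.swap_apply_right, if_neg hc, if_neg hc']
    · rw [Equiv.swap_apply_of_ne_of_ne h h']

/-- the holomorphic part with respect to the columns in `D` -/
noncomputable def HD {Q : Type*} (W : Fin e → V →+ V) (σ : Fin e → ℂ) (D : Finset (Fin e))
    (F : (Fin e → V) → Q → U) (p : Fin e → V) (q : Q) : U :=
  ∑ S ∈ D.powerset, (∏ c ∈ S, σ c) • F (sub W S p) q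

theorem HD_insert {Q : Type*} (W : Fin e → V →+ V) (σ : Fin e → ℂ) {D : Finset (Fin e)} {c : Fin e}
    (hc : c ∉ D) (F : (Fin e → V) → Q → U) (p : Fin e → V) (q : Q) :
    HD W σ (insert c D) F p q =
      HD W σ D F p q + σ c • HD W σ D F (Function.update p c (W c (p c))) q := by
  unfold HD
  rw [Finset.sum_powerset_insert hc, Finset.smul_sum]
  congr 1
  refine Finset.sum_congr rfl fun S hS => ?_
  have hcS : c ∉ S := fun h => hc (Finset.mem_powerset.mp hS h)
  rw [Finset.prod_insert hcS, sub_insert W hcS, mul_smul]

section Props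

variable (W : Fin e → V →+ V) (σ : Fin e → ℂ) (D : Finset (Fin e))

theorem HD_add_left {Q : Type*} (F : (Fin e → V) → Q → U) (c : Fin e)
    (hF : ∀ (p : Fin e → V) (q : Q) (x y : V), F (Function.update p c (x + y)) q =
      F (Function.update p c x) q + F (Function.update p c y) q)
    (p : Fin e → V) (q : Q) (x y : V) : HD W σ D F (Function.update p c (x + y)) q =
      HD W σ D F (Function.update p c x) q + HD W σ D F (Function.update p c y) q := by
  unfold HD
  rw [← Finset.sum_add_distrib]
  refine Finset.sum_congr rfl fun S _ => ?_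
  rw [← smul_add, sub_update, sub_update, sub_update]
  split_ifs
  · rw [map_add, hF]
  · rw [hF]

theorem HD_right {Q : Type*} (F : (Fin e → V) → Q → U) (q q' q'' : Q)
    (hF : ∀ (p : Fin e → V), F p q = F p q' + F p q'')
    (p : Fin e → V) : HD W σ D F p q = HD W σ D F p q' + HD W σ D F p q'' := by
  unfold HD
  rw [← Finset.sum_add_distrib]
  refine Finset.sum_congr rfl fun S _ => ?_
  rw [← smul_add, hF]

theorem HD_congr {Q : Type*} (F : (Fin e → V) → Q → U) (c : Fin e) (hc : c ∉ D) (x : V) (q q' : Q)
    (p : Fin e → V) (hF : ∀ (p' : Fin e → V), p' c = p c → F (Function.update p' c x) q = F p' q') :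
    HD W σ D F (Function.update p c x) q = HD W σ D F p q' := by
  unfold HD
  refine Finset.sum_congr rfl fun S hS => ?_
  have hcS : c ∉ S := fun h => hc (Finset.mem_powerset.mp hS h)
  rw [sub_update, if_neg hcS, hF _ (sub_apply_notMem W hcS p)]

end Props

end Pool.Agent.ZC.AC
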