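import Pool.Agent.Lib.MP_a1cc03_ag.AC.Hd

/-! # The holomorphic part is alternating -/

namespace Pool.Agent.ZC.AC

variable {V : Type*} [AddCommGroup V] {U : Type*} [AddCommGroup U] [Module ℂ U]

/-- the three-term relation -/
theorem three_term (G : V → V → V → V → U)
    (h1 : ∀ a a' b x y, G (a + a') b x y = G a b x y + G a' b x y)
    (h2 : ∀ a b b' x y, G a (b + b') x y = G a b x y + G a b' x y)
    (h3 : ∀ a b x x' y, G a b (x + x') y = G a b x y + G a b x' y)
    (hs : ∀ a b x y, G a b x y = G b a x y)
    (hE : ∀ a w y, 2 • G a w w y + G w w a y = 0) (a b x y : V) :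
    G a b x y + G x b a y + G a x b y = 0 := by
  have e1 := hE a (b + x) y
  have e2 := hE a b y
  have e3 := hE a x y
  rw [h2, h3, h3, h1, h2, h2, hs b x a y] at e1
  have h2' : (2 : ℂ) • (G a b x y + G x b a y + G a x b y) = 0 := by
    have e4 : (2 : ℂ) • (G a b x y + G x b a y + G a x b y) =
        (2 • (G a b b y + G a b x y + (G a x b y + G a x x y)) +
          (G b b a y + G x b a y + (G x b a y + G x x a y))) -
          (2 • G a b b y + G b b a y) - (2 • G a x x y + G x x a y) := by
      module
    rw [e4, e1, e2, e3]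
    simp
  exact (smul_eq_zero.mp h2').resolve_left two_ne_zero

/-- the alternating property of the holomorphic part -/
theorem four_alt (G : V → V → V → V → U) (W : V →+ V) (σ d : ℂ) (hσ : 1 + σ * σ * d = 0)
    (h3 : ∀ a b x y, G a b x y + G x b a y + G a x b y = 0)
    (hsk : ∀ a b x y, G (W a) b x y = -G a (W b) x y)
    (hN : ∀ a b x y, G (W (W a)) b x y = -(d • G a b x y)) (a b x y : V) :
    (G a b x y + σ • G (W a) b x y + (σ • (G a b (W x) y + σ • G (W a) b (W x) y))) +
      (G x b a y + σ • G (W x) b a y + (σ • (G x b (W a) y + σ • G (W x) b (W a) y))) = 0 := by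
  have e1 := h3 a b x y
  have e2 := h3 (W a) b x y
  have e3 := h3 a b (W x) y
  have e4 := h3 (W a) b (W x) y
  have e5 : G a (W x) b y = -G (W a) x b y := by rw [hsk a x b y, neg_neg]
  have e6 : G (W a) (W x) b y = d • G a x b y := by
    have h := hsk (W a) x b y
    rw [hN] at h
    rw [neg_inj] at h
    exact h.symm
  rw [e5] at e3
  rw [e6] at e4
  have key : (G a b x y + σ • G (W a) b x y + (σ • (G a b (W x) y + σ • G (W a) b (W x) y))) +
      (G x b a y + σ • G (W x) b a y + (σ • (G x b (W a) y + σ • G (W x) b (W a) y))) =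
      (G a b x y + G x b a y + G a x b y) + σ • (G (W a) b x y + G x b (W a) y + G (W a) x b y) +
      σ • (G a b (W x) y + G (W x) b a y + -G (W a) x b y) +
      (σ * σ) • (G (W a) b (W x) y + G (W x) b (W a) y + d • G a x b y) -
      (1 + σ * σ * d) • G a x b y := by
    module
  rw [key, e1, e2, e3, e4, hσ]
  simp

/-- the same for a column and the point -/
theorem three_point {T : Type*} [AddCommGroup T] (G : T → T → T → U)
    (h1 : ∀ a a' b x, G (a + a') b x = G a b x + G a' b x)
    (h2 : ∀ a b b' x, G a (b + b') x = G a b x + G a b' x)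
    (h3 : ∀ a b x x', G a b (x + x') = G a b x + G a b x')
    (hs : ∀ a b x, G a b x = G b a x)
    (hE : ∀ a w, 2 • G a w w + G w w a = 0) (a b x : T) :
    G a b x + G x b a + G a x b = 0 := by
  have e1 := hE a (b + x)
  have e2 := hE a b
  have e3 := hE a x
  rw [h2, h3, h3, h1, h2, h2, hs b x a] at e1
  have h2' : (2 : ℂ) • (G a b x + G x b a + G a x b) = 0 := by
    have e4 : (2 : ℂ) • (G a b x + G x b a + G a x b) =
        (2 • (G a b b + G a b x + (G a x b + G a x x)) +
          (G b b a + G x b a + (G x b a + G x x a))) -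
          (2 • G a b b + G b b a) - (2 • G a x x + G x x a) := by
      module
    rw [e4, e1, e2, e3]
    simp
  exact (smul_eq_zero.mp h2').resolve_left two_ne_zero

/-- `G a b x`: column slots `a`, `b`, point slot `x`, in which `G` is holomorphic -/
theorem point_alt (G : V → V → V → U) (W : V →+ V) (σ : ℂ)
    (h3 : ∀ a b x, G a b x + G x b a + G a x b = 0)
    (hsk : ∀ a b x, G (W a) b x = -G a (W b) x)
    (hW : ∀ a b x, σ • G a b (W x) = G a b x) (a b x : V) :
    (G a b x + σ • G (W a) b x) + (G x b a + σ • G (W x) b a) = 0 := by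
  have e1 := h3 a b x
  have e2 := h3 (W a) b x
  have e3 := h3 a b (W x)
  have e5 : G a (W x) b = -G (W a) x b := by rw [hsk a x b, neg_neg]
  rw [e5] at e3
  have f1 := hW x b a
  have f2 := hW a b x
  have e2' : σ • G (W a) b x + G x b a + σ • G (W a) x b = 0 := by
    rw [← f1, ← smul_add, ← smul_add, e2, smul_zero]
  have e3' : G a b x + σ • G (W x) b a + -(σ • G (W a) x b) = 0 := by
    have h : G a b x + σ • G (W x) b a + -(σ • G (W a) x b) =
        σ • (G a b (W x) + G (W x) b a + -G (W a) x b) := by
      rw [smul_add, smul_add, f2, smul_neg]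
    rw [h, e3, smul_zero]
  have key : (G a b x + σ • G (W a) b x) + (G x b a + σ • G (W x) b a) =
      (σ • G (W a) b x + G x b a + σ • G (W a) x b) +
      (G a b x + σ • G (W x) b a + -(σ • G (W a) x b)) := by
    module
  rw [key, e2', e3', add_zero]

end Pool.Agent.ZC.AC
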