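import Pool.Agent.Lib.MP_a1cc03_ag.AC.Om
import Pool.Agent.Lib.MP_a1cc03_ag.AC.P1
import Pool.Agent.Lib.MP_a1cc03_ag.AC.P2

/-! # Consequences of the invariance properties for the polarised function -/

namespace Pool.Agent.ZC.AC

open ComplexConjugate

variable {R : Type} [CommRing R] {ι : Type} {e : ℕ} {V : Type*} [AddCommGroup V] [Module R V]
  {U : Type*} [AddCommGroup U] [Module ℂ U]

omit [Module ℂ U] in
theorem pol_symm' {F : (Fin e → V) → (Fin e → V) → U} (hF : PolOn Finset.univ F) (c : Fin e)
    (p q : Fin e → V) (x y : V) :
    F (Function.update p c x) (Function.update q c y) =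
      F (Function.update p c y) (Function.update q c x) := by
  have h := hF.symm c (Finset.mem_univ c) (Function.update p c y) (Function.update q c x)
  rw [Function.update_self, Function.update_self, Function.update_idem, Function.update_idem] at h
  exact h

omit [Module ℂ U] in
theorem pol_add_right {F : (Fin e → V) → (Fin e → V) → U} (hF : PolOn Finset.univ F) (c : Fin e)
    (p q : Fin e → V) (x y : V) :
    F p (Function.update q c (x + y)) =
      F p (Function.update q c x) + F p (Function.update q c y) := by
  have h : ∀ z : V, F p (Function.update q c z)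
      = F (Function.update p c z) (Function.update q c (p c)) := by
    intro z
    have h := hF.symm c (Finset.mem_univ c) p (Function.update q c z)
    rw [Function.update_self, Function.update_idem] at h
    exact h.symm
  rw [h, h, h]
  exact hF.add c (Finset.mem_univ c) p (Function.update q c (p c)) x y

omit [Module ℂ U] in
theorem pol_zsmul {F : (Fin e → V) → (Fin e → V) → U} (hF : PolOn Finset.univ F) (c : Fin e)
    (p q : Fin e → V) (m : ℤ) (x : V) :
    F (Function.update p c (m • x)) q = m • F (Function.update p c x) q :=
  (AddMonoidHom.mk' (fun x => F (Function.update p c x) q)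
    (fun x y => hF.add c (Finset.mem_univ c) p q x y)).map_zsmul m x

omit [Module ℂ U] in
theorem pol_zsmul_right {F : (Fin e → V) → (Fin e → V) → U} (hF : PolOn Finset.univ F) (c : Fin e)
    (p q : Fin e → V) (m : ℤ) (x : V) :
    F p (Function.update q c (m • x)) = m • F p (Function.update q c x) :=
  (AddMonoidHom.mk' (fun x => F p (Function.update q c x))
    (fun x y => pol_add_right hF c p q x y)).map_zsmul m x

theorem inv_zero {f : (Fin e → V) → U} (hf : MultiQuad f) (M : Fin e → V) (c : Fin e) :
    f (Function.update M c 0) = 0 := by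
  have h := hf M c 0 0
  simp only [add_zero, sub_zero] at h
  have h2 : (2 : ℂ) • f (Function.update M c 0) = 0 := by
    have h3 : (2 : ℂ) • f (Function.update M c 0) =
        (2 • f (Function.update M c 0) + 2 • f (Function.update M c 0)) -
          (f (Function.update M c 0) + f (Function.update M c 0)) := by
      module
    rw [h3, h, sub_self]
  exact (smul_eq_zero.mp h2).resolve_left two_ne_zero

theorem inv_nul {θ : ι → R →+* ℂ} {κ : Fin e → ι} {f : (Fin e → V) → U} (hf : Inv θ κ f)
    (M : Fin e → V) (c : Fin e) (r : R) (u : V) (hr : θ (κ c) r = 0) :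
    f (Function.update M c (r • u)) = 0 := by
  have h := hf.nul (Function.update M c 0) c r u hr
  rw [Function.update_idem, Function.update_self, zero_add, inv_zero hf.mq] at h
  exact h

theorem pol_nul {θ : ι → R →+* ℂ} {κ : Fin e → ι} {f : (Fin e → V) → U} (hf : Inv θ κ f)
    {F : (Fin e → V) → (Fin e → V) → U} (hF : PolOn Finset.univ F) (hFM : ∀ M, F M M = f M)
    (p q : Fin e → V) (c : Fin e) (r : R) (u : V) (hr : θ (κ c) r = 0) :
    F (Function.update p c (r • u)) q = 0 := by
  classical
  have key : ∀ p' q' : Fin e → V,
      F (Function.update p' c (r • u)) (Function.update q' c (q c)) = 0 := by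
    refine vanish_of_diag (k₀ := ℂ) (Finset.univ.erase c) (fun p' q' =>
      F (Function.update p' c (r • u)) (Function.update q' c (q c))) ⟨?_, ?_⟩ ?_
    · intro b hb p' q' y z
      have hbc : b ≠ c := Finset.ne_of_mem_erase hb
      simp only [Function.update_comm hbc, hF.add b (Finset.mem_univ b)]
    · intro b hb p' q'
      have hbc : b ≠ c := Finset.ne_of_mem_erase hb
      have h2 := hF.symm b (Finset.mem_univ b) (Function.update p' c (r • u))
        (Function.update q' c (q c))
      rw [Function.update_of_ne hbc, Function.update_of_ne hbc, Function.update_comm hbc.symm,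
        Function.update_comm hbc.symm] at h2
      exact h2
    · intro p' q' hpq
      have h2 : Function.update q' c (q c) = Function.update p' c (q c) := by
        funext b
        rcases eq_or_ne b c with rfl | hbc
        · rw [Function.update_self, Function.update_self]
        · rw [Function.update_of_ne hbc, Function.update_of_ne hbc]
          exact (hpq b (Finset.mem_erase.mpr ⟨hbc, Finset.mem_univ b⟩)).symm
      simp only [h2]
      have h3 := hf.nul (Function.update p' c (q c)) c r u hr
      rw [Function.update_idem, Function.update_self, ← hFM, ← hFM,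
        hF.add c (Finset.mem_univ c), pol_add_right hF c, pol_add_right hF c,
        pol_symm' hF c p' p' (q c) (r • u), hFM (Function.update p' c (r • u)),
        inv_nul hf p' c r u hr, add_zero] at h3
      have h4 : (2 : ℂ) • F (Function.update p' c (r • u)) (Function.update p' c (q c)) = 0 := by
        have h5 : (2 : ℂ) • F (Function.update p' c (r • u)) (Function.update p' c (q c)) =
            (F (Function.update p' c (q c)) (Function.update p' c (q c)) +
              F (Function.update p' c (r • u)) (Function.update p' c (q c)) +
              F (Function.update p' c (r • u)) (Function.update p' c (q c))) -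
              F (Function.update p' c (q c)) (Function.update p' c (q c)) := by
          module
        rw [h5, h3, sub_self]
      exact (smul_eq_zero.mp h4).resolve_left two_ne_zero
  have h := key p q
  rwa [Function.update_eq_self] at h

/-- A congruence modulo the kernel of `θ`. -/
theorem pol_lin {θ : ι → R →+* ℂ} {κ : Fin e → ι} {f : (Fin e → V) → U} (hf : Inv θ κ f)
    {F : (Fin e → V) → (Fin e → V) → U} (hF : PolOn Finset.univ F) (hFM : ∀ M, F M M = f M)
    (p q : Fin e → V) (c : Fin e) (r s : R) (u : V) (hr : θ (κ c) r = θ (κ c) s) :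
    F (Function.update p c (r • u)) q = F (Function.update p c (s • u)) q := by
  have h1 : r • u = s • u + (r - s) • u := by
    rw [← add_smul, add_sub_cancel]
  rw [h1, hF.add c (Finset.mem_univ c),
    pol_nul hf hF hFM p q c (r - s) u (by rw [map_sub, hr, sub_self]), add_zero]

theorem inv_omega {θ : ι → R →+* ℂ} {κ : Fin e → ι} {f : (Fin e → V) → U} (hf : Inv θ κ f)
    {F : (Fin e → V) → (Fin e → V) → U} (hF : PolOn Finset.univ F) (hFM : ∀ M, F M M = f M)
    (c : Fin e) {w : R} {d : ℕ} (hd : 0 < d) (hw : θ (κ c) w * θ (κ c) w = -(d : ℂ))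
    (M : Fin e → V) : f (Function.update M c (w • M c)) = (d : ℂ) • f M := by
  obtain ⟨δ, hδ⟩ := hf.deg c w
  have h1 : f (Function.update M c (w • (w • M c))) = δ • (δ • f M) := by
    have h := hδ (Function.update M c (w • M c))
    rw [Function.update_idem, Function.update_self, hδ] at h
    exact h
  have h2 : f (Function.update M c (w • (w • M c))) = ((d : ℂ) * d) • f M := by
    have e1 : ∀ q, F (Function.update M c (w • (w • M c))) q = -((d : ℂ) • F M q) := by
      intro q
      have h := pol_lin hf hF hFM M q c (w * w) (-(d : R)) (M c) (by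
        rw [map_mul, hw, map_neg, map_natCast])
      rw [← mul_smul, h]
      have h3 : (-(d : R)) • M c = (-(d : ℤ)) • M c := by
        rw [neg_smul, neg_smul, Nat.cast_smul_eq_nsmul, natCast_zsmul]
      rw [h3, pol_zsmul hF, Function.update_eq_self, neg_smul, natCast_zsmul,
        Nat.cast_smul_eq_nsmul]
    rw [← hFM, e1]
    have e2 : F M (Function.update M c (w • (w • M c))) = -((d : ℂ) • F M M) := by
      have h := hF.symm c (Finset.mem_univ c) M (Function.update M c (w • (w • M c)))
      rw [Function.update_self, Function.update_idem, Function.update_eq_self] at h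
      rw [← h, e1]
    rw [e2, smul_neg, neg_neg, smul_smul, hFM]
  by_cases h0 : f M = 0
  · rw [hδ, h0, smul_zero, smul_zero]
  · rw [h1] at h2
    have h3 : (((δ : ℂ) * δ) - (d * d)) • f M = 0 := by
      rw [sub_smul, ← h2, mul_smul, Nat.cast_smul_eq_nsmul, Nat.cast_smul_eq_nsmul, sub_self]
    have h4 := (smul_eq_zero.mp h3).resolve_right h0
    have h5 : (δ * δ : ℕ) = d * d := by
      have h6 := sub_eq_zero.mp h4
      exact_mod_cast h6
    have h7 : δ = d := Nat.mul_self_inj.mp h5
    rw [hδ, h7, Nat.cast_smul_eq_nsmul]

theorem pol_omega {θ : ι → R →+* ℂ} {κ : Fin e → ι} {f : (Fin e → V) → U} (hf : Inv θ κ f)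
    {F : (Fin e → V) → (Fin e → V) → U} (hF : PolOn Finset.univ F) (hFM : ∀ M, F M M = f M)
    (c : Fin e) {w : R} {d : ℕ} (hd : 0 < d) (hw : θ (κ c) w * θ (κ c) w = -(d : ℂ))
    (p q : Fin e → V) :
    F (Function.update p c (w • p c)) (Function.update q c (w • q c)) = (d : ℂ) • F p q := by
  classical
  have key := vanish_of_diag (k₀ := ℂ) Finset.univ (fun p q : Fin e → V =>
    F (Function.update p c (w • p c)) (Function.update q c (w • q c)) - (d : ℂ) • F p q)
    ⟨?_, ?_⟩ ?_ p q
  · exact sub_eq_zero.mp key
  · intro b _ p q x y
    by_cases hb : b = c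
    · subst hb
      simp only [Function.update_idem, Function.update_self, smul_add,
        hF.add b (Finset.mem_univ b)]
      abel
    · simp only [Function.update_of_ne (Ne.symm hb), Function.update_comm hb,
        hF.add b (Finset.mem_univ b), smul_add]
      abel
  · intro b _ p q
    by_cases hb : b = c
    · subst hb
      simp only [Function.update_idem, Function.update_self]
      rw [pol_symm' hF b p q, hF.symm b (Finset.mem_univ b) p q]
    · simp only [Function.update_of_ne (Ne.symm hb)]
      have h1 := hF.symm b (Finset.mem_univ b) (Function.update p c (w • p c))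
        (Function.update q c (w • q c))
      rw [Function.update_of_ne hb, Function.update_of_ne hb, Function.update_comm (Ne.symm hb),
        Function.update_comm (Ne.symm hb)] at h1
      rw [h1, hF.symm b (Finset.mem_univ b) p q]
  · intro p q hpq
    have h1 : p = q := funext fun b => hpq b (Finset.mem_univ b)
    rw [h1, hFM, hFM, inv_omega hf hF hFM c hd hw, sub_self]

theorem pol_sq {θ : ι → R →+* ℂ} {κ : Fin e → ι} {f : (Fin e → V) → U} (hf : Inv θ κ f)
    {F : (Fin e → V) → (Fin e → V) → U} (hF : PolOn Finset.univ F) (hFM : ∀ M, F M M = f M)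
    (c : Fin e) {w : R} {d : ℕ} (hw : θ (κ c) w * θ (κ c) w = -(d : ℂ))
    (p q : Fin e → V) (u : V) :
    F (Function.update p c (w • (w • u))) q = -((d : ℂ) • F (Function.update p c u) q) := by
  have h := pol_lin hf hF hFM p q c (w * w) (-(d : R)) u (by
    rw [map_mul, hw, map_neg, map_natCast])
  rw [← mul_smul, h]
  have h3 : (-(d : R)) • u = (-(d : ℤ)) • u := by
    rw [neg_smul, neg_smul, Nat.cast_smul_eq_nsmul, natCast_zsmul]
  rw [h3, pol_zsmul hF, neg_smul, natCast_zsmul, Nat.cast_smul_eq_nsmul]

theorem pol_skew {θ : ι → R →+* ℂ} {κ : Fin e → ι} {f : (Fin e → V) → U} (hf : Inv θ κ f)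
    {F : (Fin e → V) → (Fin e → V) → U} (hF : PolOn Finset.univ F) (hFM : ∀ M, F M M = f M)
    (c : Fin e) {w : R} {d : ℕ} (hd : 0 < d) (hw : θ (κ c) w * θ (κ c) w = -(d : ℂ))
    (p q : Fin e → V) (x y : V) :
    F (Function.update p c (w • x)) (Function.update q c y) =
      -F (Function.update p c x) (Function.update q c (w • y)) := by
  have h1 := pol_omega hf hF hFM c hd hw (Function.update p c x) (Function.update q c (w • y))
  rw [Function.update_idem, Function.update_self, Function.update_idem, Function.update_self,
    pol_symm' hF c p q (w • x) (w • (w • y)), pol_sq hf hF hFM c hw,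
    pol_symm' hF c p q y (w • x)] at h1
  have hd' : (d : ℂ) ≠ 0 := Nat.cast_ne_zero.mpr hd.ne'
  have h2 : (d : ℂ) • (F (Function.update p c (w • x)) (Function.update q c y) +
      F (Function.update p c x) (Function.update q c (w • y))) = 0 := by
    rw [smul_add, ← h1, add_neg_cancel]
  exact eq_neg_of_add_eq_zero_left ((smul_eq_zero.mp h2).resolve_left hd')

end Pool.Agent.ZC.AC
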