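import Pool.Agent.Lib.MP_a1cc03_ag.AC.P2

/-! # Row P3: the exchange relation for two columns -/

namespace Pool.Agent.ZC.AC

variable {k₀ : Type*} [Field k₀] [CharZero k₀] {U : Type*} [AddCommGroup U] [Module k₀ U] {e : ℕ} {V : Type*} [AddCommGroup V]

variable (k₀) in
include k₀ in
theorem p3_tri {A : Type*} [AddCommGroup A] (G : A → A → A → U)
    (h1 : ∀ a a' b d, G (a + a') b d = G a b d + G a' b d)
    (h2 : ∀ a b b' d, G a (b + b') d = G a b d + G a b' d)
    (hs : ∀ a b d, G a b d = G d b a) (hz : ∀ w, G w w w = 0) (x w : A) :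
    2 • G x w w + G w x w = 0 := by
  have h3 : ∀ a b d d', G a b (d + d') = G a b d + G a b d' := by
    intro a b d d'
    rw [hs, h1, hs d b a, hs d' b a]
  have n1 : ∀ a b d, G (-a) b d = -G a b d := fun a b d =>
    (AddMonoidHom.mk' (fun a => G a b d) (fun a a' => h1 a a' b d)).map_neg a
  have n2 : ∀ a b d, G a (-b) d = -G a b d := fun a b d =>
    (AddMonoidHom.mk' (fun b => G a b d) (fun b b' => h2 a b b' d)).map_neg b
  have n3 : ∀ a b d, G a b (-d) = -G a b d := fun a b d =>
    (AddMonoidHom.mk' (fun d => G a b d) (fun d d' => h3 a b d d')).map_neg d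
  have T : ∀ x : A, (2 • G x w w + G w x w) + (2 • G w x x + G x w x) = 0 := by
    intro x
    have h4 := hz (w + x)
    rw [h1, h2, h2, h3, h3, h3, h3, hz, hz, hs w w x, hs x x w] at h4
    rw [← h4]
    abel
  have h5 := T x
  have h6 := T (-x)
  rw [n1, n2, n2, n3, neg_neg, n1, n3, neg_neg] at h6
  refine p2_two k₀ ?_
  have h7 : (2 • G x w w + G w x w) + (2 • G x w w + G w x w) =
      ((2 • G x w w + G w x w) + (2 • G w x x + G x w x)) -
        ((2 • -G x w w + -G w x w) + (2 • G w x x + G x w x)) := by
    abel
  rw [h7, h5, h6, sub_zero]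

include k₀ in
/-- **Row P3.** Let `f M = F M M` be invariant under adding column `c` to column `c'` and `f M = 0` if the
columns `c`, `c'` are equal. Then `2 F p q + F (p ∘ swap c c') q = 0` if `p c' = q c`.
Proof: write `H(x, w; w', y) = F (update (update p c x) c' w') (update (update q c w) c' y)`. First case: `p b = q b`
for all `b ≠ c, c'`; then `H(u, u; v, v) = f (M with columns u, v)`. (a) `H(w, w; w, y) = 0`, because
`2 H(w,w;w,y) = H(w,w;w+y,w+y) - H(w,w;w,w) - H(w,w;y,y) = f(w, w+y) - f(w, w) - f(w, y) = 0`.
(b) expand (a) with `w + x` and with `w - x` (that is, `x ↦ -x`) in place of `w` and subtract: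
`H(w,w;x,y) + 2 H(w,x;w,y) = 0`, which is the claim. General case: apply `vanish_of_diag` (P2) with
`D = univ \ {c, c'}` to the function
`(p', q') ↦ 2 F (update (update p' c x) c' w) (update (update q' c w) c' y) + F (update (update p' c w) c' x) (update (update q' c w) c' y)`,
where `x = p c`, `w = q c = p c'`, `y = q c'`. -/
theorem exchange (F : (Fin e → V) → (Fin e → V) → U) (hF : PolOn Finset.univ F)
    (c c' : Fin e) (hcc : c ≠ c')
    (hadd : ∀ M : Fin e → V,
      F (Function.update M c' (M c' + M c)) (Function.update M c' (M c' + M c)) = F M M)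
    (heq : ∀ M : Fin e → V, M c = M c' → F M M = 0)
    (p q : Fin e → V) (hpq : p c' = q c) :
    2 • F p q + F (p ∘ Equiv.swap c c') q = 0 := by
  classical
  set x := p c with hx
  set w := q c with hw
  set y := q c' with hy
  -- abbreviation for the matrix with prescribed columns
  let W : (Fin e → V) → (V) → (V) → (Fin e → V) :=
    fun M u v => Function.update (Function.update M c u) c' v
  have W1 : ∀ M u v, Function.update (W M u v) c' = fun v' => W M u v' := by
    intro M u v
    funext v'
    simp only [W, Function.update_idem]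
  have W2 : ∀ M u v u', Function.update (W M u v) c u' = W M u' v := by
    intro M u v u'
    simp only [W]
    rw [Function.update_comm hcc.symm, Function.update_idem]
  have Wc : ∀ M u v, W M u v c = u := by
    intro M u v
    simp only [W]
    rw [Function.update_of_ne hcc, Function.update_self]
  have Wc' : ∀ M u v, W M u v c' = v := by
    intro M u v
    simp only [W]
    rw [Function.update_self]
  have Wb : ∀ M u v b, b ≠ c → b ≠ c' → W M u v b = M b := by
    intro M u v b hb hb'
    simp only [W]
    rw [Function.update_of_ne hb', Function.update_of_ne hb]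
  have Wup : ∀ M u v b z, b ≠ c → b ≠ c' →
      W (Function.update M b z) u v = Function.update (W M u v) b z := by
    intro M u v b z hb hb'
    simp only [W]
    rw [Function.update_comm hb, Function.update_comm hb']
  have A1 : ∀ M u u' v Q, F (W M (u + u') v) Q = F (W M u v) Q + F (W M u' v) Q := by
    intro M u u' v Q
    have h := hF.add c (Finset.mem_univ c) (W M u v) Q u u'
    rwa [W2, W2, W2] at h
  have A2 : ∀ M u v v' Q, F (W M u (v + v')) Q = F (W M u v) Q + F (W M u v') Q := by
    intro M u v v' Q
    have h := hF.add c' (Finset.mem_univ c') (W M u v) Q v v'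
    rwa [W1] at h
  have S1 : ∀ M N a b a2 b2, F (W M a b) (W N a2 b2) = F (W M a2 b) (W N a b2) := by
    intro M N a b a2 b2
    have h := hF.symm c (Finset.mem_univ c) (W M a b) (W N a2 b2)
    rw [Wc, Wc, W2, W2] at h
    exact h.symm
  have S2 : ∀ M N a b a2 b2, F (W M a b) (W N a2 b2) = F (W M a b2) (W N a2 b) := by
    intro M N a b a2 b2
    have h := hF.symm c' (Finset.mem_univ c') (W M a b) (W N a2 b2)
    rw [Wc', Wc', W1, W1] at h
    exact h.symm
  have key : ∀ p' q' : Fin e → V,
      2 • F (W p' x w) (W q' w y) + F (W p' w x) (W q' w y) = 0 := by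
    refine vanish_of_diag (k₀ := k₀) ((Finset.univ.erase c).erase c') (fun p' q' =>
      2 • F (W p' x w) (W q' w y) + F (W p' w x) (W q' w y)) ⟨?_, ?_⟩ ?_
    · intro b hb p' q' u z
      have hb' : b ≠ c' := Finset.ne_of_mem_erase hb
      have hbc : b ≠ c := Finset.ne_of_mem_erase (Finset.mem_of_mem_erase hb)
      simp only [Wup _ _ _ _ _ hbc hb', hF.add b (Finset.mem_univ b)]
      abel
    · intro b hb p' q'
      have hb' : b ≠ c' := Finset.ne_of_mem_erase hb
      have hbc : b ≠ c := Finset.ne_of_mem_erase (Finset.mem_of_mem_erase hb)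
      have h1 : ∀ u v u' v', F (W (Function.update p' b (q' b)) u v)
          (W (Function.update q' b (p' b)) u' v') = F (W p' u v) (W q' u' v') := by
        intro u v u' v'
        have h2 := hF.symm b (Finset.mem_univ b) (W p' u v) (W q' u' v')
        rw [Wb _ _ _ _ hbc hb', Wb _ _ _ _ hbc hb', ← Wup _ _ _ _ _ hbc hb',
          ← Wup _ _ _ _ _ hbc hb'] at h2
        exact h2
      simp only [h1]
    · intro p' q' hpq'
      have h2 : ∀ u v, W q' u v = W p' u v := by
        intro u v
        funext b
        rcases eq_or_ne b c with rfl | hbc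
        · rw [Wc, Wc]
        · rcases eq_or_ne b c' with rfl | hbc'
          · rw [Wc', Wc']
          · rw [Wb _ _ _ _ hbc hbc', Wb _ _ _ _ hbc hbc']
            exact (hpq' b (Finset.mem_erase.mpr ⟨hbc', Finset.mem_erase.mpr
              ⟨hbc, Finset.mem_univ b⟩⟩)).symm
      simp only [h2]
      -- (a)
      have ha : ∀ w y, F (W p' w w) (W p' w y) = 0 := by
        intro w y
        have h3 := hadd (W p' w y)
        rw [Wc, Wc', W1] at h3
        have h4 := heq (W p' w w) (by rw [Wc, Wc'])
        rw [A2, S2 p' p' w y w (y + w), S2 p' p' w w w (y + w), A2, A2, h4, add_zero,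
          S2 p' p' w y w w] at h3
        refine p2_two k₀ ?_
        have h5 : F (W p' w w) (W p' w y) + F (W p' w w) (W p' w y) =
            F (W p' w y) (W p' w y) + F (W p' w w) (W p' w y) + F (W p' w w) (W p' w y) -
              F (W p' w y) (W p' w y) := by abel
        rw [h5, h3, sub_self]
      exact p3_tri k₀ (fun a b d => F (W p' a b) (W p' d y))
        (fun a a' b d => A1 p' a a' b _) (fun a b b' d => A2 p' a b b' _)
        (fun a b d => S1 p' p' a b d y) (fun w => ha w y) x w
  have h4 := key p q
  have e1 : W p x w = p := by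
    simp only [W]
    rw [hx, Function.update_eq_self, ← hpq, Function.update_eq_self]
  have e2 : W q w y = q := by
    simp only [W]
    rw [hw, Function.update_eq_self, hy, Function.update_eq_self]
  have e3 : W p w x = p ∘ Equiv.swap c c' := by
    funext b
    rcases eq_or_ne b c with rfl | hbc
    · rw [Wc, Function.comp_apply, Equiv.swap_apply_left, hpq]
    · rcases eq_or_ne b c' with rfl | hbc'
      · rw [Wc', Function.comp_apply, Equiv.swap_apply_right]
      · rw [Wb _ _ _ _ hbc hbc', Function.comp_apply, Equiv.swap_apply_of_ne_of_ne hbc hbc']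
  rwa [e1, e2, e3] at h4

end Pool.Agent.ZC.AC
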