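import Pool.Agent.Lib.MP_a1cc03_ag.AC.Hf
import Pool.Agent.Lib.MP_a1cc03_ag.AC.He
import Pool.Agent.Lib.MP_a1cc03_ag.AC.P3
import Pool.Agent.Lib.MP_a1cc03_ag.AC.P5

/-! # Properties of the relative holomorphic forms -/

namespace Pool.Agent.ZC.AC

open ComplexConjugate

variable {R : Type} [CommRing R] {ι : Type} {e : ℕ} {V : Type*} [AddCommGroup V] [Module R V]
  {U : Type*} [AddCommGroup U] [Module ℂ U]

/-- what is used of the purely imaginary element `w` -/
def OmP (θ : R →+* ℂ) (w : R) (d : ℕ) : Prop :=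
  0 < d ∧ θ w * θ w = -(d : ℂ) ∧ conj (θ w) = -θ w ∧
      ∀ r : R, ∃ a b : ℤ, (2 * d : ℂ) * θ r = a + b * θ w

theorem exists_om {θ : ι → R →+* ℂ} (hθ : ∀ i, Quad (θ i)) :
    ∃ (w : ι → R) (d : ι → ℕ), ∀ i, IsCM (θ i) → OmP (θ i) (w i) (d i) := by
  classical
  have h : ∀ i, ∃ (w : R) (d : ℕ), IsCM (θ i) → OmP (θ i) w d := by
    intro i
    by_cases hi : IsCM (θ i)
    · obtain ⟨w, d, h⟩ := exists_omega (hθ i) hi
      exact ⟨w, d, fun _ => h⟩
    · exact ⟨0, 0, fun h => absurd h hi⟩
  choose w d h using h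
  exact ⟨w, d, h⟩

section Termwise

variable (W : Fin e → V →+ V) (σ : Fin e → ℂ) (D : Finset (Fin e))
  {F : (Fin e → V) → (Fin e → V) → U}

theorem HD_addr (hF : PolOn Finset.univ F) (c : Fin e) (p q : Fin e → V) (x y : V) :
    HD W σ D F p (Function.update q c (x + y)) =
      HD W σ D F p (Function.update q c x) + HD W σ D F p (Function.update q c y) :=
  HD_right W σ D F _ _ _ (fun p' => pol_add_right hF c p' q x y) p

theorem HD_addl (hF : PolOn Finset.univ F) (c : Fin e) (p q : Fin e → V) (x y : V) :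
    HD W σ D F (Function.update p c (x + y)) q =
      HD W σ D F (Function.update p c x) q + HD W σ D F (Function.update p c y) q :=
  HD_add_left W σ D F c (fun p' q' x' y' => hF.add c (Finset.mem_univ c) p' q' x' y') p q x y

theorem HD_symm (hF : PolOn Finset.univ F) {c : Fin e} (hc : c ∉ D) (p q : Fin e → V) (x y : V) :
    HD W σ D F (Function.update p c x) (Function.update q c y) =
      HD W σ D F (Function.update p c y) (Function.update q c x) := by
  unfold HD
  refine Finset.sum_congr rfl fun S hS => ?_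
  have hcS : c ∉ S := fun h => hc (Finset.mem_powerset.mp hS h)
  rw [sub_update, sub_update, if_neg hcS, if_neg hcS, pol_symm' hF]

theorem HD_linl {θ : ι → R →+* ℂ} {κ : Fin e → ι} {f : (Fin e → V) → U} (hf : Inv θ κ f)
    (hF : PolOn Finset.univ F) (hFM : ∀ M, F M M = f M) {c : Fin e} (hc : c ∉ D)
    (p q : Fin e → V) (r s : R) (u : V) (hr : θ (κ c) r = θ (κ c) s) :
    HD W σ D F (Function.update p c (r • u)) q = HD W σ D F (Function.update p c (s • u)) q := by
  unfold HD
  refine Finset.sum_congr rfl fun S hS => ?_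
  have hcS : c ∉ S := fun h => hc (Finset.mem_powerset.mp hS h)
  rw [sub_update, sub_update, if_neg hcS, if_neg hcS, pol_lin hf hF hFM _ _ c r s u hr]

theorem HD_linr {θ : ι → R →+* ℂ} {κ : Fin e → ι} {f : (Fin e → V) → U} (hf : Inv θ κ f)
    (hF : PolOn Finset.univ F) (hFM : ∀ M, F M M = f M) (c : Fin e)
    (p q : Fin e → V) (r s : R) (u : V) (hr : θ (κ c) r = θ (κ c) s) :
    HD W σ D F p (Function.update q c (r • u)) = HD W σ D F p (Function.update q c (s • u)) := by
  unfold HD
  refine Finset.sum_congr rfl fun S hS => ?_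
  have h : ∀ (p' : Fin e → V) (z : V), F p' (Function.update q c z)
      = F (Function.update p' c z) (Function.update q c (p' c)) := by
    intro p' z
    have h := hF.symm c (Finset.mem_univ c) p' (Function.update q c z)
    rw [Function.update_self, Function.update_idem] at h
    exact h.symm
  rw [h (sub W S p) (r • u), h (sub W S p) (s • u), pol_lin hf hF hFM _ _ c r s u hr]

theorem HD_skew {θ : ι → R →+* ℂ} {κ : Fin e → ι} {f : (Fin e → V) → U} (hf : Inv θ κ f)
    (hF : PolOn Finset.univ F) (hFM : ∀ M, F M M = f M) {c : Fin e} (hc : c ∉ D)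
    {w : R} {d : ℕ} (hd : 0 < d) (hw : θ (κ c) w * θ (κ c) w = -(d : ℂ))
    (p q : Fin e → V) (x y : V) :
    HD W σ D F (Function.update p c (w • x)) (Function.update q c y) =
      -HD W σ D F (Function.update p c x) (Function.update q c (w • y)) := by
  unfold HD
  rw [← Finset.sum_neg_distrib]
  refine Finset.sum_congr rfl fun S hS => ?_
  have hcS : c ∉ S := fun h => hc (Finset.mem_powerset.mp hS h)
  rw [sub_update, sub_update, if_neg hcS, if_neg hcS, pol_skew hf hF hFM c hd hw, smul_neg]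

theorem HD_sq {θ : ι → R →+* ℂ} {κ : Fin e → ι} {f : (Fin e → V) → U} (hf : Inv θ κ f)
    (hF : PolOn Finset.univ F) (hFM : ∀ M, F M M = f M) {c : Fin e} (hc : c ∉ D)
    {w : R} {d : ℕ} (hw : θ (κ c) w * θ (κ c) w = -(d : ℂ))
    (p q : Fin e → V) (u : V) :
    HD W σ D F (Function.update p c (w • (w • u))) q =
      -((d : ℂ) • HD W σ D F (Function.update p c u) q) := by
  unfold HD
  rw [Finset.smul_sum, ← Finset.sum_neg_distrib]
  refine Finset.sum_congr rfl fun S hS => ?_
  have hcS : c ∉ S := fun h => hc (Finset.mem_powerset.mp hS h)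
  rw [sub_update, sub_update, if_neg hcS, if_neg hcS, pol_sq hf hF hFM c hw, smul_neg, smul_comm]

theorem HD_exch {c c' : Fin e} (hc : c ∉ D) (hc' : c' ∉ D)
    (hE : ∀ (p q : Fin e → V), p c' = q c → 2 • F p q + F (p ∘ Equiv.swap c c') q = 0)
    (p q : Fin e → V) (hpq : p c' = q c) :
    2 • HD W σ D F p q + HD W σ D F (p ∘ Equiv.swap c c') q = 0 := by
  unfold HD
  rw [Finset.smul_sum, ← Finset.sum_add_distrib]
  refine Finset.sum_eq_zero fun S hS => ?_
  have hcS : c ∉ S := fun h => hc (Finset.mem_powerset.mp hS h)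
  have hcS' : c' ∉ S := fun h => hc' (Finset.mem_powerset.mp hS h)
  have h := hE (sub W S p) q (by rw [sub_apply_notMem W hcS', hpq])
  rw [sub_swap W hcS hcS', smul_comm, ← smul_add, h, smul_zero]

theorem HD_swap {c c' : Fin e} (hc : c ∉ D) (hc' : c' ∉ D)
    (hS : ∀ (p q : Fin e → V), F (p ∘ Equiv.swap c c') (q ∘ Equiv.swap c c') = F p q)
    (p q : Fin e → V) :
    HD W σ D F (p ∘ Equiv.swap c c') (q ∘ Equiv.swap c c') = HD W σ D F p q := by
  unfold HD
  refine Finset.sum_congr rfl fun S hS' => ?_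
  have hcS : c ∉ S := fun h => hc (Finset.mem_powerset.mp hS' h)
  have hcS' : c' ∉ S := fun h => hc' (Finset.mem_powerset.mp hS' h)
  rw [sub_swap W hcS hcS', hS]

end Termwise

end Pool.Agent.ZC.AC
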