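import Pool.Agent.Lib.MP_a1cc03_ag.AC.Hg

/-! # The hermitian form of an invariant function -/

namespace Pool.Agent.ZC.AC

open ComplexConjugate

variable {R : Type} [CommRing R] {ι : Type} {e : ℕ} {V : Type*} [AddCommGroup V] [Module R V]
  {U : Type*} [AddCommGroup U] [Module ℂ U]

open scoped Classical in
/-- the factor in the exchange relation -/
noncomputable def wt (θ : ι → R →+* ℂ) (i : ι) : ℕ := if IsCM (θ i) then 1 else 2

theorem wt_pos (θ : ι → R →+* ℂ) (i : ι) : 0 < wt θ i := by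
  unfold wt
  split_ifs <;> norm_num

/-- properties of the hermitian form -/
structure Herm (θ : ι → R →+* ℂ) (κ : Fin e → ι) (H : (Fin e → V) → (Fin e → V) → U) : Prop where
  addl : ∀ (c : Fin e) (p q : Fin e → V) (x y : V), H (Function.update p c (x + y)) q =
    H (Function.update p c x) q + H (Function.update p c y) q
  addr : ∀ (c : Fin e) (p q : Fin e → V) (x y : V), H p (Function.update q c (x + y)) =
    H p (Function.update q c x) + H p (Function.update q c y)
  smull : ∀ (c : Fin e) (p q : Fin e → V) (r : R) (x : V),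
    H (Function.update p c (r • x)) q = θ (κ c) r • H (Function.update p c x) q
  smulr : ∀ (c : Fin e) (p q : Fin e → V) (r : R) (x : V),
    H p (Function.update q c (r • x)) = conj (θ (κ c) r) • H p (Function.update q c x)
  exch : ∀ (c c' : Fin e), c' ≠ c → κ c' = κ c → ∀ (p q : Fin e → V), p c' = q c →
    wt θ (κ c') • H p q + H (p ∘ Equiv.swap c c') q = 0
  swap : ∀ (c c' : Fin e), κ c = κ c' → ∀ (p q : Fin e → V),
    H (p ∘ Equiv.swap c c') (q ∘ Equiv.swap c c') = H p q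

/-- a rational multiple -/
theorem zhom_real {A : Type*} [AddCommGroup A] (φ : A →+ U) (a : ℤ) (x : A) :
    φ (a • x) = (a : ℂ) • φ x := by
  rw [map_zsmul, Int.cast_smul_eq_zsmul]

/-- linearity from linearity for `w` -/
theorem lin_of_w {θ : R →+* ℂ} {w : R} {d : ℕ} (hO : OmP θ w d) (φ : V →+ U) (ε : ℂ →+* ℂ)
    (h1 : ∀ (r s : R) (u : V), θ r = θ s → φ (r • u) = φ (s • u))
    (h2 : ∀ u, φ (w • u) = ε (θ w) • φ u) (r : R) (u : V) : φ (r • u) = ε (θ r) • φ u := by
  obtain ⟨hd, _, _, hr⟩ := hO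
  obtain ⟨a, b, hab⟩ := hr r
  have hd2 : (2 * d : ℂ) ≠ 0 := by
    have : (d : ℂ) ≠ 0 := Nat.cast_ne_zero.mpr hd.ne'
    exact mul_ne_zero two_ne_zero this
  have e1 : (2 * d : ℂ) • φ (r • u) = φ ((((2 * d : ℕ) : R) * r) • u) := by
    have h : (((2 * d : ℕ) : R) * r) • u = (2 * d : ℕ) • (r • u) := by
      rw [mul_smul, Nat.cast_smul_eq_nsmul]
    rw [h, map_nsmul, ← Nat.cast_smul_eq_nsmul ℂ]
    push_cast
    rfl
  have e2 : φ ((((2 * d : ℕ) : R) * r) • u) = φ (((a : R) + (b : R) * w) • u) := by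
    refine h1 _ _ _ ?_
    rw [map_mul, map_natCast, map_add, map_intCast, map_mul, map_intCast, ← hab]
    push_cast
    ring
  have e3 : φ (((a : R) + (b : R) * w) • u) = (ε ((a : ℂ) + b * θ w)) • φ u := by
    rw [add_smul, map_add, mul_smul, Int.cast_smul_eq_zsmul, Int.cast_smul_eq_zsmul,
      zhom_real, zhom_real, h2, smul_smul, ← add_smul, map_add, map_mul, map_intCast, map_intCast]
  have e4 : (2 * d : ℂ) • φ (r • u) = (2 * d : ℂ) • (ε (θ r) • φ u) := by
    rw [e1, e2, e3, ← hab, map_mul, map_mul, map_ofNat, map_natCast, mul_smul]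
  have e5 := sub_eq_zero.mpr e4
  rw [← smul_sub] at e5
  exact sub_eq_zero.mp ((smul_eq_zero.mp e5).resolve_left hd2)

theorem lin_of_real {θ : R →+* ℂ} (hθ : Quad θ) (hn : ¬ IsCM θ) (φ : V →+ U)
    (h1 : ∀ (r s : R) (u : V), θ r = θ s → φ (r • u) = φ (s • u))
    (r : R) (u : V) : φ (r • u) = θ r • φ u := by
  obtain ⟨_, a, ha⟩ := not_cm hθ hn r
  have e1 : (2 : ℂ) • φ (r • u) = φ (((2 : R) * r) • u) := by
    have h : ((2 : R) * r) • u = (2 : ℕ) • (r • u) := by
      rw [mul_smul, two_smul, two_smul]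
    rw [h, map_nsmul, two_smul, two_smul]
  have e2 : φ (((2 : R) * r) • u) = φ ((a : R) • u) := by
    refine h1 _ _ _ ?_
    rw [map_mul, map_ofNat, map_intCast, ha]
  have e4 : (2 : ℂ) • φ (r • u) = (2 : ℂ) • (θ r • φ u) := by
    rw [e1, e2, Int.cast_smul_eq_zsmul, zhom_real, ← ha, mul_smul]
  have e5 := sub_eq_zero.mpr e4
  rw [← smul_sub] at e5
  exact sub_eq_zero.mp ((smul_eq_zero.mp e5).resolve_left two_ne_zero)

end Pool.Agent.ZC.AC
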