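import Pool.Agent.Lib.MP_a1cc03_ag.AC.Hh

/-! # The hermitian form of an invariant function: existence -/

namespace Pool.Agent.ZC.AC

open ComplexConjugate

variable {R : Type} [CommRing R] {ι : Type} {e : ℕ} {V : Type*} [AddCommGroup V] [Module R V]
  {U : Type*} [AddCommGroup U] [Module ℂ U]

theorem HD_mem {Q : Type*} (W : Fin e → V →+ V) (σ : Fin e → ℂ) {D : Finset (Fin e)} {c : Fin e}
    (hc : c ∈ D) (F : (Fin e → V) → Q → U) (p : Fin e → V) (q : Q) :
    HD W σ D F p q = HD W σ (D.erase c) F p q +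
      σ c • HD W σ (D.erase c) F (Function.update p c (W c (p c))) q := by
  conv_lhs => rw [← Finset.insert_erase hc]
  exact HD_insert W σ (Finset.notMem_erase c D) F p q

/-- the operators -/
noncomputable def opC (κ : Fin e → ι) (w : ι → R) (c : Fin e) : V →+ V :=
  smulAddHom R V (w (κ c))

theorem opC_apply (κ : Fin e → ι) (w : ι → R) (c : Fin e) (v : V) :
    opC κ w c v = w (κ c) • v := rfl

/-- the constants -/
noncomputable def sgC (θ : ι → R →+* ℂ) (κ : Fin e → ι) (w : ι → R) (c : Fin e) : ℂ :=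
  (θ (κ c) (w (κ c)))⁻¹

open scoped Classical in
/-- the columns of classes with complex multiplications -/
noncomputable def cmC (θ : ι → R →+* ℂ) (κ : Fin e → ι) : Finset (Fin e) :=
  Finset.univ.filter fun c => IsCM (θ (κ c))

theorem mem_cmC {θ : ι → R →+* ℂ} {κ : Fin e → ι} {c : Fin e} :
    c ∈ cmC θ κ ↔ IsCM (θ (κ c)) := by
  classical
  unfold cmC
  simp

/-- the hermitian form -/
noncomputable def HH (θ : ι → R →+* ℂ) (κ : Fin e → ι) (w : ι → R)
    (F : (Fin e → V) → (Fin e → V) → U) : (Fin e → V) → (Fin e → V) → U :=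
  HD (opC κ w) (sgC θ κ w) (cmC θ κ) F

section

variable {θ : ι → R →+* ℂ} {κ : Fin e → ι} {w : ι → R} {d : ι → ℕ}

theorem om_ne {θ : R →+* ℂ} {w : R} {d : ℕ} (h : OmP θ w d) : θ w ≠ 0 := by
  intro h0
  have h1 := h.2.1
  rw [h0, mul_zero] at h1
  have h2 : (d : ℂ) ≠ 0 := Nat.cast_ne_zero.mpr h.1.ne'
  exact h2 (neg_eq_zero.mp h1.symm)

theorem om_sg {θ : R →+* ℂ} {w : R} {d : ℕ} (h : OmP θ w d) :
    1 + (θ w)⁻¹ * (θ w)⁻¹ * d = 0 := by
  have h0 := om_ne h
  have h1 := h.2.1
  have h2 : (θ w)⁻¹ * (θ w)⁻¹ * d = -((θ w)⁻¹ * (θ w)⁻¹ * (θ w * θ w)) := by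
    rw [h1]
    ring
  rw [h2]
  field_simp
  ring

variable (hθ : ∀ i, Quad (θ i)) (hO : ∀ i, IsCM (θ i) → OmP (θ i) (w i) (d i))
  {f : (Fin e → V) → U} (hf : Inv θ κ f) {F : (Fin e → V) → (Fin e → V) → U}
  (hF : PolOn Finset.univ F) (hFM : ∀ M, F M M = f M)

include hO hf hF hFM in
theorem HH_wl {c : Fin e} (hc : IsCM (θ (κ c))) (p q : Fin e → V) (u : V) :
    HH θ κ w F (Function.update p c (w (κ c) • u)) q =
      θ (κ c) (w (κ c)) • HH θ κ w F (Function.update p c u) q := by
  have hm := mem_cmC.mpr hc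
  have hO' := hO _ hc
  have hn := Finset.notMem_erase c (cmC θ κ)
  unfold HH
  rw [HD_mem _ _ hm, HD_mem _ _ hm]
  simp only [Function.update_idem, Function.update_self, opC_apply]
  rw [HD_sq _ _ _ hf hF hFM hn hO'.2.1, smul_add, smul_smul]
  unfold sgC
  rw [mul_inv_cancel₀ (om_ne hO'), one_smul, smul_neg, smul_smul]
  have h1 : -((θ (κ c) (w (κ c)))⁻¹ * (d (κ c) : ℂ)) = θ (κ c) (w (κ c)) := by
    have h0 := om_ne hO'
    have h2 := hO'.2.1
    field_simp
    rw [← h2]
    ring
  rw [← neg_smul, h1, add_comm]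

include hO hf hF hFM in
theorem HH_wr {c : Fin e} (hc : IsCM (θ (κ c))) (p q : Fin e → V) (u : V) :
    HH θ κ w F p (Function.update q c (w (κ c) • u)) =
      conj (θ (κ c) (w (κ c))) • HH θ κ w F p (Function.update q c u) := by
  have hm := mem_cmC.mpr hc
  have hO' := hO _ hc
  have hn := Finset.notMem_erase c (cmC θ κ)
  unfold HH
  rw [HD_mem _ _ hm, HD_mem _ _ hm]
  simp only [opC_apply]
  have e1 : ∀ x : V, HD (opC κ w) (sgC θ κ w) ((cmC θ κ).erase c) F (Function.update p c x)
      (Function.update q c (w (κ c) • u)) =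
      -HD (opC κ w) (sgC θ κ w) ((cmC θ κ).erase c) F (Function.update p c (w (κ c) • x))
      (Function.update q c u) := by
    intro x
    rw [HD_skew _ _ _ hf hF hFM hn hO'.1 hO'.2.1, neg_neg]
  have e2 := e1 (p c)
  rw [Function.update_eq_self] at e2
  rw [e2, e1, HD_sq _ _ _ hf hF hFM hn hO'.2.1, neg_neg, Function.update_eq_self, hO'.2.2.1,
    smul_add, smul_smul, smul_smul]
  unfold sgC
  have h1 : (θ (κ c) (w (κ c)))⁻¹ * (d (κ c) : ℂ) = -θ (κ c) (w (κ c)) := by
    have h0 := om_ne hO'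
    have h2 := hO'.2.1
    field_simp
    linear_combination h2
  have h3 : -θ (κ c) (w (κ c)) * (θ (κ c) (w (κ c)))⁻¹ = -1 := by
    rw [neg_mul, mul_inv_cancel₀ (om_ne hO')]
  rw [h1, h3, neg_one_smul, add_comm]

include hf hF hFM in
theorem HH_linl {c : Fin e} (p q : Fin e → V) (r s : R) (u : V) (hr : θ (κ c) r = θ (κ c) s) :
    HH θ κ w F (Function.update p c (r • u)) q = HH θ κ w F (Function.update p c (s • u)) q := by
  by_cases hc : IsCM (θ (κ c))
  · have hm := mem_cmC.mpr hc
    have hn := Finset.notMem_erase c (cmC θ κ)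
    unfold HH
    rw [HD_mem _ _ hm, HD_mem _ _ hm]
    simp only [Function.update_idem, Function.update_self, opC_apply]
    rw [HD_linl _ _ _ hf hF hFM hn _ _ r s u hr, smul_smul, smul_smul,
      HD_linl _ _ _ hf hF hFM hn _ _ (w (κ c) * r) (w (κ c) * s) u (by
        rw [map_mul, map_mul, hr])]
  · have hn : c ∉ cmC θ κ := fun h => hc (mem_cmC.mp h)
    exact HD_linl _ _ _ hf hF hFM hn _ _ r s u hr

include hθ hO hf hF hFM in
theorem HH_smull (c : Fin e) (p q : Fin e → V) (r : R) (x : V) :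
    HH θ κ w F (Function.update p c (r • x)) q =
      θ (κ c) r • HH θ κ w F (Function.update p c x) q := by
  have hadd := HD_addl (opC κ w) (sgC θ κ w) (cmC θ κ) hF c p q
  by_cases hc : IsCM (θ (κ c))
  · exact lin_of_w (hO _ hc) (AddMonoidHom.mk' (fun x => HH θ κ w F (Function.update p c x) q) hadd)
      (RingHom.id ℂ) (fun r s u h => HH_linl hf hF hFM p q r s u h)
      (fun u => HH_wl hO hf hF hFM hc p q u) r x
  · exact lin_of_real (hθ _) hc
      (AddMonoidHom.mk' (fun x => HH θ κ w F (Function.update p c x) q) hadd)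
      (fun r s u h => HH_linl hf hF hFM p q r s u h) r x

include hθ hO hf hF hFM in
theorem HH_smulr (c : Fin e) (p q : Fin e → V) (r : R) (x : V) :
    HH θ κ w F p (Function.update q c (r • x)) =
      conj (θ (κ c) r) • HH θ κ w F p (Function.update q c x) := by
  have hadd := HD_addr (opC κ w) (sgC θ κ w) (cmC θ κ) hF c p q
  by_cases hc : IsCM (θ (κ c))
  · exact lin_of_w (hO _ hc) (AddMonoidHom.mk' (fun x => HH θ κ w F p (Function.update q c x)) hadd)
      (starRingEnd ℂ) (fun r s u h => HD_linr (opC κ w) (sgC θ κ w) (cmC θ κ) hf hF hFM c p q r s u h)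
      (fun u => HH_wr hO hf hF hFM hc p q u) r x
  · have h := lin_of_real (hθ _) hc
      (AddMonoidHom.mk' (fun x => HH θ κ w F p (Function.update q c x)) hadd)
      (fun r s u h => HD_linr (opC κ w) (sgC θ κ w) (cmC θ κ) hf hF hFM c p q r s u h) r x
    rw [(not_cm (hθ _) hc r).1]
    exact h

include hO hf hF hFM in
theorem HH_diag (M : Fin e → V) : HH θ κ w F M M = f M := by
  classical
  -- remove the columns one after the other
  have key : ∀ D : Finset (Fin e), (∀ c ∈ D, IsCM (θ (κ c))) →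
      HD (opC κ w) (sgC θ κ w) D F M M = F M M := by
    intro D
    induction D using Finset.induction_on with
    | empty =>
      intro _
      unfold HD
      rw [Finset.powerset_empty, Finset.sum_singleton, Finset.prod_empty, one_smul]
      rfl
    | insert c D hc ih =>
      intro hD
      have hcm := hD c (Finset.mem_insert_self c D)
      have hO' := hO _ hcm
      rw [HD_insert _ _ hc, ih fun b hb => hD b (Finset.mem_insert_of_mem hb)]
      have h1 : HD (opC κ w) (sgC θ κ w) D F (Function.update M c (opC κ w c (M c))) M = 0 := by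
        have e1 := HD_skew (opC κ w) (sgC θ κ w) D hf hF hFM hc hO'.1 hO'.2.1 M M (M c) (M c)
        rw [HD_symm (opC κ w) (sgC θ κ w) D hF hc M M (M c) (w (κ c) • M c)] at e1
        rw [Function.update_eq_self] at e1
        rw [opC_apply]
        have e2 : (2 : ℂ) • HD (opC κ w) (sgC θ κ w) D F (Function.update M c (w (κ c) • M c)) M
            = 0 := by
          rw [two_smul]
          nth_rewrite 1 [e1]
          exact neg_add_cancel _
        exact (smul_eq_zero.mp e2).resolve_left two_ne_zero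
      rw [h1, smul_zero, add_zero]
  unfold HH
  rw [key _ fun c hc => mem_cmC.mp hc, hFM]

end

end Pool.Agent.ZC.AC
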