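import Pool.Agent.Lib.MP_a1cc03_ag.AC.Defs

/-! # Rows L1, L2, L3: invariances of linear cycles -/

noncomputable section

namespace Pool.Agent.ZC.AC

open WeierstrassCurve

variable {R : Type} [CommRing R] {K : Type} [Field K] [DecidableEq K] {ι : Type} [DecidableEq ι]
  (E : ι → WeierstrassCurve K) [∀ i, Module R (E i).toAffine.Point] {n e : ℕ} (j : Fin n → ι) (κ : Fin e → ι)

omit [DecidableEq K] in
theorem l1_single {A : ι → Type*} [∀ i, Zero (A i)] {i i' : ι} (h : i = i') (x : A i) :
    Pi.single i' ((Pi.single i x : ∀ i, A i) i') = (Pi.single i x : ∀ i, A i) := by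
  subst h
  rw [Pi.single_eq_same]

theorem l1_of_equiv (M M' : Fin e → Fin n → R)
    (T : (∀ c, (E (κ c)).toAffine.Point) ≃ (∀ c, (E (κ c)).toAffine.Point))
    (h : ∀ z, abMap E j κ M' z = abMap E j κ M (T z)) (a : ∀ k, (E (j k)).toAffine.Point) :
    abCycle E j κ M' a = abCycle E j κ M a := by
  unfold abCycle
  have h1 : Nat.card (abMap E j κ M').ker = Nat.card (abMap E j κ M).ker := by
    refine Nat.card_congr (T.subtypeEquiv fun z => ?_)
    rw [AddMonoidHom.mem_ker, AddMonoidHom.mem_ker, h]
  have h2 : (Set.range fun z => abMap E j κ M' z + a) =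
      Set.range fun z => abMap E j κ M z + a := by
    have h3 : (fun z => abMap E j κ M' z + a) = (fun z => abMap E j κ M z + a) ∘ T := by
      funext z
      rw [Function.comp_apply, h]
    rw [h3, T.surjective.range_comp]
  rw [h1, h2]

theorem l1_apply (M : Fin e → Fin n → R) (z : ∀ c, (E (κ c)).toAffine.Point) (k : Fin n) :
    abMap E j κ M z k =
      ∑ c, M c k • (Pi.single (κ c) (z c) : ∀ i, (E i).toAffine.Point) (j k) := rfl

/-- the map of the docstring of `abCycle_add_col` -/
def l1_S (c c' : Fin e) (z : ∀ c, (E (κ c)).toAffine.Point) : (E (κ c')).toAffine.Point :=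
  (Pi.single (κ c) (z c) : ∀ i, (E i).toAffine.Point) (κ c')

def l1_T (c c' : Fin e) (hcc : c ≠ c') :
    (∀ c, (E (κ c)).toAffine.Point) ≃ (∀ c, (E (κ c)).toAffine.Point) where
  toFun z := Function.update z c' (z c' + l1_S E κ c c' z)
  invFun z := Function.update z c' (z c' - l1_S E κ c c' z)
  left_inv z := by
    have h1 : l1_S E κ c c' (Function.update z c' (z c' + l1_S E κ c c' z)) =
        l1_S E κ c c' z := by
      unfold l1_S
      rw [Function.update_of_ne hcc]
    simp only [h1, Function.update_self, Function.update_idem, add_sub_cancel_right,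
      Function.update_eq_self]
  right_inv z := by
    have h1 : l1_S E κ c c' (Function.update z c' (z c' - l1_S E κ c c' z)) =
        l1_S E κ c c' z := by
      unfold l1_S
      rw [Function.update_of_ne hcc]
    simp only [h1, Function.update_self, Function.update_idem, sub_add_cancel,
      Function.update_eq_self]

/-- **Row L1.** Adding column `c'` to column `c` (same class). Let `T` be the additive automorphism
`z ↦ Function.update z c' (z c' + (Pi.single (κ c) (z c)) (κ c'))` of the source; then
`abMap M' z = abMap M (T z)` for `M' = Function.update M c (M c + M c')` (use: for `h : κ c = κ c'`,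
`Pi.single (κ c') ((Pi.single (κ c) x) (κ c')) = Pi.single (κ c) x`, by generalising and `subst`). So the kernels are
in bijection and the two ranges are equal. -/
theorem abCycle_add_col (M : Fin e → Fin n → R) (c c' : Fin e) (hcc : c ≠ c') (hκ : κ c = κ c')
    (a : ∀ k, (E (j k)).toAffine.Point) :
    abCycle E j κ (Function.update M c (M c + M c')) a = abCycle E j κ M a := by
  refine l1_of_equiv E j κ M _ (l1_T E κ c c' hcc) (fun z => ?_) a
  funext k
  rw [l1_apply, l1_apply]
  have h1 : ∀ d, (Function.update M c (M c + M c')) d k •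
      (Pi.single (κ d) (z d) : ∀ i, (E i).toAffine.Point) (j k) =
      M d k • (Pi.single (κ d) (z d) : ∀ i, (E i).toAffine.Point) (j k) +
        (if d = c then M c' k • (Pi.single (κ c) (z c) : ∀ i, (E i).toAffine.Point) (j k)
          else 0) := by
    intro d
    by_cases hd : d = c
    · subst hd
      rw [Function.update_self, if_pos rfl, Pi.add_apply, add_smul]
    · rw [Function.update_of_ne hd, if_neg hd, add_zero]
  have h2 : ∀ d, M d k • (Pi.single (κ d) (l1_T E κ c c' hcc z d) :
      ∀ i, (E i).toAffine.Point) (j k) =
      M d k • (Pi.single (κ d) (z d) : ∀ i, (E i).toAffine.Point) (j k) +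
        (if d = c' then M c' k • (Pi.single (κ c) (z c) : ∀ i, (E i).toAffine.Point) (j k)
          else 0) := by
    intro d
    by_cases hd : d = c'
    · subst hd
      have h3 : l1_T E κ c d hcc z d = z d + l1_S E κ c d z := by
        change Function.update z d (z d + l1_S E κ c d z) d = _
        rw [Function.update_self]
      have h4 : (Pi.single (κ d) (l1_S E κ c d z) : ∀ i, (E i).toAffine.Point) =
          Pi.single (κ c) (z c) :=
        l1_single (A := fun i => (E i).toAffine.Point) hκ (z c)
      rw [h3, if_pos rfl, Pi.single_add, Pi.add_apply, smul_add, h4]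
    · have h3 : l1_T E κ c c' hcc z d = z d := by
        change Function.update z c' (z c' + l1_S E κ c c' z) d = _
        rw [Function.update_of_ne hd]
      rw [h3, if_neg hd, add_zero]
  rw [Finset.sum_congr rfl fun d _ => h1 d, Finset.sum_congr rfl fun d _ => h2 d,
    Finset.sum_add_distrib, Finset.sum_add_distrib, Finset.sum_ite_eq' Finset.univ c,
    Finset.sum_ite_eq' Finset.univ c', if_pos (Finset.mem_univ _), if_pos (Finset.mem_univ _)]

/-- **Row L2.** Translation by a point of the image. -/
theorem abCycle_translate (M : Fin e → Fin n → R) (a : ∀ k, (E (j k)).toAffine.Point)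
    (w : ∀ c, (E (κ c)).toAffine.Point) :
    abCycle E j κ M (abMap E j κ M w + a) = abCycle E j κ M a := by
  unfold abCycle
  have h2 : (Set.range fun z => abMap E j κ M z + (abMap E j κ M w + a)) =
      Set.range fun z => abMap E j κ M z + a := by
    have h3 : (fun z => abMap E j κ M z + (abMap E j κ M w + a)) =
        (fun z => abMap E j κ M z + a) ∘ (Equiv.addRight w) := by
      funext z
      rw [Function.comp_apply, Equiv.coe_addRight, map_add, add_assoc]
    rw [h3, (Equiv.addRight w).surjective.range_comp]
  rw [h2]

/-- **Row L2b.** The points `v ⊗ x` used below: if `κ c = i`, the point with coordinates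
`M c k • x` (for `j k = i`) is in the image of `M`, so the translate is the same (L2 with `w` supported
at `c`). -/
theorem abCycle_col (M : Fin e → Fin n → R) (c : Fin e) (i : ι) (hκ : κ c = i)
    (x : (E i).toAffine.Point) :
    abCycle E j κ M (fun k => M c k • (Pi.single i x : ∀ i, (E i).toAffine.Point) (j k))
      = abCycle E j κ M 0 := by
  subst hκ
  have h1 := abCycle_translate E j κ M 0 (Pi.single c x)
  rw [add_zero] at h1
  rw [← h1]
  congr 1
  funext k
  rw [l1_apply, Finset.sum_eq_single_of_mem c (Finset.mem_univ c)]
  · rw [Pi.single_eq_same]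
  · intro d _ hd
    rw [Pi.single_eq_of_ne hd, Pi.single_zero, Pi.zero_apply, smul_zero]

end Pool.Agent.ZC.AC
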