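import Pool.Agent.Lib.MP_a1cc03_ag.AC.L1

/-! # Row L7: entries which act as zero -/

noncomputable section

namespace Pool.Agent.ZC.AC

open WeierstrassCurve

variable {R : Type} [CommRing R] {K : Type} [Field K] [DecidableEq K] {ι : Type} [DecidableEq ι]
  (E : ι → WeierstrassCurve K) [∀ i, Module R (E i).toAffine.Point] {n e : ℕ} (j : Fin n → ι)
  (κ : Fin e → ι)

theorem l7_single {i : ι} {r : R} (hr : ∀ P : (E i).toAffine.Point, r • P = 0)
    (x : (E i).toAffine.Point) (i' : ι) :
    r • (Pi.single i x : ∀ i, (E i).toAffine.Point) i' = 0 := by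
  by_cases h : i' = i
  · subst h
    rw [Pi.single_eq_same]
    exact hr x
  · rw [Pi.single_eq_of_ne h, smul_zero]

/-- **Row L7.** Adding to a column a multiple of `r`, if `r` acts as zero. -/
theorem abMap_nul (M : Fin e → Fin n → R) (c : Fin e) (r : R)
    (hr : ∀ P : (E (κ c)).toAffine.Point, r • P = 0) (u : Fin n → R) :
    abMap E j κ (Function.update M c (M c + r • u)) = abMap E j κ M := by
  refine AddMonoidHom.ext fun z => ?_
  funext k
  rw [l1_apply, l1_apply]
  refine Finset.sum_congr rfl fun d _ => ?_
  by_cases hd : d = c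
  · subst hd
    rw [Function.update_self, Pi.add_apply, Pi.smul_apply, smul_eq_mul, add_smul, mul_comm r (u k),
      mul_smul, l7_single E hr, smul_zero, add_zero]
  · rw [Function.update_of_ne hd]

theorem abCycle_nul (M : Fin e → Fin n → R) (c : Fin e) (r : R)
    (hr : ∀ P : (E (κ c)).toAffine.Point, r • P = 0) (u : Fin n → R)
    (a : ∀ k, (E (j k)).toAffine.Point) :
    abCycle E j κ (Function.update M c (M c + r • u)) a = abCycle E j κ M a := by
  unfold abCycle
  rw [abMap_nul E j κ M c r hr u]

end Pool.Agent.ZC.AC
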