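import Pool.Agent.Lib.MP_a1cc03_ag.AC.Alg

/-! # The purely imaginary element -/

namespace Pool.Agent.ZC.AC

open ComplexConjugate

variable {R : Type} [CommRing R]

/-- complex multiplications -/
def IsCM (θ : R →+* ℂ) : Prop := ∃ r, conj (θ r) ≠ θ r

theorem exists_omega {θ : R →+* ℂ} (hθ : Quad θ) (h : IsCM θ) :
    ∃ (w : R) (d : ℕ), 0 < d ∧ θ w * θ w = -(d : ℂ) ∧ conj (θ w) = -θ w ∧
      ∀ r : R, ∃ a b : ℤ, (2 * d : ℂ) * θ r = a + b * θ w := by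
  obtain ⟨r₀, h0⟩ := h
  obtain ⟨t, m, ht, hm⟩ := hθ r₀
  have hw : θ (2 * r₀ - (t : R)) = θ r₀ - conj (θ r₀) := by
    rw [map_sub, map_mul, map_ofNat, map_intCast, ← ht]
    ring
  have hc : conj (θ (2 * r₀ - (t : R))) = -θ (2 * r₀ - (t : R)) := by
    rw [hw, map_sub, Complex.conj_conj]
    ring
  have hne : θ (2 * r₀ - (t : R)) ≠ 0 := by
    rw [hw]
    intro h
    exact h0 (sub_eq_zero.mp h).symm
  -- the square is a negative integer
  have hsq : θ (2 * r₀ - (t : R)) * θ (2 * r₀ - (t : R)) = ((t ^ 2 - 4 * m : ℤ) : ℂ) := by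
    rw [hw]
    push_cast
    rw [← ht, ← hm]
    ring
  have hns : θ (2 * r₀ - (t : R)) * θ (2 * r₀ - (t : R)) =
      -((Complex.normSq (θ (2 * r₀ - (t : R))) : ℝ) : ℂ) := by
    rw [Complex.normSq_eq_conj_mul_self, hc]
    ring
  have hint : ((Complex.normSq (θ (2 * r₀ - (t : R))) : ℝ) : ℂ) = ((4 * m - t ^ 2 : ℤ) : ℂ) := by
    have h1 := hns.symm.trans hsq
    push_cast at h1 ⊢
    linear_combination -h1
  have hint' : Complex.normSq (θ (2 * r₀ - (t : R))) = ((4 * m - t ^ 2 : ℤ) : ℝ) := by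
    exact_mod_cast hint
  have hpos : 0 < 4 * m - t ^ 2 := by
    have h1 := Complex.normSq_pos.mpr hne
    rw [hint'] at h1
    exact_mod_cast h1
  obtain ⟨d, hd⟩ := Int.eq_ofNat_of_zero_le hpos.le
  have hdc : (d : ℂ) = ((4 * m - t ^ 2 : ℤ) : ℂ) := by
    rw [hd]
    push_cast
    rfl
  refine ⟨2 * r₀ - (t : R), d, by omega, ?_, hc, ?_⟩
  · rw [hns, hint, hdc]
  · intro r
    obtain ⟨tr, mr, htr, hmr⟩ := hθ r
    obtain ⟨ts, ms, hts, hms⟩ := hθ (r + (2 * r₀ - (t : R)))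
    obtain ⟨tw, mw, htw, hmw⟩ := hθ (2 * r₀ - (t : R))
    rw [map_add, map_add] at hms
    -- cross term
    have hk : θ r * conj (θ (2 * r₀ - (t : R))) + conj (θ r) * θ (2 * r₀ - (t : R)) =
        ((ms - mr - mw : ℤ) : ℂ) := by
      push_cast
      linear_combination hms - hmr - hmw
    rw [hc] at hk
    refine ⟨(d : ℤ) * tr, ms - mr - mw, ?_⟩
    push_cast at hk ⊢
    have hww : θ (2 * r₀ - (t : R)) * θ (2 * r₀ - (t : R)) = -(d : ℂ) := by
      rw [hns, hint, hdc]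
    rw [← hk, ← htr]
    linear_combination (θ r - conj (θ r)) * hww

theorem not_cm {θ : R →+* ℂ} (hθ : Quad θ) (h : ¬ IsCM θ) (r : R) :
    conj (θ r) = θ r ∧ ∃ a : ℤ, 2 * θ r = a := by
  have h1 : conj (θ r) = θ r := by
    by_contra hn
    exact h ⟨r, hn⟩
  obtain ⟨t, m, ht, _⟩ := hθ r
  refine ⟨h1, t, ?_⟩
  rw [← ht, h1]
  ring

end Pool.Agent.ZC.AC
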