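import Pool.Agent.Lib.MP_a1cc03_ag.AC.P2

/-! # Row P4: the exchange relation for a column and the point -/

namespace Pool.Agent.ZC.AC

variable {k₀ : Type*} [Field k₀] [CharZero k₀] {U : Type*} [AddCommGroup U] [Module k₀ U] {e : ℕ} {V : Type*} [AddCommGroup V]

variable (k₀) in
include k₀ in
theorem p4_tri {A : Type*} [AddCommGroup A] (G : A → A → A → U)
    (h1 : ∀ a a' b d, G (a + a') b d = G a b d + G a' b d)
    (h2 : ∀ a b b' d, G a (b + b') d = G a b d + G a b' d)
    (hs : ∀ a b d, G a b d = G d b a) (hz : ∀ w, G w w w = 0) (x w : A) :
    2 • G x w w + G w x w = 0 := by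
  have h3 : ∀ a b d d', G a b (d + d') = G a b d + G a b d' := by
    intro a b d d'
    rw [hs, h1, hs d b a, hs d' b a]
  have n1 : ∀ a b d, G (-a) b d = -G a b d := fun a b d =>
    (AddMonoidHom.mk' (fun a => G a b d) (fun a a' => h1 a a' b d)).map_neg a
  have n2 : ∀ a b d, G a (-b) d = -G a b d := fun a b d =>
    (AddMonoidHom.mk' (fun b => G a b d) (fun b b' => h2 a b b' d)).map_neg b
  have n3 : ∀ a b d, G a b (-d) = -G a b d := fun a b d =>
    (AddMonoidHom.mk' (fun d => G a b d) (fun d d' => h3 a b d d')).map_neg d
  have T : ∀ x : A, (2 • G x w w + G w x w) + (2 • G w x x + G x w x) = 0 := by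
    intro x
    have h4 := hz (w + x)
    rw [h1, h2, h2, h3, h3, h3, h3, hz, hz, hs w w x, hs x x w] at h4
    rw [← h4]
    abel
  have h5 := T x
  have h6 := T (-x)
  rw [n1, n2, n2, n3, neg_neg, n1, n3, neg_neg] at h6
  refine p2_two k₀ ?_
  have h7 : (2 • G x w w + G w x w) + (2 • G x w w + G w x w) =
      ((2 • G x w w + G w x w) + (2 • G w x x + G x w x)) -
        ((2 • -G x w w + -G w x w) + (2 • G w x x + G x w x)) := by
    abel
  rw [h7, h5, h6, sub_zero]

include k₀ in
/-- **Row P4.** `F` has values in additive maps (the last variable is the point) and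
`F M M (M c) = 0`. Then `2 F p q (q c) + F (update p c (q c)) q (p c) = 0`.
Proof: `H(x, w; z) = F (update p c x) (update q c w) z`. First case `p b = q b` for all `b ≠ c`: `H(w, w; w) = 0`;
expand with `w + x` and `w - x` in place of `w`: `H(w,w;x) + 2 H(w,x;w) = 0` (as in row P3). General case:
`vanish_of_diag` (P2) with `D = univ \ {c}` for the function
`(p', q') ↦ 2 F (update p' c x) (update q' c w) w + F (update p' c w) (update q' c w) x`, `x = p c`, `w = q c`. -/
theorem exchange_point (F : (Fin e → V) → (Fin e → V) → ((V) →+ U))
    (hF : PolOn Finset.univ F) (c : Fin e)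
    (hvan : ∀ M : Fin e → V, F M M (M c) = 0) (p q : Fin e → V) :
    2 • F p q (q c) + F (Function.update p c (q c)) q (p c) = 0 := by
  classical
  set x := p c with hx
  set w := q c with hw
  have key : ∀ p' q' : Fin e → V,
      2 • F (Function.update p' c x) (Function.update q' c w) w +
        F (Function.update p' c w) (Function.update q' c w) x = 0 := by
    refine vanish_of_diag (k₀ := k₀) (Finset.univ.erase c) (fun p' q' =>
      2 • F (Function.update p' c x) (Function.update q' c w) w +
        F (Function.update p' c w) (Function.update q' c w) x) ⟨?_, ?_⟩ ?_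
    · intro b hb p' q' y z
      have hbc : b ≠ c := Finset.ne_of_mem_erase hb
      simp only [Function.update_comm hbc, hF.add b (Finset.mem_univ b), AddMonoidHom.add_apply]
      abel
    · intro b hb p' q'
      have hbc : b ≠ c := Finset.ne_of_mem_erase hb
      have h1 : ∀ u v, F (Function.update (Function.update p' b (q' b)) c u)
          (Function.update (Function.update q' b (p' b)) c v) =
          F (Function.update p' c u) (Function.update q' c v) := by
        intro u v
        have h2 := hF.symm b (Finset.mem_univ b) (Function.update p' c u) (Function.update q' c v)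
        rw [Function.update_of_ne hbc, Function.update_of_ne hbc, Function.update_comm hbc.symm,
          Function.update_comm hbc.symm] at h2
        exact h2
      simp only [h1]
    · intro p' q' hpq
      have h2 : ∀ v, Function.update q' c v = Function.update p' c v := by
        intro v
        funext b
        rcases eq_or_ne b c with rfl | hbc
        · rw [Function.update_self, Function.update_self]
        · rw [Function.update_of_ne hbc, Function.update_of_ne hbc]
          exact (hpq b (Finset.mem_erase.mpr ⟨hbc, Finset.mem_univ b⟩)).symm
      simp only [h2]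
      refine p4_tri k₀ (fun a z d => F (Function.update p' c a) (Function.update p' c d) z)
        ?_ ?_ ?_ ?_ x w
      · intro a a' z d
        simp only [hF.add c (Finset.mem_univ c), AddMonoidHom.add_apply]
      · intro a z z' d
        simp only [map_add]
      · intro a z d
        have h3 := hF.symm c (Finset.mem_univ c) (Function.update p' c d) (Function.update p' c a)
        simp only [Function.update_self, Function.update_idem] at h3
        simp only [h3]
      · intro w
        have h3 := hvan (Function.update p' c w)
        rwa [Function.update_self] at h3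
  have h4 := key p q
  rwa [hx, Function.update_eq_self, ← hx, hw, Function.update_eq_self] at h4

end Pool.Agent.ZC.AC
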