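import Pool.Agent.Lib.MP_a1cc03_ag.AC.X2
import Pool.Agent.Lib.MP_a1cc03_ag.LC.QMain

/-! # Abelian subvarieties on quotients of products of elliptic curves -/

noncomputable section

namespace Pool.Agent.ZC.AC

open WeierstrassCurve ComplexConjugate

variable {R : Type} [CommRing R] {K : Type} [Field K] [DecidableEq K] {ι : Type} [DecidableEq ι]
  (E : ι → WeierstrassCurve K) [∀ i, Module R (E i).toAffine.Point] {n e : ℕ} (j : Fin n → ι)

theorem abMap_comp (κ : Fin e → ι) (S : Fin n → Fin n → R) (hS : ∀ l k, j l ≠ j k → S l k = 0)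
    (M : Fin e → Fin n → R) (z : ∀ c, (E (κ c)).toAffine.Point) :
    abMap E j j S (abMap E j κ M z) = abMap E j κ (abComp S M) z := by
  funext k
  change ∑ l, S l k • (Pi.single (j l) (∑ c, M c l •
      (Pi.single (κ c) (z c) : ∀ i, (E i).toAffine.Point) (j l)) : ∀ i, (E i).toAffine.Point) (j k)
    = ∑ c, (∑ l, M c l * S l k) • (Pi.single (κ c) (z c) : ∀ i, (E i).toAffine.Point) (j k)
  have h : ∀ l, S l k • (Pi.single (j l) (∑ c, M c l •
      (Pi.single (κ c) (z c) : ∀ i, (E i).toAffine.Point) (j l)) : ∀ i, (E i).toAffine.Point) (j k)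
      = ∑ c, (M c l * S l k) • (Pi.single (κ c) (z c) : ∀ i, (E i).toAffine.Point) (j k) := by
    intro l
    by_cases hl : j l = j k
    · have h1 : ∀ (w : ∀ i, (E i).toAffine.Point) (i i' : ι), i = i' →
          (Pi.single i (w i) : ∀ i, (E i).toAffine.Point) i' = w i' := by
        intro w i i' h
        subst h
        rw [Pi.single_eq_same]
      have h2 := h1 (fun i => ∑ c, M c l • (Pi.single (κ c) (z c) : ∀ i, (E i).toAffine.Point) i)
        (j l) (j k) hl
      rw [h2, Finset.smul_sum]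
      refine Finset.sum_congr rfl fun c _ => ?_
      rw [smul_smul, mul_comm]
    · rw [hS l k hl, zero_smul]
      symm
      refine Finset.sum_eq_zero fun c _ => ?_
      rw [mul_zero, zero_smul]
  rw [Finset.sum_congr rfl fun l _ => h l, Finset.sum_comm]
  refine Finset.sum_congr rfl fun c _ => ?_
  rw [Finset.sum_smul]

variable {G : Type} [Group G] [MulAction G (∀ k, (E (j k)).toAffine.Point)]

theorem abMap_inj {g : G} {S : Fin n → Fin n → R} {t : ∀ k, (E (j k)).toAffine.Point}
    (hg : ∀ x : ∀ k, (E (j k)).toAffine.Point, g • x = abAff E j S t x) :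
    Function.Injective (abMap E j j S) := by
  intro x y h
  apply MulAction.injective g
  change g • x = g • y
  rw [hg, hg, abAff, abAff, h]

theorem abCycle_act (κ : Fin e → ι) {g : G} {S : Fin n → Fin n → R}
    {t : ∀ k, (E (j k)).toAffine.Point} (hS : ∀ l k, j l ≠ j k → S l k = 0)
    (hg : ∀ x : ∀ k, (E (j k)).toAffine.Point, g • x = abAff E j S t x)
    (M : Fin e → Fin n → R) (a : ∀ k, (E (j k)).toAffine.Point) :
    abCycle E j κ (abComp S M) (g • a)
      = FreeAbelianGroup.map (fun Z => (fun x => g • x) '' Z) (abCycle E j κ M a) := by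
  unfold abCycle
  rw [map_nsmul, FreeAbelianGroup.map_of_apply]
  congr 1
  · refine Nat.card_congr (Equiv.subtypeEquiv (Equiv.refl _) ?_)
    intro z
    rw [AddMonoidHom.mem_ker, AddMonoidHom.mem_ker, ← abMap_comp E j κ S hS]
    change abMap E j j S (abMap E j κ M z) = 0 ↔ abMap E j κ M z = 0
    constructor
    · intro h
      apply abMap_inj E j hg
      rw [h, map_zero]
    · intro h
      rw [h, map_zero]
  · congr 1
    rw [← Set.range_comp]
    congr 1
    funext z
    simp only [Function.comp_apply]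
    rw [hg, hg, abAff, abAff, map_add, abMap_comp E j κ S hS, add_assoc]

/-- The main theorem for quotients: if the class and the Abel-Jacobi image of the sum of all `g z` are
torsion, then `z` is torsion modulo `RatAb` and the cycles `[Z] - [gZ]`. -/
theorem main_quotient [Fintype G] (θ : ι → R →+* ℂ) (hE : ∀ i, IsEndRing (E i) (θ i))
    (hs : ∀ i (r : R), θ i r ≠ 0 → Function.Surjective (fun P : (E i).toAffine.Point => r • P))
    (A : ∀ i, AddSubgroup (E i).toAffine.Point) (hA : ∀ i (r : R), ∀ x ∈ A i, r • x ∈ A i)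
    (b : ∀ k, (E (j k)).toAffine.Point)
    (hprod : ∀ z : FreeAbelianGroup (∀ k, (E (j k)).toAffine.Point),
        z ∈ AddSubgroup.closure (FreeAbelianGroup.of '' {x | ∀ k, x k - b k ∈ A (j k)}) →
        degree (fun k => E (j k)) z = 0 → albanese (fun k => E (j k)) z = 0 →
        ∃ N : ℕ, 0 < N ∧ N • z ∈ RatEqPi (fun k => E (j k)))
    (S : G → Fin n → Fin n → R) (t : G → ∀ k, (E (j k)).toAffine.Point)
    (hS : ∀ g l k, j l ≠ j k → S g l k = 0)
    (hG : ∀ (g : G) (x : ∀ k, (E (j k)).toAffine.Point), g • x = abAff E j (S g) (t g) x)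
    (hb : ∀ (g : G) k, (g • b) k - b k ∈ A (j k))
    {m : ℕ} (κ : Fin m → Fin e → ι) (c : Fin m → ℤ) (M : Fin m → Fin e → Fin n → R)
    (a : Fin m → ∀ k, (E (j k)).toAffine.Point)
    (hM : ∀ s d k, κ s d ≠ j k → M s d k = 0) (ha : ∀ s k, a s k - b k ∈ A (j k))
    (hcl : ∀ I J : Fin e → Fin n, ∑ g, ∑ s, (c s : ℂ) * cminor (cmat θ j (abComp (S g) (M s))) I
      * conj (cminor (cmat θ j (abComp (S g) (M s))) J) = 0)
    (hAJ : ∀ lam : ∀ i, (E i).toAffine.Point → ℂ, (∀ i, IsCoord (A i) (θ i) (lam i)) →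
      ∀ (J : Fin e → Fin n) (L : Fin (e + 1) → Fin n),
        ∑ g, ∑ s, (c s : ℂ) * conj (cminor (cmat θ j (abComp (S g) (M s))) J) *
          cpminor (cmat θ j (abComp (S g) (M s))) (fun k => lam (j k) ((g • a s) k - b k)) L = 0) :
    ∃ N : ℕ, 0 < N ∧ N • ∑ s, c s • abCycle E j (κ s) (M s) (a s) ∈
      (⨆ κ : Fin e → ι, RatAb R E j κ) ⊔ OrbitRel E j G := by
  classical
  let φ : Fin (Fintype.card (G × Fin m)) ≃ G × Fin m := (Fintype.equivFin (G × Fin m)).symm
  have hsum : ∀ {B : Type} [AddCommMonoid B] (f : G → Fin m → B),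
      ∑ q, f (φ q).1 (φ q).2 = ∑ g, ∑ s, f g s := by
    intro B _ f
    rw [Equiv.sum_comp φ (fun p : G × Fin m => f p.1 p.2), Fintype.sum_prod_type]
  have hga : ∀ (g : G) s, g • a s - b = abMap E j j (S g) (a s - b) + (g • b - b) := by
    intro g s
    rw [hG g (a s), hG g b, abAff, abAff, map_sub]
    abel
  obtain ⟨N, hN, hmem⟩ := main_mixed E j θ hE hs A hA b hprod (fun q => κ (φ q).2)
    (fun q => c (φ q).2)
    (fun q => abComp (S (φ q).1) (M (φ q).2)) (fun q => (φ q).1 • a (φ q).2 - b)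
    (by
      intro q d k h
      change ∑ l, M (φ q).2 d l * S (φ q).1 l k = 0
      refine Finset.sum_eq_zero fun l _ => ?_
      by_cases hl : j l = j k
      · rw [hM _ d l (by rw [hl]; exact h), zero_mul]
      · rw [hS _ l k hl, mul_zero])
    (by
      intro q k
      rw [hga]
      refine add_mem ?_ (hb _ _)
      change ∑ l, S (φ q).1 l k • (Pi.single (j l) ((a (φ q).2 - b) l) : ∀ i, (E i).toAffine.Point) (j k) ∈ A (j k)
      exact sum_mem fun l _ => hA _ _ _ (LC.single_mem E A (ha _ l) (j k)))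
    (by
      intro I J
      have := hcl I J
      rwa [← hsum (fun g s => (c s : ℂ) * cminor (cmat θ j (abComp (S g) (M s))) I
        * conj (cminor (cmat θ j (abComp (S g) (M s))) J))] at this)
    (by
      intro lam hlam J L
      have := hAJ lam hlam J L
      rwa [← hsum (fun g s => (c s : ℂ) * conj (cminor (cmat θ j (abComp (S g) (M s))) J) *
          cpminor (cmat θ j (abComp (S g) (M s))) (fun k => lam (j k) ((g • a s) k - b k)) L)] at this)
  simp only [add_sub_cancel] at hmem
  rw [hsum (fun g s => c s • abCycle E j (κ s) (abComp (S g) (M s)) (g • a s))] at hmem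
  set z := ∑ s, c s • abCycle E j (κ s) (M s) (a s) with hz
  have hgz : ∀ g : G, ∑ s, c s • abCycle E j (κ s) (abComp (S g) (M s)) (g • a s)
      = FreeAbelianGroup.map (fun Z => (fun x => g • x) '' Z) z := by
    intro g
    rw [hz, map_sum]
    refine Finset.sum_congr rfl fun s _ => ?_
    rw [map_zsmul, abCycle_act E j (κ s) (hS g) (hG g)]
  simp only [hgz] at hmem
  have hcard : 0 < Fintype.card G := Fintype.card_pos
  refine ⟨N * Fintype.card G, Nat.mul_pos hN hcard, ?_⟩
  have hsplit : (N * Fintype.card G) • z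
      = N • ∑ g : G, FreeAbelianGroup.map (fun Z => (fun x => g • x) '' Z) z
        + N • ∑ g : G, (z - FreeAbelianGroup.map (fun Z => (fun x => g • x) '' Z) z) := by
    rw [Finset.sum_sub_distrib, Finset.sum_const, Finset.card_univ, ← smul_add, add_sub_cancel, smul_smul]
  rw [hsplit]
  refine add_mem (AddSubgroup.mem_sup_left hmem) (AddSubgroup.mem_sup_right ?_)
  exact nsmul_mem (sum_mem fun g _ => LC.sub_map_mem E j g z) _

end Pool.Agent.ZC.AC
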