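import Mathlib

/-! # Row R0: signed evaluation at a permutation -/

namespace Pool.Agent.ZC.AC

open Equiv

variable {k₀ : Type*} [Field k₀] [CharZero k₀] {U : Type*} [AddCommGroup U] [Module k₀ U]
  {V ι C C' : Type*} [Fintype C] [Fintype C'] [DecidableEq C] [DecidableEq C']

omit [DecidableEq C] in
/-- **Row R0.** `C ⊆ C'` (via `inc`), at most one element of `C'` is not in `C`; `κ` a class function on
`C'`, `τ` a permutation preserving classes. `F p q`, `p : C' → V`, `q : C → V`, satisfies the exchange relation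
`(Z)`. Then `sign τ • F (u ∘ τ) (u ∘ inc) = r • F u (u ∘ inc)` with a positive rational number `r` which
depends on `τ` only.
Proof: strong induction on the number of `c : C` with `τ (inc c) ≠ inc c`. If it is zero, `τ` fixes the image
of `inc` and hence the possible remaining element, `τ = 1`, `r = 1`. Otherwise take such a `c` and
`c' = τ⁻¹ (inc c) ≠ inc c`; `κ c' = κ (inc c)`. With `p = u ∘ τ`, `q = u ∘ inc` we have `p c' = q c`, so by `(Z)`
`F (u ∘ τ) q = -(1/2) F (u ∘ τ') q`, `τ' = τ * swap (inc c) c'`, `sign τ' = - sign τ`; `τ'` fixes `inc c` and all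
`inc d` that `τ` fixes. So `r τ = (1/2) r τ'`. -/
theorem signed_eval (inc : C → C') (hinc : Function.Injective inc)
    (hone : ∀ a b : C', a ∉ Set.range inc → b ∉ Set.range inc → a = b) (κ : C' → ι)
    (t : ι → ℕ) (ht : ∀ i, 0 < t i) (τ : Perm C') (hτ : ∀ c, κ (τ c) = κ c) :
    ∃ r : ℚ, 0 < r ∧ ∀ F : (C' → V) → (C → V) → U,
      (∀ (c : C) (c' : C'), c' ≠ inc c → κ c' = κ (inc c) → ∀ (p : C' → V) (q : C → V), p c' = q c →
        t (κ c') • F p q + F (p ∘ swap (inc c) c') q = 0) →
      ∀ u : C' → V, ((Perm.sign τ : ℤˣ) : ℤ) • F (u ∘ τ) (u ∘ inc) = (r : k₀) • F u (u ∘ inc) := by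
  obtain ⟨n, hn⟩ : ∃ n, (Finset.univ.filter (fun c : C => τ (inc c) ≠ inc c)).card = n := ⟨_, rfl⟩
  induction n using Nat.strong_induction_on generalizing τ with
  | _ n ih =>
  by_cases hfix : ∀ c : C, τ (inc c) = inc c
  · have h1 : τ = 1 := by
      ext a
      by_cases ha : a ∈ Set.range inc
      · obtain ⟨c, rfl⟩ := ha
        exact hfix c
      · refine hone _ _ ?_ ha
        rintro ⟨c, hc⟩
        apply ha
        refine ⟨c, ?_⟩
        apply τ.injective
        rw [hfix c, hc]
    refine ⟨1, one_pos, fun F _ u => ?_⟩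
    rw [h1, Perm.sign_one, Units.val_one, one_smul, Rat.cast_one, one_smul]
    rfl
  · push Not at hfix
    obtain ⟨c, hc⟩ := hfix
    set c' : C' := τ.symm (inc c) with hc'
    have hτc' : τ c' = inc c := τ.apply_symm_apply (inc c)
    have hne : c' ≠ inc c := by
      intro h
      rw [h] at hτc'
      exact hc hτc'
    have hκ : κ c' = κ (inc c) := by
      rw [← hτ c', hτc']
    set τ' : Perm C' := τ * swap (inc c) c' with hτ'
    have hsw : ∀ x, κ (swap (inc c) c' x) = κ x := by
      intro x
      rw [swap_apply_def]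
      split_ifs with h1 h2
      · rw [h1, hκ]
      · rw [h2, hκ]
      · rfl
    have hτκ : ∀ x, κ (τ' x) = κ x := by
      intro x
      change κ (τ (swap (inc c) c' x)) = κ x
      rw [hτ, hsw]
    have hlt : (Finset.univ.filter (fun d : C => τ' (inc d) ≠ inc d)).card < n := by
      rw [← hn]
      apply Finset.card_lt_card
      rw [Finset.ssubset_iff_of_subset]
      · refine ⟨c, ?_, ?_⟩
        · simp only [Finset.mem_filter, Finset.mem_univ, true_and]
          exact hc
        · simp only [Finset.mem_filter, Finset.mem_univ, true_and, not_not]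
          change τ (swap (inc c) c' (inc c)) = inc c
          rw [swap_apply_left, hτc']
      · intro d hd
        simp only [Finset.mem_filter, Finset.mem_univ, true_and] at hd ⊢
        intro h
        apply hd
        have hdc : d ≠ c := by
          rintro rfl
          exact hc h
        have h1 : inc d ≠ inc c := fun h => hdc (hinc h)
        have h2 : inc d ≠ c' := by
          intro h2
          rw [← h2] at hτc'
          rw [h] at hτc'
          exact h1 hτc'
        change τ (swap (inc c) c' (inc d)) = inc d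
        rw [swap_apply_of_ne_of_ne h1 h2, h]
    obtain ⟨r, hr, hF⟩ := ih _ hlt τ' hτκ rfl
    have htp : (0 : ℚ) < t (κ c') := by exact_mod_cast ht (κ c')
    refine ⟨r / t (κ c'), by positivity, fun F hZ u => ?_⟩
    have h1 := hF F hZ u
    have h2 := hZ c c' hne hκ (u ∘ τ) (u ∘ inc) (by
      change u (τ c') = u (inc c)
      rw [hτc'])
    have h3 : (u ∘ τ) ∘ swap (inc c) c' = u ∘ τ' := rfl
    rw [h3] at h2
    have hsign : ((Perm.sign τ' : ℤˣ) : ℤ) = -((Perm.sign τ : ℤˣ) : ℤ) := by
      rw [hτ', Perm.sign_mul, Perm.sign_swap hne.symm]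
      simp
    have h4 : F (u ∘ τ') (u ∘ inc) = -(t (κ c') • F (u ∘ τ) (u ∘ inc)) := by
      rw [eq_neg_iff_add_eq_zero, add_comm]
      exact h2
    rw [hsign, h4, smul_neg, neg_smul, neg_neg, smul_comm] at h1
    have h5 : ((t (κ c') : ℕ) : k₀) • (((Perm.sign τ : ℤˣ) : ℤ) • F (u ∘ τ) (u ∘ inc)) =
        (r : k₀) • F u (u ∘ inc) := by
      rw [← h1, Nat.cast_smul_eq_nsmul]
    have h20 : ((t (κ c') : ℕ) : k₀) ≠ 0 := Nat.cast_ne_zero.2 (ht _).ne'
    rw [Rat.cast_div, Rat.cast_natCast, div_eq_inv_mul, mul_smul, ← h5, inv_smul_smul₀ h20]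

end Pool.Agent.ZC.AC
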