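import Pool.Agent.Lib.MP_a1cc03_ag.AC.T0
import Pool.Agent.Lib.MP_a1cc03_ag.AC.P4

/-! # The hermitian first fundamental theorem with one linear argument: the holomorphic case -/

namespace Pool.Agent.ZC.AC

open ComplexConjugate

variable {R : Type} [CommRing R] {U : Type} [AddCommGroup U] [Module ℂ U] {ι : Type}
  {e : ℕ} {V : Type} [AddCommGroup V] [Module R V]

section

variable {θ : ι → R →+* ℂ} {κ : Fin e → ι} {w : ι → R} {d : ι → ℕ}
  (hO : ∀ i, IsCM (θ i) → OmP (θ i) (w i) (d i))
  {f : (Fin e → V) → (V →+ U)} (hf : Inv θ κ f) {F : (Fin e → V) → (Fin e → V) → (V →+ U)}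
  (hF : PolOn Finset.univ F) (hFM : ∀ M, F M M = f M) {i : ι}
  (hlin : ∀ (M : Fin e → V) (r : R) (v : V), f M (r • v) = θ i r • f M v)
  (hvan : ∀ (M : Fin e → V) (c : Fin e), κ c = i → f M (M c) = 0)

include hF hFM hlin in
theorem pol_point (p q : Fin e → V) (r : R) (v : V) : F p q (r • v) = θ i r • F p q v := by
  classical
  have key := vanish_of_diag (k₀ := ℂ) Finset.univ (fun p q : Fin e → V =>
    F p q (r • v) - θ i r • F p q v) ⟨?_, ?_⟩ ?_ p q
  · exact sub_eq_zero.mp key
  · intro b _ p q x y
    simp only [hF.add b (Finset.mem_univ b), AddMonoidHom.add_apply, smul_add]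
    abel
  · intro b _ p q
    simp only [hF.symm b (Finset.mem_univ b) p q]
  · intro p q hpq
    have h1 : p = q := funext fun b => hpq b (Finset.mem_univ b)
    rw [h1, hFM, hlin, sub_self]

/-- evaluation of a relative holomorphic form -/
theorem HD_eval (W : Fin e → V →+ V) (σ : Fin e → ℂ) (D : Finset (Fin e)) (p q : Fin e → V)
    (v : V) : HD W σ D F p q v = ∑ S ∈ D.powerset, (∏ c ∈ S, σ c) • F (sub W S p) q v := by
  unfold HD
  rw [AddMonoidHom.finsetSum_apply]
  rfl

include hF hFM hlin in
theorem HD_point (W : Fin e → V →+ V) (σ : Fin e → ℂ) (D : Finset (Fin e)) (p q : Fin e → V)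
    (r : R) (v : V) : HD W σ D F p q (r • v) = θ i r • HD W σ D F p q v := by
  rw [HD_eval, HD_eval, Finset.smul_sum]
  refine Finset.sum_congr rfl fun S _ => ?_
  rw [pol_point hF hFM hlin, smul_comm]

include hF hFM hvan in
theorem HD_exchp (W : Fin e → V →+ V) (σ : Fin e → ℂ) {D : Finset (Fin e)} {c : Fin e}
    (hc : c ∉ D) (hκ : κ c = i) (p q : Fin e → V) :
    2 • HD W σ D F p q (q c) + HD W σ D F (Function.update p c (q c)) q (p c) = 0 := by
  rw [HD_eval, HD_eval, Finset.smul_sum, ← Finset.sum_add_distrib]
  refine Finset.sum_eq_zero fun S hS => ?_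
  have hcS : c ∉ S := fun h => hc (Finset.mem_powerset.mp hS h)
  have h := exchange_point (k₀ := ℂ) F hF c (fun M => by rw [hFM]; exact hvan M c hκ)
    (sub W S p) q
  rw [sub_apply_notMem W hcS] at h
  rw [sub_update, if_neg hcS, smul_comm, ← smul_add, h, smul_zero]

include hO hf hF hFM hlin hvan in
theorem HH_exchp {c : Fin e} (hκ : κ c = i) (p q : Fin e → V) :
    wt θ i • HH θ κ w F p q (q c) + HH θ κ w F (Function.update p c (q c)) q (p c) = 0 := by
  by_cases hi : IsCM (θ i)
  · have h1 : wt θ i = 1 := by
      unfold wt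
      rw [if_pos hi]
    rw [h1, one_smul]
    have hc : IsCM (θ (κ c)) := by rw [hκ]; exact hi
    have hm : c ∈ cmC θ κ := mem_cmC.mpr hc
    have hn := Finset.notMem_erase c (cmC θ κ)
    have hO' := hO _ hc
    unfold HH
    rw [HD_mem _ _ hm, HD_mem _ _ hm]
    simp only [Function.update_idem, Function.update_self, opC_apply]
    set D := (cmC θ κ).erase c with hD
    let G : V → V → V → U := fun a b x =>
      HD (opC κ w) (sgC θ κ w) D F (Function.update p c a) (Function.update q c b) x
    have g1 : ∀ a a' b x, G (a + a') b x = G a b x + G a' b x := by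
      intro a a' b x
      have h := HD_addl (opC κ w) (sgC θ κ w) D hF c p (Function.update q c b) a a'
      exact DFunLike.congr_fun h x
    have g2 : ∀ a b b' x, G a (b + b') x = G a b x + G a b' x := by
      intro a b b' x
      have h := HD_addr (opC κ w) (sgC θ κ w) D hF c (Function.update p c a) q b b'
      exact DFunLike.congr_fun h x
    have g3 : ∀ a b x x', G a b (x + x') = G a b x + G a b x' := fun a b x x' => map_add _ x x'
    have gs : ∀ a b x, G a b x = G b a x := by
      intro a b x
      have h := HD_symm (opC κ w) (sgC θ κ w) D hF hn p q a b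
      exact DFunLike.congr_fun h x
    have gE : ∀ a z, 2 • G a z z + G z z a = 0 := by
      intro a z
      have h := HD_exchp hF hFM hvan (opC κ w) (sgC θ κ w) hn hκ (Function.update p c a)
        (Function.update q c z)
      rw [Function.update_self, Function.update_self, Function.update_idem] at h
      exact h
    have g3t := three_point G g1 g2 g3 gs gE
    have gsk : ∀ a b x, G (w (κ c) • a) b x = -G a (w (κ c) • b) x := by
      intro a b x
      have h := HD_skew (opC κ w) (sgC θ κ w) D hf hF hFM hn hO'.1 hO'.2.1 p q a b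
      exact DFunLike.congr_fun h x
    have gW : ∀ a b x, sgC θ κ w c • G a b (w (κ c) • x) = G a b x := by
      intro a b x
      have h := HD_point hF hFM hlin (opC κ w) (sgC θ κ w) D (Function.update p c a)
        (Function.update q c b) (w (κ c)) x
      change sgC θ κ w c • HD (opC κ w) (sgC θ κ w) D F (Function.update p c a)
        (Function.update q c b) (w (κ c) • x) = _
      have e0 : sgC θ κ w c * θ i (w (κ c)) = 1 := by
        unfold sgC
        rw [← hκ]
        exact inv_mul_cancel₀ (om_ne hO')
      rw [h, smul_smul, e0, one_smul]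
    have key := point_alt G (smulAddHom R V (w (κ c))) (sgC θ κ w c) g3t gsk gW
      (p c) (q c) (q c)
    have e1 : G (p c) (q c) (q c) = HD (opC κ w) (sgC θ κ w) D F p q (q c) := by
      simp only [G]
      rw [Function.update_eq_self, Function.update_eq_self]
    have e2 : ∀ a x, G a (q c) x = HD (opC κ w) (sgC θ κ w) D F (Function.update p c a) q x := by
      intro a x
      simp only [G]
      rw [Function.update_eq_self]
    rw [e1] at key
    rw [e2, e2, e2] at key
    exact key
  · have h1 : wt θ i = 2 := by
      unfold wt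
      rw [if_neg hi]
    rw [h1]
    have hn : c ∉ cmC θ κ := fun h => hi (by rw [← hκ]; exact mem_cmC.mp h)
    exact HD_exchp hF hFM hvan _ _ hn hκ p q

end

end Pool.Agent.ZC.AC
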