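import Pool.Agent.Lib.MP_a1cc03_ag.AC.Defs

/-! # Permutations of the columns; minors of matrices of another type are zero -/

noncomputable section

namespace Pool.Agent.ZC.AC

open WeierstrassCurve

section

variable {R : Type} [CommRing R] {K : Type} [Field K] [DecidableEq K] {ι : Type} [DecidableEq ι]
  (E : ι → WeierstrassCurve K) [∀ i, Module R (E i).toAffine.Point] {n e : ℕ} (j : Fin n → ι)
  (κ : Fin e → ι)

theorem abMap_perm (σ : Equiv.Perm (Fin e)) (M : Fin e → Fin n → R)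
    (z : ∀ c, (E (κ c)).toAffine.Point) :
    abMap E j (κ ∘ σ) (M ∘ σ) (fun c => z (σ c)) = abMap E j κ M z := by
  funext k
  change ∑ c, M (σ c) k • (Pi.single (κ (σ c)) (z (σ c)) : ∀ i, (E i).toAffine.Point) (j k)
    = ∑ c, M c k • (Pi.single (κ c) (z c) : ∀ i, (E i).toAffine.Point) (j k)
  exact Equiv.sum_comp σ
    (fun c => M c k • (Pi.single (κ c) (z c) : ∀ i, (E i).toAffine.Point) (j k))

theorem abCycle_perm (σ : Equiv.Perm (Fin e)) (M : Fin e → Fin n → R)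
    (a : ∀ k, (E (j k)).toAffine.Point) :
    abCycle E j (κ ∘ σ) (M ∘ σ) a = abCycle E j κ M a := by
  let T : (∀ c, (E (κ c)).toAffine.Point) ≃ (∀ c, (E ((κ ∘ σ) c)).toAffine.Point) :=
    (Equiv.piCongrLeft (fun c => (E (κ c)).toAffine.Point) σ).symm
  have hT : ∀ z, T z = fun c => z (σ c) := fun z => rfl
  have h : ∀ z, abMap E j (κ ∘ σ) (M ∘ σ) (T z) = abMap E j κ M z :=
    fun z => abMap_perm E j κ σ M z
  unfold abCycle
  congr 1
  · refine Nat.card_congr (Equiv.subtypeEquiv T ?_).symm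
    intro z
    rw [AddMonoidHom.mem_ker, AddMonoidHom.mem_ker, h]
  · congr 1
    ext x
    constructor
    · rintro ⟨z, rfl⟩
      refine ⟨T.symm z, ?_⟩
      change abMap E j κ M (T.symm z) + a = abMap E j (κ ∘ σ) (M ∘ σ) z + a
      rw [← h, T.apply_symm_apply]
    · rintro ⟨z, rfl⟩
      refine ⟨T z, ?_⟩
      change abMap E j (κ ∘ σ) (M ∘ σ) (T z) + a = abMap E j κ M z + a
      rw [h]

theorem abCycle_perm' (σ : Equiv.Perm (Fin e)) (M : Fin e → Fin n → R)
    (a : ∀ k, (E (j k)).toAffine.Point) (t : Fin e → ι) (ht : κ ∘ σ = t) :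
    abCycle E j t (M ∘ σ) a = abCycle E j κ M a := by
  subst ht
  exact abCycle_perm E j κ σ M a

end

theorem cminor_perm {e n : ℕ} (σ : Equiv.Perm (Fin e)) (Z : Fin e → Fin n → ℂ) (I : Fin e → Fin n) :
    cminor (Z ∘ σ) I = ((Equiv.Perm.sign σ : ℤˣ) : ℂ) * cminor Z I := by
  unfold cminor
  have h := Matrix.det_permute σ (Matrix.of fun c r => Z c (I r))
  rw [← h]
  rfl

theorem cminor_snoc {e n : ℕ} (Z : Fin e → Fin n → ℂ) (w : Fin n → ℂ) (L : Fin (e + 1) → Fin n) :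
    cpminor Z w L
      = ∑ r : Fin (e + 1), (-1) ^ ((Fin.last e : ℕ) + (r : ℕ)) * w (L r) * cminor Z (L ∘ r.succAbove) := by
  unfold cpminor cminor
  rw [Matrix.det_succ_row _ (Fin.last e)]
  refine Finset.sum_congr rfl fun r _ => ?_
  congr 1
  · congr 1
    simp
  · congr 1
    ext c r'
    simp

theorem cpminor_perm {e n : ℕ} (σ : Equiv.Perm (Fin e)) (Z : Fin e → Fin n → ℂ) (w : Fin n → ℂ)
    (L : Fin (e + 1) → Fin n) :
    cpminor (Z ∘ σ) w L = ((Equiv.Perm.sign σ : ℤˣ) : ℂ) * cpminor Z w L := by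
  rw [cminor_snoc, cminor_snoc, Finset.mul_sum]
  refine Finset.sum_congr rfl fun r _ => ?_
  rw [cminor_perm]
  ring

/-- A minor which is not zero determines the type of the matrix up to permutations. -/
theorem cminor_eq_zero {ι : Type} {e n : ℕ} (j : Fin n → ι) (κ : Fin e → ι) (Z : Fin e → Fin n → ℂ)
    (hZ : ∀ c k, κ c ≠ j k → Z c k = 0)
    (I : Fin e → Fin n) (hI : ¬ ∃ σ : Equiv.Perm (Fin e), ∀ c, κ (σ c) = j (I c)) :
    cminor Z I = 0 := by
  unfold cminor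
  rw [Matrix.det_apply]
  refine Finset.sum_eq_zero fun σ _ => ?_
  have h : ∃ c, κ (σ c) ≠ j (I c) := by
    by_contra hc
    push Not at hc
    exact hI ⟨σ, hc⟩
  obtain ⟨c, hc⟩ := h
  have h0 : ∏ i, (Matrix.of fun c r => Z c (I r)) (σ i) i = 0 :=
    Finset.prod_eq_zero (Finset.mem_univ c) (hZ (σ c) (I c) hc)
  rw [h0, smul_zero]

end Pool.Agent.ZC.AC
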