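import Pool.Agent.Lib.MP_a1cc03_ag.AC.H3
import Pool.Agent.Lib.MP_a1cc03_ag.AC.X1

/-! # The main theorem for combinations of cycles of several types -/

noncomputable section

namespace Pool.Agent.ZC.AC

open WeierstrassCurve ComplexConjugate

variable {R : Type} [CommRing R] {K : Type} [Field K] [DecidableEq K] {ι : Type} [DecidableEq ι]
  (E : ι → WeierstrassCurve K) [∀ i, Module R (E i).toAffine.Point] {n e : ℕ} (j : Fin n → ι)

/-- The main theorem for cycles of several types: the two conditions on the sums over all types imply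
the conditions for every type separately, because a minor with the rows `I` is nonzero only for the matrices of
type `j ∘ I` (up to a permutation of the columns). -/
theorem main_mixed (θ : ι → R →+* ℂ) (hE : ∀ i, IsEndRing (E i) (θ i))
    (hs : ∀ i (r : R), θ i r ≠ 0 → Function.Surjective (fun P : (E i).toAffine.Point => r • P))
    (A : ∀ i, AddSubgroup (E i).toAffine.Point) (hA : ∀ i (r : R), ∀ x ∈ A i, r • x ∈ A i)
    (b : ∀ k, (E (j k)).toAffine.Point)
    (hprod : ∀ z : FreeAbelianGroup (∀ k, (E (j k)).toAffine.Point),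
        z ∈ AddSubgroup.closure (FreeAbelianGroup.of '' {x | ∀ k, x k - b k ∈ A (j k)}) →
        degree (fun k => E (j k)) z = 0 → albanese (fun k => E (j k)) z = 0 →
        ∃ N : ℕ, 0 < N ∧ N • z ∈ RatEqPi (fun k => E (j k)))
    {m : ℕ} (κ : Fin m → Fin e → ι) (c : Fin m → ℤ) (M : Fin m → Fin e → Fin n → R)
    (a : Fin m → ∀ k, (E (j k)).toAffine.Point)
    (hM : ∀ s d k, κ s d ≠ j k → M s d k = 0) (ha : ∀ s k, a s k ∈ A (j k))
    (hcl : ∀ I J : Fin e → Fin n,
      ∑ s, (c s : ℂ) * cminor (cmat θ j (M s)) I * conj (cminor (cmat θ j (M s)) J) = 0)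
    (hAJ : ∀ lam : ∀ i, (E i).toAffine.Point → ℂ, (∀ i, IsCoord (A i) (θ i) (lam i)) →
      ∀ (J : Fin e → Fin n) (L : Fin (e + 1) → Fin n),
        ∑ s, (c s : ℂ) * conj (cminor (cmat θ j (M s)) J) *
          cpminor (cmat θ j (M s)) (fun k => lam (j k) (a s k)) L = 0) :
    ∃ N : ℕ, 0 < N ∧ N • ∑ s, c s • abCycle E j (κ s) (M s) (b + a s) ∈
      ⨆ κ : Fin e → ι, RatAb R E j κ := by
  classical
  -- a representative of every type up to permutations of the columns
  let S : Setoid (Fin e → ι) :=
    { r := fun x y => ∃ σ : Equiv.Perm (Fin e), x ∘ σ = y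
      iseqv := ⟨fun x => ⟨1, rfl⟩, fun {x y} ⟨σ, h⟩ => ⟨σ⁻¹, by
          rw [← h]; funext b; simp⟩,
        fun {x y z} ⟨σ, h⟩ ⟨τ, h'⟩ => ⟨σ * τ, by rw [← h', ← h]; rfl⟩⟩ }
  let rep : (Fin e → ι) → (Fin e → ι) := fun x => (Quotient.mk S x).out
  have hrep : ∀ x, ∃ σ : Equiv.Perm (Fin e), x ∘ σ = rep x := by
    intro x
    have h : S x (rep x) := S.symm (Quotient.exact (Quotient.out_eq (Quotient.mk S x)))
    exact h
  have hrep' : ∀ (x y : Fin e → ι) (σ : Equiv.Perm (Fin e)), x ∘ σ = y → rep x = rep y := by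
    intro x y σ h
    have h2 : Quotient.mk S x = Quotient.mk S y := Quotient.sound ⟨σ, h⟩
    simp only [rep, h2]
  choose σ hσ using fun s => hrep (κ s)
  have hZ : ∀ s d k, κ s d ≠ j k → cmat θ j (M s) d k = 0 := by
    intro s d k h
    unfold cmat
    rw [hM s d k h, map_zero]
  -- the part of type `t`
  have hpart : ∀ t : Fin e → ι, ∃ N : ℕ, 0 < N ∧
      N • ∑ s, (if rep (κ s) = t then c s else 0) • abCycle E j (κ s) (M s) (b + a s) ∈
        RatAb R E j t := by
    intro t
    let M' : Fin m → Fin e → Fin n → R := fun s => if rep (κ s) = t then M s ∘ σ s else 0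
    let c' : Fin m → ℤ := fun s => if rep (κ s) = t then c s else 0
    have hM' : ∀ s d k, t d ≠ j k → M' s d k = 0 := by
      intro s d k h
      by_cases hs : rep (κ s) = t
      · simp only [M', if_pos hs, Function.comp_apply]
        refine hM s _ k ?_
        rw [← hs, ← hσ s] at h
        exact h
      · simp only [M', if_neg hs]
        rfl
    have hcm : ∀ s, rep (κ s) = t → cmat θ j (M' s) = cmat θ j (M s) ∘ σ s := by
      intro s hs
      simp only [M', if_pos hs]
      rfl
    have hmin : ∀ s I, rep (κ s) = t → cminor (cmat θ j (M' s)) I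
        = ((Equiv.Perm.sign (σ s) : ℤˣ) : ℂ) * cminor (cmat θ j (M s)) I := by
      intro s I hs
      rw [hcm s hs]
      exact cminor_perm (σ s) _ I
    have hpt : ∀ s w L, rep (κ s) = t → cpminor (cmat θ j (M' s)) w L
        = ((Equiv.Perm.sign (σ s) : ℤˣ) : ℂ) * cpminor (cmat θ j (M s)) w L := by
      intro s w L hs
      rw [hcm s hs]
      exact cpminor_perm (σ s) _ w L
    have hsq : ∀ s, ((Equiv.Perm.sign (σ s) : ℤˣ) : ℂ) * ((Equiv.Perm.sign (σ s) : ℤˣ) : ℂ) = 1 := by
      intro s
      rcases Int.units_eq_one_or (Equiv.Perm.sign (σ s)) with h | h <;> rw [h] <;> simp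
    have hcj : ∀ s, conj (((Equiv.Perm.sign (σ s) : ℤˣ) : ℂ)) = ((Equiv.Perm.sign (σ s) : ℤˣ) : ℂ) := by
      intro s
      rcases Int.units_eq_one_or (Equiv.Perm.sign (σ s)) with h | h <;> rw [h] <;> simp
    -- if the minor with rows `I` of a matrix of type `t` is not zero, then it is zero for the others
    have hother : ∀ I, (∃ s, rep (κ s) = t ∧ cminor (cmat θ j (M s)) I ≠ 0) →
        ∀ s, rep (κ s) ≠ t → cminor (cmat θ j (M s)) I = 0 := by
      rintro I ⟨s₁, hs₁, h₁⟩ s hs
      by_contra h
      have k1 : ∃ τ : Equiv.Perm (Fin e), ∀ d, κ s (τ d) = j (I d) := by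
        by_contra hn
        exact h (cminor_eq_zero j (κ s) _ (hZ s) I hn)
      have k2 : ∃ τ : Equiv.Perm (Fin e), ∀ d, κ s₁ (τ d) = j (I d) := by
        by_contra hn
        exact h₁ (cminor_eq_zero j (κ s₁) _ (hZ s₁) I hn)
      obtain ⟨τ, hτ⟩ := k1
      obtain ⟨τ₁, hτ₁⟩ := k2
      have e1 : rep (κ s) = rep (fun d => j (I d)) := hrep' _ _ τ (funext hτ)
      have e2 : rep (κ s₁) = rep (fun d => j (I d)) := hrep' _ _ τ₁ (funext hτ₁)
      exact hs (e1.trans (e2.symm.trans hs₁))
    have key := main_one E j t θ hE hs A hA b hprod c' M' a hM' ha ?_ ?_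
    · obtain ⟨N, hN, h⟩ := key
      refine ⟨N, hN, ?_⟩
      have e1 : ∑ s, (if rep (κ s) = t then c s else 0) • abCycle E j (κ s) (M s) (b + a s)
          = ∑ s, c' s • abCycle E j t (M' s) (b + a s) := by
        refine Finset.sum_congr rfl fun s _ => ?_
        by_cases hs : rep (κ s) = t
        · simp only [c', M', if_pos hs]
          rw [abCycle_perm' E j (κ s) (σ s) (M s) (b + a s) t ((hσ s).trans hs)]
        · simp only [c', if_neg hs, zero_smul]
      rw [e1]
      exact h
    · intro I J
      by_cases hex : ∃ s, rep (κ s) = t ∧ cminor (cmat θ j (M s)) I ≠ 0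
      · rw [← hcl I J]
        refine Finset.sum_congr rfl fun s _ => ?_
        by_cases hs : rep (κ s) = t
        · rw [hmin s I hs, hmin s J hs, map_mul, hcj]
          simp only [c', if_pos hs]
          linear_combination ((c s : ℂ) * cminor (cmat θ j (M s)) I *
            conj (cminor (cmat θ j (M s)) J)) * hsq s
        · rw [hother I hex s hs]
          simp only [c', if_neg hs]
          push_cast
          ring
      · refine Finset.sum_eq_zero fun s _ => ?_
        by_cases hs : rep (κ s) = t
        · have h0 : cminor (cmat θ j (M s)) I = 0 := by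
            by_contra h
            exact hex ⟨s, hs, h⟩
          rw [hmin s I hs, h0]
          ring
        · simp only [c', if_neg hs]
          push_cast
          ring
    · intro lam hlam J L
      by_cases hex : ∃ s, rep (κ s) = t ∧ cminor (cmat θ j (M s)) J ≠ 0
      · rw [← hAJ lam hlam J L]
        refine Finset.sum_congr rfl fun s _ => ?_
        by_cases hs : rep (κ s) = t
        · rw [hmin s J hs, hpt s _ L hs, map_mul, hcj]
          simp only [c', if_pos hs]
          linear_combination ((c s : ℂ) * conj (cminor (cmat θ j (M s)) J) *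
            cpminor (cmat θ j (M s)) (fun k => lam (j k) (a s k)) L) * hsq s
        · rw [hother J hex s hs]
          simp only [c', if_neg hs]
          push_cast
          rw [map_zero]
          ring
      · refine Finset.sum_eq_zero fun s _ => ?_
        by_cases hs : rep (κ s) = t
        · have h0 : cminor (cmat θ j (M s)) J = 0 := by
            by_contra h
            exact hex ⟨s, hs, h⟩
          rw [hmin s J hs, h0, mul_zero, map_zero]
          ring
        · simp only [c', if_neg hs]
          push_cast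
          ring
  choose N hN hpart using hpart
  refine ⟨∏ t ∈ Finset.univ.image (fun s => rep (κ s)), N t,
    Finset.prod_pos fun t _ => hN t, ?_⟩
  have hsum : ∑ s, c s • abCycle E j (κ s) (M s) (b + a s)
      = ∑ t ∈ Finset.univ.image (fun s => rep (κ s)),
        ∑ s, (if rep (κ s) = t then c s else 0) • abCycle E j (κ s) (M s) (b + a s) := by
    rw [Finset.sum_comm]
    refine Finset.sum_congr rfl fun s _ => ?_
    rw [← Finset.sum_smul, Finset.sum_ite_eq,
      if_pos (Finset.mem_image_of_mem (fun s => rep (κ s)) (Finset.mem_univ s))]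
  rw [hsum, Finset.smul_sum]
  refine sum_mem fun t ht => ?_
  obtain ⟨q, hq⟩ := Finset.dvd_prod_of_mem N ht
  rw [hq, mul_comm, mul_smul]
  exact AddSubgroup.mem_iSup_of_mem t (AddSubgroup.nsmul_mem _ (hpart t) q)

end Pool.Agent.ZC.AC
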